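import Pool.Agent.Y2.Step

/-!
Relations with at most six entries: the possible shapes of the part which is prime to `q`.
-/

namespace Pool.Agent.Y2

open Finset Pool.Agent.H916R2

lemma th_mul_unit {d q : ℕ} {a b : ℕ} (hd : d % 2 = 1) (h : ∀ z, Nat.Coprime z d →
    th d (z * (q * a)) = th d (z * b)) : q * a ≡ b [MOD d] := th_inj hd h

lemma dvd_odd_mul {d n k a : ℕ} (hd : d % 2 = 1) (hn : n = 2 ^ k) (h : d ∣ n * a) : d ∣ a := by
  have h1 : Nat.Coprime d n := by
    rw [hn]
    exact Nat.Coprime.pow_right _ (Nat.coprime_comm.mp (two_coprime hd))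
  exact h1.dvd_of_dvd_mul_left h

lemma SW_neg {d : ℕ} (hd : d ≠ 0) (A : Multiset ℕ) {x y : ℕ} (h : d ∣ x + y) :
    SW d A y = - SW d A x := by
  have hN : NeZero d := ⟨hd⟩
  have h1 : ∀ a : ℕ, saw ((y * a : ℕ) : ZMod d) = - saw ((x * a : ℕ) : ZMod d) := by
    intro a
    rw [← saw_neg]
    congr 1
    have h4 : (((x + y) * a : ℕ) : ZMod d) = 0 := by
      rw [ZMod.natCast_eq_zero_iff]; exact h.mul_right a
    push_cast at h4 ⊢
    linear_combination h4
  unfold SW
  induction A using Multiset.induction_on with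
  | empty => simp
  | cons a A ih =>
    simp only [Multiset.map_cons, Multiset.sum_cons]
    rw [ih, h1 a]; ring

lemma dvd_of_modEq {d n c : ℕ} (h : (n + 1) * c ≡ c [MOD d]) : d ∣ n * c := by
  have h1 : n * c + c ≡ 0 + c [MOD d] := by
    rw [zero_add]
    have : (n + 1) * c = n * c + c := by ring
    rwa [this] at h
  exact (Nat.modEq_zero_iff_dvd).mp (Nat.ModEq.add_right_cancel' c h1)

/-- opposite signs give opposite residues -/
lemma th_inj_neg {d : ℕ} (hd : d % 2 = 1) {a b : ℕ}
    (h : ∀ z, Nat.Coprime z d → th d (z * a) = - th d (z * b)) : d ∣ a + b := by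
  have hd0 : d ≠ 0 := by rintro rfl; simp at hd
  have h1 : a ≡ (d - 1) * b [MOD d] := by
    apply th_inj hd
    intro z hz
    rw [h z hz]
    symm
    apply th_odd hd
    have : z * b + z * ((d - 1) * b) = d * (z * b) := by
      obtain ⟨k, hk⟩ : ∃ k, d = k + 1 := ⟨d - 1, by omega⟩
      rw [hk]; simp; ring
    rw [this]
    exact Dvd.intro _ rfl
  have h2 := h1.add_right b
  have h3 : (d - 1) * b + b = d * b := by
    obtain ⟨k, hk⟩ : ∃ k, d = k + 1 := ⟨d - 1, by omega⟩
    rw [hk]; simp; ring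
  rw [h3] at h2
  exact (Nat.modEq_zero_iff_dvd).mp (h2.trans ((Nat.modEq_zero_iff_dvd).mpr (Dvd.intro _ rfl)))

/-- the sum of the signs when all entries are congruent -/
lemma ST_const {d : ℕ} (A : Multiset ℕ) (c : ℕ)
    (h : ∀ a ∈ A, ¬ d ∣ a → a ≡ c [MOD d]) (z : ℕ) : ST d A z = nz d A * th d (z * c) := by
  rw [ST_filter]
  unfold ST nz
  have h1 : (A.filter fun a => ¬ d ∣ a).map (fun a => th d (z * a)) =
      (A.filter fun a => ¬ d ∣ a).map (fun _ => th d (z * c)) :=
    Multiset.map_congr rfl fun a ha =>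
      th_per ((h a (Multiset.mem_filter.mp ha).1 (Multiset.mem_filter.mp ha).2).mul_left z)
  rw [h1, Multiset.map_const', Multiset.sum_replicate, nsmul_eq_mul]

lemma exists_nz {d : ℕ} {A : Multiset ℕ} (h : 0 < nz d A) : ∃ c ∈ A, ¬ d ∣ c := by
  unfold nz at h
  obtain ⟨c, hc⟩ := Multiset.card_pos_iff_exists_mem.mp h
  exact ⟨c, (Multiset.mem_filter.mp hc).1, (Multiset.mem_filter.mp hc).2⟩

lemma nz_eq_card {d : ℕ} {A : Multiset ℕ} (h : ∀ a ∈ A, ¬ d ∣ a) : nz d A = Multiset.card A := by
  unfold nz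
  rw [Multiset.filter_eq_self.mpr h]

lemma all_of_nz {d : ℕ} {A : Multiset ℕ} (h : nz d A = Multiset.card A) : ∀ a ∈ A, ¬ d ∣ a := by
  have h1 : A.filter (fun a => ¬ d ∣ a) = A :=
    Multiset.eq_of_le_of_card_le (Multiset.filter_le _ _) h.ge
  intro a ha
  rw [← h1] at ha
  exact (Multiset.mem_filter.mp ha).2

lemma three_dvd_of {d c : ℕ} (h : d ∣ 3 * c) (hc : ¬ d ∣ c) : 3 ∣ d := by
  by_contra h3
  have h4 : Nat.Coprime d 3 := by
    rw [Nat.coprime_comm, Nat.Prime.coprime_iff_not_dvd Nat.prime_three]; exact h3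
  exact hc (h4.dvd_of_dvd_mul_left h)

/-- a relation gives a setting -/
lemma mkSetting {q d m : ℕ} (hq : q.Prime) (hqd : q * d = m) (hodd : m % 2 = 1) (A : Multiset ℕ)
    (hrel : ∀ t, Nat.Coprime t m → SW m A t = 0) :
    Setting q d m (A.filter fun a => ¬ q ∣ a) ((A.filter fun a => q ∣ a).map fun a => a / q) := by
  have hm : m ≠ 0 := by rintro rfl; simp at hodd
  refine ⟨hq, hqd, hodd, fun a ha => (Multiset.mem_filter.mp ha).2, fun t ht => ?_⟩
  have h1 := SW_decomp hqd hm A (fun a => q ∣ a) (fun a _ h => h) t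
  rw [hrel t ht] at h1
  exact h1.symm

/-- lowering the level -/
lemma lower {l e m : ℕ} (hle : l * e = m) (hm : m ≠ 0) {A : Multiset ℕ} (hA : ∀ a ∈ A, l ∣ a)
    (hrel : ∀ t, Nat.Coprime t m → SW m A t = 0) :
    ∀ t, Nat.Coprime t e → SW e (A.map fun a => a / l) t = 0 := by
  intro t ht
  obtain ⟨t', ht', htt⟩ := lift_coprime (Dvd.intro_left l hle) hm ht
  have h1 := hrel t' ht'
  have hl : l ≠ 0 := by rintro rfl; rw [zero_mul] at hle; exact hm hle.symm
  have h2 : SW m A t' = l * SW e (A.map fun a => a / l) t' := by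
    unfold SW
    rw [Multiset.map_map, ← Multiset.sum_map_mul_left]
    congr 1
    apply Multiset.map_congr rfl
    intro a ha
    simp only [Function.comp_apply]
    rw [← saw_mul_level hm hle]
    congr 2
    conv_lhs => rw [← Nat.mul_div_cancel' (hA a ha)]
    ring
  rw [h2, SW_congr _ htt] at h1
  have hlz : (l : ℤ) ≠ 0 := by exact_mod_cast hl
  exact (mul_eq_zero.mp h1).resolve_left hlz

namespace Setting

variable {q d m : ℕ} {A1 A2 : Multiset ℕ} (H : Setting q d m A1 A2)

include H

/-- the relation for the signs -/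
lemma relT (hnd : ¬ q ∣ d) {u : ℕ} (hu : Nat.Coprime u d) :
    ST d A1 (q * u) - ST d A1 u + (q - 1) * ST d A2 (q * u) = 0 := by
  have hd := H.dodd
  have hdz : (d : ℤ) ≠ 0 := by exact_mod_cast H.hd
  have h1 := H.rel1 hnd hu
  have h2 := H.rel1 hnd (Nat.Coprime.mul_left (two_coprime hd) hu)
  have e1 := ST_SW hd A1 (q * u)
  have e2 := ST_SW hd A1 u
  have e3 := ST_SW hd A2 (q * u)
  rw [show 2 * (q * u) = q * (2 * u) by ring] at e1 e3
  apply mul_left_cancel₀ hdz
  linear_combination e1 - e2 + (q - 1) * e3 + 2 * h1 - h2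

omit H in
lemma nz_le : nz d A1 ≤ Multiset.card A1 := Multiset.card_le_card (Multiset.filter_le _ _)

/-- large primes -/
lemma case_big (hcard : Multiset.card A1 ≤ 6) (hbig : q ∣ d ∧ 7 ≤ q ∨ 17 ≤ q) :
    ∀ z, Nat.Coprime z d → ST d A1 z = 0 := by
  obtain ⟨h, hh, T, hT, _, _⟩ := H.theta_div
  intro z hz
  have h1 := hT z hz
  have h2 := (ST_bound A1 hz).1
  have h3 := (nz_le (d := d) (A1 := A1))
  have h4 : (nz d A1 : ℤ) ≤ 6 := by exact_mod_cast h3.trans hcard
  have h5 : 7 ≤ h := by
    rcases hh with ⟨e1, e2⟩ | ⟨e1, e2⟩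
    · rcases hbig with ⟨_, h6⟩ | h6 <;> omega
    · rcases hbig with ⟨h6, _⟩ | h6
      · exact absurd h6 e2
      · omega
  have h6 : (7 : ℤ) ≤ h := by exact_mod_cast h5
  have h7 : T z = 0 := by
    by_contra hne
    have h8 : (1 : ℤ) ≤ |T z| := Int.one_le_abs hne
    rw [← h1, abs_mul, Nat.abs_cast] at h2
    nlinarith
  rw [← h1, h7, mul_zero]

/-- `q = 13` -/
lemma case13 (hq : q = 13) (hnd : ¬ q ∣ d) (hcard : Multiset.card A1 + Multiset.card A2 ≤ 6) :
    (∀ z, Nat.Coprime z d → ST d A1 z = 0) ∨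
    (3 ∣ d ∧ (∀ a ∈ A1, d ∣ 3 * a) ∧ A2 = 0) := by
  obtain ⟨h, hh, T, hT, hpar, _⟩ := H.theta_div
  have hdo := H.dodd
  have h6 : h = 6 := by
    rcases hh with ⟨e1, e2⟩ | ⟨e1, e2⟩
    · exact absurd e2 hnd
    · omega
  subst h6
  have hnz := (nz_le (d := d) (A1 := A1))
  have hb : ∀ z, Nat.Coprime z d → T z = -1 ∨ T z = 0 ∨ T z = 1 := by
    intro z hz
    have h1 := hT z hz
    have h2 := (ST_bound A1 hz).1
    have h4 : (nz d A1 : ℤ) ≤ 6 := by
      have : nz d A1 ≤ 6 := by omega
      exact_mod_cast this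
    rw [← h1, abs_le] at h2
    push_cast at h2
    omega
  have hz1 := Nat.coprime_one_left d
  by_cases h0 : T 1 % 2 = 0
  · left
    intro z hz
    have h1 := hpar z hz
    have h2 := hb z hz
    have h3 : T z = 0 := by omega
    rw [← hT z hz, h3, mul_zero]
  · right
    have hodd : ∀ z, Nat.Coprime z d → |ST d A1 z| = 6 := by
      intro z hz
      have h1 := hpar z hz
      have h2 := hb z hz
      rw [← hT z hz]
      have h3 : T z = -1 ∨ T z = 1 := by omega
      rcases h3 with h3 | h3 <;> rw [h3] <;> norm_num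
    have hnz6 : nz d A1 = 6 := by
      have h1 := (ST_bound A1 hz1).1
      rw [hodd 1 hz1] at h1
      have h2 : 6 ≤ nz d A1 := by exact_mod_cast h1
      omega
    have hA2 : A2 = 0 := by
      rw [← Multiset.card_eq_zero]; omega
    have hall : ∀ a ∈ A1, ¬ d ∣ a := by
      have h1 : A1.filter (fun a => ¬ d ∣ a) = A1 := by
        apply Multiset.eq_of_le_of_card_le (Multiset.filter_le _ _)
        change Multiset.card A1 ≤ nz d A1
        omega
      intro a ha
      rw [← h1] at ha
      exact (Multiset.mem_filter.mp ha).2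
    have hcong := all_congr hdo A1 (fun z hz => by rw [hodd z hz, hnz6]; norm_num)
    -- a member
    obtain ⟨c, hc⟩ := Multiset.exists_mem_of_ne_zero (s := A1) (by
      rintro rfl
      simp [nz] at hnz6)
    have hcc : ∀ a ∈ A1, a ≡ c [MOD d] := fun a ha => hcong a ha c hc (hall a ha) (hall c hc)
    have hST : ∀ z, ST d A1 z = 6 * th d (z * c) := by
      intro z
      unfold ST
      have h1 : A1.map (fun a => th d (z * a)) = A1.map (fun _ => th d (z * c)) :=
        Multiset.map_congr rfl fun a ha => th_per ((hcc a ha).mul_left z)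
      rw [h1, Multiset.map_const', Multiset.sum_replicate]
      have h2 : Multiset.card A1 = 6 := by omega
      rw [h2]; simp
    have h13 : 13 * c ≡ c [MOD d] := by
      apply th_inj hdo
      intro z hz
      have h1 := H.relT hnd hz
      rw [hA2] at h1
      have h2 : ST d 0 (q * z) = 0 := by simp [ST]
      rw [h2, hST, hST, mul_zero, add_zero, hq] at h1
      have h3 : th d (13 * z * c) = th d (z * c) := by linarith
      rw [← h3]; congr 1; ring
    have h12 : d ∣ 12 * c := by
      have h1 : (13 * c : ℤ) ≡ c [ZMOD d] := by exact_mod_cast (Int.natCast_modEq_iff.mpr h13)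
      have h2 := (Int.modEq_iff_dvd.mp h1)
      have h3 : (d : ℤ) ∣ ((12 * c : ℕ) : ℤ) := by
        have h4 := dvd_neg.mpr h2
        have h5 : -((c : ℤ) - 13 * c) = ((12 * c : ℕ) : ℤ) := by push_cast; ring
        rwa [h5] at h4
      exact_mod_cast h3
    have h3c : d ∣ 3 * c :=
      dvd_odd_mul (k := 2) hdo (by norm_num : 4 = 2 ^ 2) (by
        rw [← mul_assoc]; exact h12)
    refine ⟨?_, ?_, hA2⟩
    · by_contra h3
      have h4 : Nat.Coprime d 3 := by
        rw [Nat.coprime_comm, Nat.Prime.coprime_iff_not_dvd Nat.prime_three]; exact h3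
      exact hall c hc (h4.dvd_of_dvd_mul_left h3c)
    · intro a ha
      exact (((hcc a ha).mul_left 3).dvd_iff dvd_rfl).mpr h3c


/-- `q = 11` -/
lemma case11 (hq : q = 11) (hnd : ¬ q ∣ d) (hcard : Multiset.card A1 + Multiset.card A2 ≤ 6)
    (heven : (Multiset.card A1 + Multiset.card A2) % 2 = 0) (hA2 : ∀ b ∈ A2, ¬ d ∣ b)
    (hrel : ∀ t, Nat.Coprime t m → A2 = 0 → SW m A1 t = 0) :
    (∀ z, Nat.Coprime z d → ST d A1 z = 0) ∨
    (3 ∣ d ∧ (∀ a ∈ A1, d ∣ 3 * a) ∧ ∀ b ∈ A2, d ∣ 3 * b) := by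
  obtain ⟨h, hh, T, hT, hpar, _⟩ := H.theta_div
  have hdo := H.dodd
  have h6 : h = 5 := by
    rcases hh with ⟨e1, e2⟩ | ⟨e1, e2⟩
    · exact absurd e2 hnd
    · omega
  subst h6
  have hnz := nz_le (d := d) (A1 := A1)
  by_cases hn5 : nz d A1 = 5
  · right
    have habs : ∀ z, Nat.Coprime z d → |ST d A1 z| = nz d A1 := by
      intro z hz
      obtain ⟨h1, h2⟩ := ST_bound A1 hz
      have h3 := hT z hz
      rw [hn5] at h1 h2 ⊢
      rw [abs_le] at h1
      push_cast at *
      have h4 : T z = -1 ∨ T z = 1 := by omega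
      rcases h4 with h4 | h4 <;> rw [← h3, h4] <;> norm_num
    have hcong := all_congr hdo A1 habs
    obtain ⟨c, hc, hcd⟩ := exists_nz (d := d) (A := A1) (by omega)
    have hcc : ∀ a ∈ A1, ¬ d ∣ a → a ≡ c [MOD d] := fun a ha had => hcong a ha c hc had hcd
    have hSTc := ST_const A1 c hcc
    have hA1' : d ∣ 3 * c → ∀ a ∈ A1, d ∣ 3 * a := by
      intro h a ha
      by_cases had : d ∣ a
      · exact had.mul_left 3
      · exact (((hcc a ha had).mul_left 3).dvd_iff dvd_rfl).mpr h
    rcases Nat.eq_zero_or_pos (Multiset.card A2) with h0 | h0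
    · -- `A2 = 0`: level 55, impossible
      exfalso
      have hA20 : A2 = 0 := Multiset.card_eq_zero.mp h0
      have h11 : 11 * c ≡ c [MOD d] := by
        apply th_inj hdo
        intro z hz
        have h1 := H.relT hnd hz
        have h2 : ST d A2 (q * z) = 0 := by rw [hA20]; simp [ST]
        rw [h2, hSTc, hSTc, mul_zero, add_zero, hq, hn5] at h1
        have h3 : th d (11 * z * c) = th d (z * c) := by push_cast at h1; linarith
        rw [← h3]; congr 1; ring
      have h5c : d ∣ 5 * c := dvd_odd_mul (k := 1) hdo (by norm_num : 2 = 2 ^ 1) (by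
        rw [← mul_assoc]; exact dvd_of_modEq (n := 10) h11)
      have h5d : 5 ∣ d := by
        by_contra h5
        have h4 : Nat.Coprime d 5 := by
          rw [Nat.coprime_comm, Nat.Prime.coprime_iff_not_dvd Nat.prime_five]; exact h5
        exact hcd (h4.dvd_of_dvd_mul_left h5c)
      obtain ⟨l, hl⟩ := h5d
      have hm := H.hm
      have hlm : l * 55 = m := by rw [← H.hqd, hq, hl]; ring
      have hl0 : l ≠ 0 := by rintro rfl; rw [zero_mul] at hlm; exact hm hlm.symm
      have hla : ∀ a ∈ A1, l ∣ a := by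
        intro a ha
        have h5a : d ∣ 5 * a := by
          by_cases had : d ∣ a
          · exact had.mul_left 5
          · exact (((hcc a ha had).mul_left 5).dvd_iff dvd_rfl).mpr h5c
        rw [hl] at h5a
        exact Nat.dvd_of_mul_dvd_mul_left (by norm_num) h5a
      have hrel55 := lower hlm hm hla (fun t ht => hrel t ht hA20)
      have H' := mkSetting Nat.prime_five (by norm_num : 5 * 11 = 55) (by norm_num) _ hrel55
      obtain ⟨h', hh', T', hT', _, _⟩ := H'.theta_div
      have h2 : h' = 2 := by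
        rcases hh' with ⟨e1, e2⟩ | ⟨e1, e2⟩
        · norm_num at e2
        · omega
      subst h2
      have e1 := hT' 1 (Nat.coprime_one_left 11)
      have e2 := (ST_bound ((A1.map fun a => a / l).filter fun a => ¬ 5 ∣ a)
        (Nat.coprime_one_left 11)).2
      have e3 : nz 11 ((A1.map fun a => a / l).filter fun a => ¬ 5 ∣ a) = 5 := by
        refine Eq.trans ?_ hn5
        unfold nz
        rw [Multiset.filter_filter, Multiset.filter_map, Multiset.card_map]
        congr 1
        apply Multiset.filter_congr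
        intro a ha
        simp only [Function.comp_apply]
        obtain ⟨a', rfl⟩ := hla a ha
        rw [Nat.mul_div_cancel_left _ (Nat.pos_of_ne_zero hl0), hl]
        have e4 : ¬ 11 ∣ a' := by
          intro h
          have := H.hA _ ha
          rw [hq] at this
          exact this (h.mul_left l)
        have e5 : 5 * l ∣ l * a' ↔ 5 ∣ a' := by
          rw [mul_comm 5 l]
          exact Nat.mul_dvd_mul_iff_left (Nat.pos_of_ne_zero hl0)
        rw [e5]
        exact ⟨fun h => h.2, fun h => ⟨e4, h⟩⟩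
      rw [e3] at e2
      omega
    · have hc1 : Multiset.card A2 = 1 := by omega
      obtain ⟨b, hb⟩ := Multiset.card_eq_one.mp hc1
      have hbd : ¬ d ∣ b := hA2 b (by rw [hb]; exact Multiset.mem_singleton_self b)
      have hqc : Nat.Coprime q d := (Nat.Prime.coprime_iff_not_dvd H.hq).mpr hnd
      have key : ∀ z, Nat.Coprime z d → th d (z * c) = th d (z * (11 * b)) ∧
          th d (z * (11 * c)) = - th d (z * (11 * b)) := by
        intro z hz
        have h1 := H.relT hnd hz
        have h2 : ST d A2 (q * z) = th d (q * z * b) := by rw [hb]; simp [ST]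
        rw [h2, hSTc, hSTc, hq, hn5] at h1
        have h11z : Nat.Coprime (11 * z) d := by
          rw [hq] at hqc
          exact Nat.Coprime.mul_left hqc hz
        have c1 := th_cases (d := d) (x := 11 * z * c) (by rwa [dvd_coprime_mul h11z])
        have c2 := th_cases (d := d) (x := z * c) (by rwa [dvd_coprime_mul hz])
        have c3 := th_cases (d := d) (x := 11 * z * b) (by rwa [dvd_coprime_mul h11z])
        have e1 : z * (11 * b) = 11 * z * b := by ring
        have e2 : z * (11 * c) = 11 * z * c := by ring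
        rw [e1, e2]
        push_cast at h1
        constructor <;> omega
      have k1 : c ≡ 11 * b [MOD d] := th_inj hdo fun z hz => (key z hz).1
      have k2 : d ∣ 11 * c + c := th_inj_neg hdo fun z hz => by
        rw [(key z hz).2, (key z hz).1]
      have k3 : d ∣ 3 * c := dvd_odd_mul (k := 2) hdo (by norm_num : 4 = 2 ^ 2) (by
        rw [← mul_assoc]
        have : 11 * c + c = 4 * 3 * c := by ring
        rwa [this] at k2)
      refine ⟨three_dvd_of k3 hcd, hA1' k3, ?_⟩
      intro b' hb'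
      rw [hb, Multiset.mem_singleton] at hb'
      subst hb'
      have k4 : d ∣ 3 * (11 * b') := ((k1.mul_left 3).dvd_iff dvd_rfl).mp k3
      have k5 : Nat.Coprime d 11 := by rw [hq] at hqc; exact Nat.coprime_comm.mp hqc
      have k6 : d ∣ 11 * (3 * b') := by
        have : 3 * (11 * b') = 11 * (3 * b') := by ring
        rwa [this] at k4
      exact k5.dvd_of_dvd_mul_left k6
  · left
    intro z hz
    obtain ⟨h1, h2⟩ := ST_bound A1 hz
    have h3 := hT z hz
    rw [abs_le] at h1
    have h4 : nz d A1 ≤ 6 := by omega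
    push_cast at *
    have h5 : T z = 0 := by omega
    rw [← h3, h5, mul_zero]

/-- `q = 5`, `25 ∣ m` -/
lemma case5 (hq : q = 5) (hd5 : q ∣ d) (hcard : Multiset.card A1 + Multiset.card A2 ≤ 6)
    (heven : (Multiset.card A1 + Multiset.card A2) % 2 = 0) (hA2 : ∀ b ∈ A2, ¬ d ∣ b) :
    (∀ z, Nat.Coprime z d → ST d A1 z = 0) ∨
    (∃ c b, (∀ a ∈ A1, a ≡ c [MOD d]) ∧ Multiset.card A1 = 5 ∧ A2 = {b} ∧ d ∣ c + b ∧ ¬ q ∣ c) := by
  obtain ⟨h, hh, T, hT, hpar, _⟩ := H.theta_div
  have hdo := H.dodd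
  have h6 : h = 5 := by
    rcases hh with ⟨e1, e2⟩ | ⟨e1, e2⟩
    · omega
    · exact absurd hd5 e2
  subst h6
  have hnd : ∀ a ∈ A1, ¬ d ∣ a := fun a ha h => H.hA a ha (hd5.trans h)
  have hnz := nz_eq_card hnd
  by_cases hn5 : nz d A1 = 5
  · right
    have habs : ∀ z, Nat.Coprime z d → |ST d A1 z| = nz d A1 := by
      intro z hz
      obtain ⟨h1, h2⟩ := ST_bound A1 hz
      have h3 := hT z hz
      rw [hn5] at h1 h2 ⊢
      rw [abs_le] at h1
      push_cast at *
      have h4 : T z = -1 ∨ T z = 1 := by omega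
      rcases h4 with h4 | h4 <;> rw [← h3, h4] <;> norm_num
    have hcong := all_congr hdo A1 habs
    obtain ⟨c, hc, hcd⟩ := exists_nz (d := d) (A := A1) (by omega)
    have hcc : ∀ a ∈ A1, a ≡ c [MOD d] := fun a ha => hcong a ha c hc (hnd a ha) hcd
    obtain ⟨b, hb⟩ := Multiset.card_eq_one.mp (by omega : Multiset.card A2 = 1)
    refine ⟨c, b, hcc, by omega, hb, ?_, H.hA c hc⟩
    have hbd : ¬ d ∣ b := hA2 b (by rw [hb]; exact Multiset.mem_singleton_self b)
    have h1 := H.rel2 hd5 (Nat.coprime_one_left d)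
    have hN : NeZero d := ⟨H.hd⟩
    have h2 : SW d A1 1 = 5 * saw (c : ZMod d) := by
      unfold SW
      have h3 : A1.map (fun a => saw ((1 * a : ℕ) : ZMod d)) = A1.map (fun _ => saw (c : ZMod d)) :=
        Multiset.map_congr rfl fun a ha => by
          rw [one_mul, saw_per _ _ (hcc a ha)]
      rw [h3, Multiset.map_const', Multiset.sum_replicate, ← hnz, hn5]
      simp
    have h3 : SW d A2 1 = saw (b : ZMod d) := by rw [hb]; simp [SW]
    rw [h2, h3, hq, saw_val c hcd, saw_val b hbd] at h1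
    have h4 : (c % d) + (b % d) = d := by push_cast at h1; omega
    have h5 : (c + b) % d = 0 := by rw [Nat.add_mod, h4, Nat.mod_self]
    exact Nat.dvd_of_mod_eq_zero h5
  · left
    intro z hz
    obtain ⟨h1, h2⟩ := ST_bound A1 hz
    have h3 := hT z hz
    rw [abs_le] at h1
    have h4 : nz d A1 ≤ 6 := by omega
    push_cast at *
    have h5 : T z = 0 := by omega
    rw [← h3, h5, mul_zero]

end Setting

end Pool.Agent.Y2
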