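import Pool.Agent.Y2.Dim

/-!
Counting; distributions away from `q` with prescribed values.
-/

namespace Pool.Agent.Y2

open Finset Pool.Agent.H916R2

/-- local factor -/
def cl (q m : ℕ) (P : Finset ℕ) (s : ℕ) : ℕ :=
  if s = q ∨ s ∈ P then s ^ (m.factorization s - 1) * (s - 1) else s ^ (m.factorization s)

/-- the expected dimension -/
def cc (q m : ℕ) (P : Finset ℕ) : ℕ := ∏ s ∈ m.primeFactors, cl q m P s

lemma card_zmod_le {m : ℕ} [NeZero m] (B : Finset (ZMod m)) (R : ℕ → ℕ → Prop)
    [∀ s, DecidablePred (R s)]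
    (h : ∀ a ∈ B, ∀ s ∈ m.primeFactors, R s (a.val % s ^ (m.factorization s))) (b : ℕ → ℕ)
    (hb : ∀ s ∈ m.primeFactors, ((range (s ^ (m.factorization s))).filter (R s)).card ≤ b s) :
    B.card ≤ ∏ s ∈ m.primeFactors, b s := by
  have hm : m ≠ 0 := NeZero.ne m
  rw [← Finset.card_image_of_injective B (ZMod.val_injective m)]
  refine le_trans (Finset.card_le_card ?_) (le_trans (card_le_prod hm R)
    (Finset.prod_le_prod' hb))
  intro x hx
  obtain ⟨a, ha, rfl⟩ := mem_image.mp hx
  simp only [mem_filter, mem_range]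
  exact ⟨ZMod.val_lt a, h a ha⟩

lemma card_prime_to {q f : ℕ} (hq : q.Prime) :
    ((range (q ^ (f + 1))).filter (fun x => ¬ q ∣ x)).card ≤ q ^ f * (q - 1) := by
  rw [← Nat.totient_prime_pow_succ hq]
  unfold Nat.totient
  apply Finset.card_le_card
  intro x hx
  simp only [mem_filter, mem_range] at hx ⊢
  refine ⟨hx.1, ?_⟩
  exact Nat.Coprime.pow_left _ ((Nat.Prime.coprime_iff_not_dvd hq).mpr hx.2)

lemma fac_succ {m s : ℕ} (hs : s ∈ m.primeFactors) : ∃ f, m.factorization s = f + 1 := by
  have h1 := Nat.prime_of_mem_primeFactors hs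
  have h2 := Nat.dvd_of_mem_primeFactors hs
  have hm : m ≠ 0 := (Nat.mem_primeFactors.mp hs).2.2
  have := h1.factorization_pos_of_dvd hm h2
  exact ⟨m.factorization s - 1, by omega⟩

/-- the local conditions -/
def RR (q m : ℕ) (P : Finset ℕ) (s x : ℕ) : Prop :=
  (s = q → ¬ q ∣ x) ∧ (s ∈ P → x = 0 ∨ s ^ (m.factorization s - 1) < x)

instance (q m : ℕ) (P : Finset ℕ) (s : ℕ) : DecidablePred (RR q m P s) := fun x => by
  unfold RR; infer_instance

lemma card_RR {q m : ℕ} (hq : q.Prime) {P : Finset ℕ} (hqP : q ∉ P) {s : ℕ}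
    (hs : s ∈ m.primeFactors) :
    ((range (s ^ (m.factorization s))).filter (RR q m P s)).card ≤ cl q m P s := by
  obtain ⟨f, hf⟩ := fac_succ hs
  have hsp := Nat.prime_of_mem_primeFactors hs
  unfold cl
  by_cases h1 : s = q
  · subst h1
    rw [if_pos (Or.inl rfl), hf, Nat.add_sub_cancel]
    refine le_trans (Finset.card_le_card ?_) (card_prime_to (f := f) hq)
    intro x hx
    simp only [mem_filter, RR] at hx ⊢
    exact ⟨hx.1, hx.2.1 trivial⟩
  · by_cases h2 : s ∈ P
    · rw [if_pos (Or.inr h2), hf, Nat.add_sub_cancel]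
      refine le_trans (Finset.card_le_card ?_) (card_TT (f := f) hsp)
      intro x hx
      simp only [mem_filter, RR] at hx ⊢
      have := hx.2.2 h2
      rw [hf, Nat.add_sub_cancel] at this
      exact ⟨hx.1, this⟩
    · rw [if_neg (by tauto)]
      refine le_trans (Finset.card_filter_le _ _) (by rw [card_range])

lemma RR_of {q m : ℕ} [NeZero m] (hqm : q ∣ m) (hq : q.Prime) {P : Finset ℕ} {a : ZMod m}
    (h1 : ¬ q ∣ a.val) (h2 : ∀ r ∈ P, TT r m a.val) (s : ℕ) :
    RR q m P s (a.val % s ^ (m.factorization s)) := by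
  refine ⟨?_, ?_⟩
  · rintro rfl h
    apply h1
    have hf := hq.factorization_pos_of_dvd (NeZero.ne m) hqm
    exact (Nat.dvd_mod_iff (dvd_pow_self s (by omega))).mp h
  · intro hs
    exact h2 s hs

lemma card_BB {q m : ℕ} [NeZero m] (hq : q.Prime) (hqm : q ∣ m) {P : Finset ℕ} (hqP : q ∉ P) :
    (BB q m P).card ≤ cc q m P := by
  apply card_zmod_le (BB q m P) (RR q m P)
  · intro a ha s _
    simp only [BB, mem_filter, mem_univ, true_and] at ha
    exact RR_of hqm hq ha.1 ha.2 s
  · intro s hs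
    exact card_RR hq hqP hs

lemma card_BI {q m : ℕ} [NeZero m] (hq : q.Prime) (hqm : q ∣ m) {P : Finset ℕ} (hqP : q ∉ P)
    {r : ℕ} (hr : r ∈ m.primeFactors) (hrP : r ∉ P) (hrq : r ≠ q) :
    (BI q m P r).card + cc q m (insert r P) ≤ cc q m P := by
  obtain ⟨f, hf⟩ := fac_succ hr
  have hrp := Nat.prime_of_mem_primeFactors hr
  set A := ∏ s ∈ m.primeFactors.erase r, cl q m P s with hA
  have h1 : cc q m P = r ^ (f + 1) * A := by
    unfold cc
    rw [← Finset.mul_prod_erase _ _ hr, ← hA]
    congr 1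
    unfold cl
    rw [if_neg (by tauto), hf]
  have h2 : cc q m (insert r P) = r ^ f * (r - 1) * A := by
    unfold cc
    rw [← Finset.mul_prod_erase _ _ hr]
    congr 1
    · unfold cl
      rw [if_pos (by simp), hf, Nat.add_sub_cancel]
    · rw [hA]
      refine Finset.prod_congr rfl fun s hs => ?_
      have hsr : s ≠ r := (Finset.mem_erase.mp hs).1
      unfold cl
      have : (s = q ∨ s ∈ insert r P) ↔ (s = q ∨ s ∈ P) := by
        rw [mem_insert]; tauto
      simp only [this]
  have h3 : (BI q m P r).card ≤ r ^ f * A := by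
    let b : ℕ → ℕ := fun s => if s = r then r ^ f else cl q m P s
    let R : ℕ → ℕ → Prop := fun s x => RR q m P s x ∧ (s = r → x < r ^ f)
    have h4 : (BI q m P r).card ≤ ∏ s ∈ m.primeFactors, b s := by
      apply card_zmod_le (BI q m P r) R
      · intro a ha s _
        simp only [BI, mem_filter, mem_univ, true_and] at ha
        refine ⟨RR_of hqm hq ha.1.1 ha.1.2 s, ?_⟩
        rintro rfl
        have := ha.2
        rw [hf, Nat.add_sub_cancel] at this
        rw [hf]
        exact this
      · intro s hs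
        by_cases hsr : s = r
        · subst hsr
          simp only [b, if_true, R]
          refine le_trans (Finset.card_le_card (t := range (s ^ f)) ?_) (by rw [card_range])
          intro x hx
          simp only [mem_filter, mem_range] at hx ⊢
          exact hx.2.2 trivial
        · simp only [b, if_neg hsr, R]
          refine le_trans (Finset.card_le_card ?_) (card_RR hq hqP hs)
          intro x hx
          simp only [mem_filter] at hx ⊢
          exact ⟨hx.1, hx.2.1⟩
    rw [← Finset.mul_prod_erase _ _ hr] at h4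
    have h5 : ∏ s ∈ m.primeFactors.erase r, b s = A := by
      rw [hA]
      refine Finset.prod_congr rfl fun s hs => ?_
      simp only [b, if_neg (Finset.mem_erase.mp hs).1]
    rw [h5] at h4
    simpa [b] using h4
  rw [h1, h2]
  have h6 : r ^ (f + 1) = r ^ f * (r - 1) + r ^ f := by
    obtain ⟨k, rfl⟩ : ∃ k, r = k + 1 := ⟨r - 1, by have := hrp.pos; omega⟩
    rw [Nat.add_sub_cancel, pow_succ]; ring
  rw [h6]
  nlinarith

lemma base_dim {q m : ℕ} [NeZero m] (hq : q.Prime) (hqm : q ∣ m) :
    cc q m ∅ ≤ Module.finrank ℚ (WW q m ∅) := by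
  have hm : m ≠ 0 := NeZero.ne m
  have hqmem : q ∈ m.primeFactors := Nat.mem_primeFactors.mpr ⟨hq, hqm, hm⟩
  obtain ⟨f, hf⟩ := fac_succ hqmem
  set M : Finset (ZMod m) := univ.filter (fun a => q ∣ a.val) with hM
  -- number of multiples
  have hcM : M.card ≤ m / q := by
    rw [← Finset.card_image_of_injective M (ZMod.val_injective m)]
    have : M.image ZMod.val ⊆ (range (m / q)).image (fun i => q * i) := by
      intro x hx
      obtain ⟨a, ha, rfl⟩ := mem_image.mp hx
      simp only [hM, mem_filter, mem_univ, true_and] at ha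
      obtain ⟨k, hk⟩ := ha
      refine mem_image.mpr ⟨k, ?_, hk.symm⟩
      rw [mem_range]
      have h1 := ZMod.val_lt a
      obtain ⟨d, hd⟩ := hqm
      rw [hd, Nat.mul_div_cancel_left _ hq.pos]
      rw [hk] at h1
      have h2 : q * k < q * d := by rw [← hd]; exact h1
      exact Nat.lt_of_mul_lt_mul_left h2
    refine le_trans (Finset.card_le_card this) (le_trans Finset.card_image_le (by rw [card_range]))
  -- the expected dimension
  have hcc : cc q m ∅ + m / q = m := by
    have h1 : cc q m ∅ = q ^ f * (q - 1) * ∏ s ∈ m.primeFactors.erase q, s ^ (m.factorization s) := by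
      unfold cc
      rw [← Finset.mul_prod_erase _ _ hqmem]
      congr 1
      · unfold cl
        rw [if_pos (Or.inl rfl), hf, Nat.add_sub_cancel]
      · refine Finset.prod_congr rfl fun s hs => ?_
        unfold cl
        rw [if_neg]
        have := (Finset.mem_erase.mp hs).1
        simp [this]
    have h2 : m = q ^ (f + 1) * ∏ s ∈ m.primeFactors.erase q, s ^ (m.factorization s) := by
      have h3 := Nat.prod_factorization_pow_eq_self hm
      rw [Finsupp.prod, Nat.support_factorization, ← Finset.mul_prod_erase _ _ hqmem, hf] at h3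
      exact h3.symm
    set A := ∏ s ∈ m.primeFactors.erase q, s ^ (m.factorization s) with hA
    have h4 : m / q = q ^ f * A := by
      apply Nat.div_eq_of_eq_mul_right hq.pos
      rw [h2]; ring
    rw [h1, h4]
    conv_rhs => rw [h2]
    obtain ⟨k, hk⟩ : ∃ k, q = k + 1 := ⟨q - 1, by have := hq.pos; omega⟩
    rw [hk, Nat.add_sub_cancel, pow_succ]; ring
  let ρ : (ZMod m → ℚ) →ₗ[ℚ] (M → ℚ) := LinearMap.funLeft ℚ ℚ (fun b : M => b.1)
  have h1 := LinearMap.finrank_range_add_finrank_ker ρ
  have h2 : Module.finrank ℚ (LinearMap.range ρ) ≤ M.card := by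
    refine le_trans (Submodule.finrank_le _) ?_
    rw [Module.finrank_fintype_fun_eq_card, Fintype.card_coe]
  have h3 : LinearMap.ker ρ ≤ WW q m ∅ := by
    intro f hf
    rw [mem_WW]
    refine ⟨?_, ?_, ?_⟩
    · intro x y hxy
      have : (x : ZMod m) = (y : ZMod m) := (ZMod.natCast_eq_natCast_iff x y m).mpr hxy
      rw [this]
    · intro _ n hn
      have hmem : (n : ZMod m) ∈ M := by
        simp only [hM, mem_filter, mem_univ, true_and]
        rw [ZMod.val_natCast]
        exact (Nat.dvd_mod_iff hqm).mpr hn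
      exact congrFun hf ⟨(n : ZMod m), hmem⟩
    · intro r hr
      exact absurd hr (Finset.notMem_empty r)
  have h4 := Submodule.finrank_mono h3
  rw [Module.finrank_fintype_fun_eq_card, ZMod.card] at h1
  omega

lemma dim_ge {q m : ℕ} [NeZero m] (hq : q.Prime) (hqm : q ∣ m) (P : Finset ℕ)
    (hP : P ⊆ m.primeFactors.erase q) : cc q m P ≤ Module.finrank ℚ (WW q m P) := by
  induction P using Finset.induction_on with
  | empty => exact base_dim hq hqm
  | insert r P hrP ih =>
    have hP' : P ⊆ m.primeFactors.erase q := fun x hx => hP (mem_insert_of_mem hx)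
    have hr := hP (mem_insert_self r P)
    rw [Finset.mem_erase] at hr
    have h1 := ih hP'
    have hPp : ∀ s ∈ P, s.Prime ∧ s ∣ m ∧ s ≠ q := by
      intro s hs
      have := hP' hs
      rw [Finset.mem_erase] at this
      exact ⟨Nat.prime_of_mem_primeFactors this.2, Nat.dvd_of_mem_primeFactors this.2, this.1⟩
    have h2 := finrank_step hq hqm hPp (Nat.prime_of_mem_primeFactors hr.2)
      (Nat.dvd_of_mem_primeFactors hr.2) hr.1 hrP
    have hqP : q ∉ P := fun h => (hPp q h).2.2 rfl
    have h3 := card_BI hq hqm hqP hr.2 hrP hr.1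
    omega

/-- the other primes -/
abbrev PO (q m : ℕ) : Finset ℕ := m.primeFactors.erase q

lemma PO_prime {q m : ℕ} {r : ℕ} (hr : r ∈ PO q m) : r.Prime ∧ r ∣ m ∧ r ≠ q := by
  rw [PO, Finset.mem_erase] at hr
  exact ⟨Nat.prime_of_mem_primeFactors hr.2, Nat.dvd_of_mem_primeFactors hr.2, hr.1⟩

lemma cc_full {q m : ℕ} (hm : m ≠ 0) : cc q m (PO q m) = Nat.totient m := by
  unfold cc
  rw [Nat.totient_eq_prod_factorization hm, Finsupp.prod, Nat.support_factorization]
  refine Finset.prod_congr rfl fun s hs => ?_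
  unfold cl
  rw [if_pos]
  by_cases h : s = q
  · exact Or.inl h
  · right
    rw [PO, Finset.mem_erase]
    exact ⟨h, hs⟩

section

variable {q m : ℕ} (hq : q.Prime) (hqm : q ∣ m)

include hq hqm

/-- Distributions with prescribed values. -/
theorem exists_td (hm : m ≠ 0) (v : ℕ → ℤ) : ∃ C : ℕ → ℤ, TD q m (PO q m) C ∧
    ∀ x, ¬ q ∣ x → (∀ r ∈ PO q m, TT r m x) → C x = v (x % m) := by
  have : NeZero m := ⟨hm⟩
  have hPp : ∀ r ∈ PO q m, r.Prime ∧ r ∣ m ∧ r ≠ q := fun r hr => PO_prime hr
  have hqP : q ∉ PO q m := fun h => (hPp q h).2.2 rfl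
  obtain ⟨f, hf, hfv⟩ := exists_ext_of_card (WW q m (PO q m)) (BB q m (PO q m))
    (fun f hf h => WW_vanish hq hqm hPp hf h)
    (le_trans (card_BB hq hqm hqP) (dim_ge hq hqm _ (Finset.Subset.refl _)))
    (fun a => (v a.val : ℚ))
  rw [mem_WW] at hf
  have hval : ∀ x : ℕ, ¬ q ∣ x → (∀ r ∈ PO q m, TT r m x) → f (x : ZMod m) = (v (x % m) : ℚ) := by
    intro x hx hT
    rw [hfv (x : ZMod m), ZMod.val_natCast]
    simp only [BB, mem_filter, mem_univ, true_and]
    rw [ZMod.val_natCast]
    refine ⟨?_, ?_⟩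
    · intro h; exact hx ((Nat.dvd_mod_iff hqm).mp h)
    · intro r hr
      rw [TT_mod]
      exact hT r hr
  have hint : ∀ x : ℕ, ∃ z : ℤ, (z : ℚ) = f (x : ZMod m) := by
    intro x
    by_cases hx : q ∣ x
    · exact ⟨0, by rw [hf.supp hqm x hx]; simp⟩
    · have := elim_all hm hq hqm (PO q m) hPp (fun n : ℕ => f (n : ZMod m)) hf.dist
        (Int.castAddHom ℚ).range (fun x hx hT => ⟨v (x % m), (hval x hx hT).symm⟩) x hx
      obtain ⟨z, hz⟩ := this
      exact ⟨z, hz⟩
  choose C hC using hint
  have hinj : Function.Injective (fun z : ℤ => (z : ℚ)) := Int.cast_injective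
  refine ⟨C, ⟨?_, ?_, ?_⟩, ?_⟩
  · intro x y hxy
    apply hinj
    simp only [hC]
    exact hf.per x y hxy
  · intro h n hn
    apply hinj
    simp only [hC]
    rw [hf.supp h n hn]; simp
  · intro r hr n
    apply hinj
    simp only [Int.cast_sum, hC]
    exact hf.dist r hr n
  · intro x hx hT
    apply hinj
    simp only [hC]
    exact hval x hx hT

end

/-- even or odd parts -/
def WS (q m : ℕ) (P : Finset ℕ) (ε : ℚ) : Submodule ℚ (ZMod m → ℚ) :=
  WW q m P ⊓
    { carrier := {f | ∀ a, f (-a) = ε * f a}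
      add_mem' := by
        intro f g hf hg a
        simp only [Pi.add_apply]
        rw [hf a, hg a]; ring
      zero_mem' := by intro a; simp
      smul_mem' := by
        intro c f hf a
        simp only [Pi.smul_apply, smul_eq_mul]
        rw [hf a]; ring }

/-- the generating set with a sign condition -/
def BS (q m : ℕ) [NeZero m] (P : Finset ℕ) : Finset (ZMod m) :=
  univ.filter (fun a => (¬ q ∣ a.val ∧ ∀ r ∈ P, TT r m a.val) ∧ PS q m a.val)

lemma PS_mod {q x : ℕ} (m : ℕ) : PS q m (x % m) ↔ PS q m x := by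
  unfold PS
  rw [Nat.mod_mod_of_dvd _ (Nat.ordProj_dvd m q)]

lemma card_BS {q m : ℕ} [NeZero m] (hq : q.Prime) (hqm : q ∣ m) :
    2 * (BS q m (PO q m)).card ≤ Nat.totient m := by
  have hm : m ≠ 0 := NeZero.ne m
  have hqmem : q ∈ m.primeFactors := Nat.mem_primeFactors.mpr ⟨hq, hqm, hm⟩
  have hqP : q ∉ PO q m := fun h => (PO_prime h).2.2 rfl
  obtain ⟨f, hf⟩ := fac_succ hqmem
  set J := ((range (q ^ (f + 1))).filter (fun s => ¬ q ∣ s ∧ 2 * s < q ^ (f + 1))).card with hJ
  have hJ2 : 2 * J ≤ q ^ f * (q - 1) := by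
    rw [← Nat.totient_prime_pow_succ hq]
    exact card_J hq (by omega)
  rw [← cc_full (q := q) hm]
  unfold cc
  rw [← Finset.mul_prod_erase _ _ hqmem]
  have h1 : cl q m (PO q m) q = q ^ f * (q - 1) := by
    unfold cl
    rw [if_pos (Or.inl rfl), hf, Nat.add_sub_cancel]
  rw [h1]
  set A := ∏ s ∈ m.primeFactors.erase q, cl q m (PO q m) s with hA
  have h2 : (BS q m (PO q m)).card ≤ J * A := by
    let b : ℕ → ℕ := fun s => if s = q then J else cl q m (PO q m) s
    let R : ℕ → ℕ → Prop := fun s x => RR q m (PO q m) s x ∧ (s = q → 2 * x < q ^ (f + 1))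
    have h4 : (BS q m (PO q m)).card ≤ ∏ s ∈ m.primeFactors, b s := by
      apply card_zmod_le (BS q m (PO q m)) R
      · intro a ha s _
        simp only [BS, mem_filter, mem_univ, true_and] at ha
        refine ⟨RR_of hqm hq ha.1.1 ha.1.2 s, ?_⟩
        rintro rfl
        have := ha.2
        unfold PS at this
        rw [hf] at this ⊢
        exact this
      · intro s hs
        by_cases hsq : s = q
        · subst hsq
          simp only [b, if_true, R]
          rw [hJ, hf]
          apply Finset.card_le_card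
          intro x hx
          simp only [mem_filter, mem_range] at hx ⊢
          exact ⟨hx.1, hx.2.1.1 rfl, hx.2.2 trivial⟩
        · simp only [b, if_neg hsq, R]
          refine le_trans (Finset.card_le_card ?_) (card_RR hq hqP hs)
          intro x hx
          simp only [mem_filter] at hx ⊢
          exact ⟨hx.1, hx.2.1⟩
    rw [← Finset.mul_prod_erase _ _ hqmem] at h4
    have h5 : ∏ s ∈ m.primeFactors.erase q, b s = A := by
      rw [hA]
      refine Finset.prod_congr rfl fun s hs => ?_
      simp only [b, if_neg (Finset.mem_erase.mp hs).1]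
    rw [h5] at h4
    simpa [b] using h4
  calc 2 * (BS q m (PO q m)).card ≤ 2 * (J * A) := Nat.mul_le_mul_left _ h2
    _ = (2 * J) * A := by ring
    _ ≤ q ^ f * (q - 1) * A := Nat.mul_le_mul_right _ hJ2

lemma WS_vanish {q m : ℕ} [NeZero m] (hq : q.Prime) (hqm : q ∣ m) (hq2 : 2 < q ^ (m.factorization q)) {P : Finset ℕ}
    (hP : ∀ r ∈ P, r.Prime ∧ r ∣ m ∧ r ≠ q) {ε : ℚ}
    {f : ZMod m → ℚ} (hf : f ∈ WS q m P ε) (hB : ∀ b ∈ BS q m P, f b = 0) : f = 0 := by
  have hm : m ≠ 0 := NeZero.ne m
  obtain ⟨hf1, hf2⟩ := hf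
  rw [SetLike.mem_coe, mem_WW] at hf1
  have hf2' : ∀ a, f (-a) = ε * f a := hf2
  funext a
  by_cases ha : q ∣ a.val
  · have := hf1.supp hqm a.val ha
    simp only [ZMod.natCast_zmod_val] at this
    exact this
  · have h1 := elim_sign hm hq hq2 hqm P hP (fun n : ℕ => f (n : ZMod m)) hf1.dist ⊥
      (fun x y hxy hy => by
        rw [AddSubgroup.mem_bot] at hy ⊢
        have h2 : (x : ZMod m) = -(y : ZMod m) := by
          have := (ZMod.natCast_eq_zero_iff (x + y) m).mpr hxy
          push_cast at this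
          exact eq_neg_of_add_eq_zero_left this
        rw [h2, hf2', hy, mul_zero])
      (fun x hx hPS hT => by
        rw [AddSubgroup.mem_bot]
        apply hB
        simp only [BS, mem_filter, mem_univ, true_and]
        rw [ZMod.val_natCast]
        refine ⟨⟨?_, ?_⟩, ?_⟩
        · intro h; exact hx ((Nat.dvd_mod_iff hqm).mp h)
        · intro r hr
          rw [TT_mod]
          exact hT r hr
        · rw [PS_mod]; exact hPS) a.val ha
    rw [AddSubgroup.mem_bot, ZMod.natCast_zmod_val] at h1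
    exact h1

lemma finrank_WS {q m : ℕ} [NeZero m] (hq : q.Prime) (hqm : q ∣ m) (hq2 : 2 < q ^ (m.factorization q)) :
    (BS q m (PO q m)).card ≤ Module.finrank ℚ (WS q m (PO q m) (-1)) := by
  have hm : m ≠ 0 := NeZero.ne m
  have hPp : ∀ r ∈ PO q m, r.Prime ∧ r ∣ m ∧ r ≠ q := fun r hr => PO_prime hr
  have h1 := dim_ge hq hqm _ (Finset.Subset.refl (PO q m))
  rw [cc_full hm] at h1
  have h2 := card_BS hq hqm
  have h3 : Module.finrank ℚ (WS q m (PO q m) 1) ≤ (BS q m (PO q m)).card :=
    finrank_le_of_vanish _ _ fun f hf hB => WS_vanish hq hqm hq2 hPp hf hB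
  have hm1 : Nat.Coprime (m - 1) m := by
    have hm1 : 1 ≤ m := Nat.one_le_iff_ne_zero.mpr hm
    have h1 := Nat.coprime_self_sub_right (m := 1) (n := m) hm1
    rw [Nat.coprime_comm]
    exact h1.mpr (Nat.coprime_one_right m)
  have hnegcast : ∀ n : ℕ, (((m - 1) * n : ℕ) : ZMod m) = -(n : ZMod m) := by
    intro n
    have hm1 : 1 ≤ m := Nat.one_le_iff_ne_zero.mpr hm
    push_cast [hm1]
    simp
  have hneg : ∀ f ∈ WW q m (PO q m), (fun a => f (-a)) ∈ WW q m (PO q m) := by
    intro f hf
    rw [mem_WW] at hf ⊢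
    have := hf.mul (fun r hr => ⟨(hPp r hr).1, (hPp r hr).2.1⟩) hm1
    simp only [hnegcast] at this
    exact this
  let ψ : WW q m (PO q m) →ₗ[ℚ] (WS q m (PO q m) 1 × WS q m (PO q m) (-1)) :=
    { toFun := fun f =>
        (⟨fun a => f.1 a + f.1 (-a), Submodule.add_mem _ f.2 (hneg f.1 f.2), fun a => by
            simp only [neg_neg]; ring⟩,
          ⟨fun a => f.1 a - f.1 (-a), Submodule.sub_mem _ f.2 (hneg f.1 f.2), fun a => by
            simp only [neg_neg]; ring⟩)
      map_add' := fun f g => by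
        refine Prod.ext (Subtype.ext (funext fun a => ?_)) (Subtype.ext (funext fun a => ?_))
        · simp only [Prod.fst_add, Submodule.coe_add, Pi.add_apply]; ring
        · simp only [Prod.snd_add, Submodule.coe_add, Pi.add_apply]; ring
      map_smul' := fun c f => by
        refine Prod.ext (Subtype.ext (funext fun a => ?_)) (Subtype.ext (funext fun a => ?_))
        · simp only [Prod.smul_fst, Submodule.coe_smul, Pi.smul_apply, smul_eq_mul,
            RingHom.id_apply]; ring
        · simp only [Prod.smul_snd, Submodule.coe_smul, Pi.smul_apply, smul_eq_mul,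
            RingHom.id_apply]; ring }
  have hψ : Function.Injective ψ := by
    rw [injective_iff_map_eq_zero]
    intro f hf
    apply Subtype.ext
    funext a
    have e1 : f.1 a + f.1 (-a) = 0 := congrFun (congrArg (fun z => z.1.1) hf) a
    have e2 : f.1 a - f.1 (-a) = 0 := congrFun (congrArg (fun z => z.2.1) hf) a
    have : (2 : ℚ) * f.1 a = 0 := by linear_combination e1 + e2
    simpa using this
  have h4 := LinearMap.finrank_le_finrank_of_injective hψ
  rw [Module.finrank_prod] at h4
  omega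

/-- Odd distributions with prescribed values. -/
theorem exists_td_odd {q m : ℕ} (hq : q.Prime) (hqm : q ∣ m) (hq2 : 2 < q ^ (m.factorization q)) (hm : m ≠ 0)
    (v : ℕ → ℤ) : ∃ C : ℕ → ℤ, TD q m (PO q m) C ∧ (∀ x y, m ∣ x + y → C y = - C x) ∧
    ∀ x, ¬ q ∣ x → PS q m x → (∀ r ∈ PO q m, TT r m x) → C x = v (x % m) := by
  have : NeZero m := ⟨hm⟩
  have hPp : ∀ r ∈ PO q m, r.Prime ∧ r ∣ m ∧ r ≠ q := fun r hr => PO_prime hr
  obtain ⟨f, hfS, hfv⟩ := exists_ext_of_card (WS q m (PO q m) (-1)) (BS q m (PO q m))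
    (fun f hf h => WS_vanish hq hqm hq2 hPp hf h) (finrank_WS hq hqm hq2)
    (fun a => (v a.val : ℚ))
  obtain ⟨hf, hfo⟩ := hfS
  rw [SetLike.mem_coe, mem_WW] at hf
  have hfo' : ∀ a, f (-a) = (-1) * f a := hfo
  have hodd : ∀ x y : ℕ, m ∣ x + y → f (y : ZMod m) = - f (x : ZMod m) := by
    intro x y hxy
    have h2 : (y : ZMod m) = -(x : ZMod m) := by
      have := (ZMod.natCast_eq_zero_iff (x + y) m).mpr hxy
      push_cast at this
      exact (neg_eq_of_add_eq_zero_right this).symm
    rw [h2, hfo']; ring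
  have hval : ∀ x : ℕ, ¬ q ∣ x → PS q m x → (∀ r ∈ PO q m, TT r m x) →
      f (x : ZMod m) = (v (x % m) : ℚ) := by
    intro x hx hPS hT
    rw [hfv (x : ZMod m), ZMod.val_natCast]
    simp only [BS, mem_filter, mem_univ, true_and]
    rw [ZMod.val_natCast]
    refine ⟨⟨?_, ?_⟩, ?_⟩
    · intro h; exact hx ((Nat.dvd_mod_iff hqm).mp h)
    · intro r hr
      rw [TT_mod]
      exact hT r hr
    · rw [PS_mod]; exact hPS
  have hint : ∀ x : ℕ, ∃ z : ℤ, (z : ℚ) = f (x : ZMod m) := by
    intro x
    by_cases hx : q ∣ x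
    · exact ⟨0, by rw [hf.supp hqm x hx]; simp⟩
    · have := elim_sign hm hq hq2 hqm (PO q m) hPp (fun n : ℕ => f (n : ZMod m)) hf.dist
        (Int.castAddHom ℚ).range (fun x y hxy hy => by
          have h1 := hodd y x (by rw [add_comm]; exact hxy)
          rw [h1]
          exact AddSubgroup.neg_mem _ hy)
        (fun x hx hPS hT => ⟨v (x % m), (hval x hx hPS hT).symm⟩) x hx
      obtain ⟨z, hz⟩ := this
      exact ⟨z, hz⟩
  choose C hC using hint
  have hinj : Function.Injective (fun z : ℤ => (z : ℚ)) := Int.cast_injective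
  refine ⟨C, ⟨?_, ?_, ?_⟩, ?_, ?_⟩
  · intro x y hxy
    apply hinj
    simp only [hC]
    exact hf.per x y hxy
  · intro h n hn
    apply hinj
    simp only [hC]
    rw [hf.supp h n hn]; simp
  · intro r hr n
    apply hinj
    simp only [Int.cast_sum, hC]
    exact hf.dist r hr n
  · intro x y hxy
    apply hinj
    simp only [Int.cast_neg, hC]
    exact hodd x y hxy
  · intro x hx hPS hT
    apply hinj
    simp only [hC]
    exact hval x hx hPS hT

end Pool.Agent.Y2
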