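import Pool.Agent.Y2.Peel
import Pool.Agent.H916R2.Families

/-!
Hodge characters with `N` entries come, up to standard characters, from the universal degree.
-/

namespace Pool.Agent.Y2

open Finset Pool.Agent.H916R2

lemma gen_sum_zero {m : ℕ} {base : Multiset (ZMod m) → Prop} {Q : Type} [AddCommGroup Q]
    {c : ZMod m → Q} (hc : OddDist c) (hb : ∀ t, base t → (t.map c).sum = 0)
    {s : Multiset (ZMod m)} (hs : Generated m base s) : (s.map c).sum = 0 := by
  induction hs with
  | ofBase s h => exact hb s h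
  | pair a ha =>
    simp only [Multiset.insert_eq_cons, Multiset.map_cons, Multiset.map_singleton,
      Multiset.sum_cons, Multiset.sum_singleton]
    rw [hc.neg, add_neg_cancel]
  | standard p hp hp2 hpm a ha =>
    rw [Multiset.map_cons, Multiset.sum_cons, hc.neg, Multiset.map_map]
    have h1 := hc.dist p (m / p) hp (Nat.mul_div_cancel' hpm) a
    rw [← h1]
    exact neg_add_cancel _
  | standardTwo hm a ha =>
    have h1 := hc.dist 2 (m / 2) Nat.prime_two (Nat.mul_div_cancel' hm) a
    have h2 : c ((m / 2 : ℕ) : ZMod m) = 0 := by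
      apply hc.half
      have : ((2 * (m / 2) : ℕ) : ZMod m) = 0 := by rw [Nat.mul_div_cancel' hm]; simp
      push_cast at this
      linear_combination this
    rw [sum_range_succ, sum_range_one] at h1
    simp only [Nat.cast_zero, zero_mul, add_zero, Nat.cast_one, one_mul] at h1
    simp only [Multiset.insert_eq_cons, Multiset.map_cons, Multiset.map_singleton,
      Multiset.sum_cons, Multiset.sum_singleton]
    rw [h2, hc.neg, add_zero, ← add_assoc, h1]
    push_cast
    exact add_neg_cancel _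
  | join s t _ _ ihs iht =>
    rw [Multiset.map_add, Multiset.sum_add, ihs, iht, add_zero]
  | cancel a s _ ih =>
    simp only [Multiset.map_cons, Multiset.sum_cons] at ih
    rw [hc.neg] at ih
    simpa using ih

/-- the core: a Hodge character is equivalent to one of bounded level -/
theorem core {m : ℕ} (hm : m ≠ 0) (s : Multiset (ZMod m)) (hs : IsHodge m s) (T : ℕ → Prop)
    (hT : Splits T m (s.map ZMod.val)) :
    ∃ l m0 : ℕ, l * m0 = m ∧ T m0 ∧ ∃ t0 : Multiset (ZMod m0), IsHodge m0 t0 ∧
      Multiset.card t0 ≤ Multiset.card s ∧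
      ∀ (Q : Type) [AddCommGroup Q] (c : ZMod m → Q), OddDist c →
        (s.map c).sum = (t0.map fun b => c (iota l b)).sum := by
  have hNm : NeZero m := ⟨hm⟩
  obtain ⟨l, m0, hlm, hTm, A0, A1, hA, hA0, hA1⟩ := hT
  have hm0 : m0 ≠ 0 := by rintro rfl; rw [mul_zero] at hlm; exact hm hlm.symm
  have hNm0 : NeZero m0 := ⟨hm0⟩
  refine ⟨l, m0, hlm, hTm, ?_⟩
  set s0 : Multiset (ZMod m0) := A0.map fun a : ℕ => (a : ZMod m0) with hs0
  have hsum : ∀ (Q : Type) [AddCommGroup Q] (c : ZMod m → Q), OddDist c →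
      (s.map c).sum = (s0.map fun b => c (iota l b)).sum := by
    intro Q _ c hc
    have h1 : (s.map c).sum = ((s.map ZMod.val).map fun a : ℕ => c (a : ZMod m)).sum := by
      rw [Multiset.map_map]
      congr 1
      apply Multiset.map_congr rfl
      intro a _
      simp only [Function.comp_apply, ZMod.natCast_zmod_val]
    rw [h1, hA, Multiset.map_add, Multiset.sum_add, hA1 Q c hc, add_zero, hs0, Multiset.map_map,
      Multiset.map_map]
    congr 1
    apply Multiset.map_congr rfl
    intro a _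
    simp only [Function.comp_apply]
    rw [iota_natCast hlm]
  have h00 : (0 : ZMod m0) ∉ s0 := by
    intro h
    rw [hs0] at h
    obtain ⟨a, ha, ha0⟩ := Multiset.mem_map.mp h
    have h1 : l * a ∈ s.map ZMod.val := by
      rw [hA]
      exact Multiset.mem_add.mpr (Or.inl (Multiset.mem_map_of_mem _ ha))
    obtain ⟨b, hb, hb'⟩ := Multiset.mem_map.mp h1
    have h2 : b = 0 := by
      rw [← ZMod.natCast_zmod_val b, hb', ZMod.natCast_eq_zero_iff, ← hlm]
      exact Nat.mul_dvd_mul_left l ((ZMod.natCast_eq_zero_iff _ _).mp ha0)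
    exact hs.1 (h2 ▸ hb)
  have hsaw : ∀ t : (ZMod m0)ˣ, (s0.map fun a => saw ((t : ZMod m0) * a)).sum = 0 := by
    intro t
    rw [← hA0 (t : ZMod m0).val (ZMod.val_coe_unit_coprime t)]
    unfold SW
    rw [hs0, Multiset.map_map]
    congr 1
    apply Multiset.map_congr rfl
    intro a _
    simp only [Function.comp_apply]
    congr 1
    push_cast
    rw [ZMod.natCast_zmod_val]
  have hcard : Multiset.card s = Multiset.card s0 + Multiset.card A1 := by
    rw [← Multiset.card_map ZMod.val s, hA, Multiset.card_add, Multiset.card_map, hs0,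
      Multiset.card_map]
  by_cases heven : Even (Multiset.card s0)
  · exact ⟨s0, isHodge_of_saw h00 heven hsaw, by omega, hsum⟩
  · rw [Nat.not_even_iff_odd] at heven
    have h1 := saw_sum_eq s0 h00 1
    rw [hsaw 1] at h1
    have hm2 : 2 ∣ m0 := by
      obtain ⟨k, hk⟩ := heven
      have h2 : (m0 : ℤ) * (2 * k + 1) =
          2 * (((s0.map fun a => (((1 : (ZMod m0)ˣ) : ZMod m0) * a).val).sum : ℕ) : ℤ) := by
        rw [hk] at h1
        push_cast at h1
        push_cast
        linarith
      have h3 : (2 : ℤ) ∣ (m0 : ℤ) * (2 * k + 1) := ⟨_, h2⟩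
      have h4 : (2 : ℤ) ∣ (m0 : ℤ) := by
        rcases Int.Prime.dvd_mul' Nat.prime_two h3 with h | h
        · exact_mod_cast h
        · exfalso; omega
      exact_mod_cast h4
    set h : ZMod m0 := ((m0 / 2 : ℕ) : ZMod m0) with hh
    have hhh : h + h = 0 := by
      have : ((2 * (m0 / 2) : ℕ) : ZMod m0) = 0 := by rw [Nat.mul_div_cancel' hm2]; simp
      rw [hh, ← two_mul]; push_cast at this; exact this
    have hh0 : h ≠ 0 := by
      intro h'
      rw [hh, ZMod.natCast_eq_zero_iff] at h'
      have hmp := NeZero.pos m0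
      have h5 : 0 < m0 / 2 := Nat.div_pos (Nat.le_of_dvd hmp hm2) (by norm_num)
      have := Nat.le_of_dvd h5 h'
      omega
    refine ⟨h ::ₘ s0, isHodge_of_saw ?_ ?_ ?_, ?_, ?_⟩
    · rw [Multiset.mem_cons, not_or]; exact ⟨Ne.symm hh0, h00⟩
    · rw [Multiset.card_cons]; exact heven.add_one
    · intro t
      rw [Multiset.map_cons, Multiset.sum_cons, hsaw t, add_zero]
      apply saw_half
      rw [← mul_add, hhh, mul_zero]
    · rw [Multiset.card_cons]
      have h2 := hs.2.1
      rcases Nat.eq_zero_or_pos (Multiset.card A1) with h3 | h3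
      · rw [hcard, h3, add_zero] at h2
        exact absurd h2 (Nat.not_even_iff_odd.mpr heven)
      · omega
    · intro Q _ c hc
      rw [Multiset.map_cons, Multiset.sum_cons, hsum Q c hc, hc.half, zero_add]
      rw [← iota_add hlm, hhh, iota_zero]

lemma isHodge_add {m : ℕ} [NeZero m] {s t : Multiset (ZMod m)} (hs : IsHodge m s)
    (ht : IsHodge m t) : IsHodge m (s + t) := by
  apply isHodge_of_saw
  · rw [Multiset.mem_add, not_or]; exact ⟨hs.1, ht.1⟩
  · rw [Multiset.card_add]; exact hs.2.1.add ht.2.1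
  · intro u
    rw [Multiset.map_add, Multiset.sum_add, hs.saw_sum, ht.saw_sum, add_zero]

lemma isHodge_pair {m : ℕ} [NeZero m] {a : ZMod m} (ha : a ≠ 0) : IsHodge m {a, -a} := by
  apply isHodge_of_saw
  · simp only [Multiset.insert_eq_cons, Multiset.mem_cons, Multiset.mem_singleton, not_or]
    exact ⟨Ne.symm ha, Ne.symm (neg_ne_zero.mpr ha)⟩
  · simp
  · intro t
    simp [saw_neg]

/-- padding with pairs -/
lemma pad {m : ℕ} [NeZero m] {a : ZMod m} (ha : a ≠ 0) : ∀ j : ℕ, ∀ s : Multiset (ZMod m),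
    IsHodge m s → ∃ t : Multiset (ZMod m), IsHodge m t ∧
      Multiset.card t = Multiset.card s + 2 * j ∧
      ∀ (Q : Type) [AddCommGroup Q] (c : ZMod m → Q), OddDist c →
        (s.map c).sum = (t.map c).sum := by
  intro j
  induction j with
  | zero => intro s hs; exact ⟨s, hs, by simp, fun _ _ _ _ => rfl⟩
  | succ j ih =>
    intro s hs
    obtain ⟨t, ht, hc, hsum⟩ := ih s hs
    refine ⟨t + {a, -a}, isHodge_add ht (isHodge_pair ha), ?_, ?_⟩
    · rw [Multiset.card_add, hc]; simp; ring
    · intro Q _ c hc'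
      rw [hsum Q c hc', Multiset.map_add, Multiset.sum_add]
      simp [hc'.neg]

lemma saw_rel {m : ℕ} (s : Multiset (ZMod m)) [NeZero m] (hs : IsHodge m s) (t : ℕ)
    (ht : Nat.Coprime t m) : SW m (s.map ZMod.val) t = 0 := by
  have h1 := hs.saw_sum (ZMod.unitOfCoprime t ht)
  rw [← h1]
  unfold SW
  rw [Multiset.map_map]
  congr 1
  apply Multiset.map_congr rfl
  intro a _
  simp only [Function.comp_apply, ZMod.coe_unitOfCoprime]
  congr 1
  push_cast
  rw [ZMod.natCast_zmod_val]

/-- A Hodge character with `N` entries is equivalent to one of degree `gcd (m, D)`. -/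
theorem reduce {m : ℕ} (hm : 0 < m) (s : Multiset (ZMod m)) (hs : IsHodge m s) :
    ∃ t : Multiset (ZMod (Nat.gcd m (DD (Multiset.card s)))),
      IsHodge (Nat.gcd m (DD (Multiset.card s))) t ∧
      (t = 0 ∨ Multiset.card t = Multiset.card s) ∧
      ∀ (Q : Type) [AddCommGroup Q] (c : ZMod m → Q), OddDist c →
        (s.map c).sum =
          (t.map fun b => c (iota (m / Nat.gcd m (DD (Multiset.card s))) b)).sum := by
  have hm0 : m ≠ 0 := hm.ne'
  have hNm : NeZero m := ⟨hm0⟩
  set N := Multiset.card s with hN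
  have hsp := finite_level N m hm0 (s.map ZMod.val) (by rw [Multiset.card_map]) (saw_rel s hs)
  obtain ⟨l, m0, hlm, hTm, t0, ht0, hcard, hsum⟩ := core hm0 s hs _ hsp
  have hm00 : m0 ≠ 0 := by rintro rfl; rw [mul_zero] at hlm; exact hm0 hlm.symm
  have hNm0 : NeZero m0 := ⟨hm00⟩
  set d := Nat.gcd m (DD N) with hd
  have hd0 : 0 < d := Nat.gcd_pos_of_pos_left _ hm
  have hNd : NeZero d := ⟨hd0.ne'⟩
  have hdm : d ∣ m := Nat.gcd_dvd_left _ _
  have hm0d : m0 ∣ d := Nat.dvd_gcd (Dvd.intro_left l hlm) hTm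
  have e1 : d / m0 * m0 = d := Nat.div_mul_cancel hm0d
  have e2 : m / d * d = m := Nat.div_mul_cancel hdm
  have e3 : m / d * (d / m0) = l := by
    have h1 : (m / d * (d / m0)) * m0 = l * m0 := by rw [mul_assoc, e1, e2, hlm]
    exact Nat.eq_of_mul_eq_mul_right (Nat.pos_of_ne_zero hm00) h1
  set t1 : Multiset (ZMod d) := t0.map (iota (d / m0)) with ht1
  have ht1H : IsHodge d t1 := ht0.iota e1
  have hsum1 : ∀ (Q : Type) [AddCommGroup Q] (c : ZMod m → Q), OddDist c →
      (s.map c).sum = (t1.map fun b => c (iota (m / d) b)).sum := by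
    intro Q _ c hc
    rw [hsum Q c hc, ht1, Multiset.map_map]
    congr 1
    apply Multiset.map_congr rfl
    intro b _
    simp only [Function.comp_apply]
    rw [iota_comp e2, e3]
  by_cases h0 : t1 = 0
  · exact ⟨t1, ht1H, Or.inl h0, hsum1⟩
  · obtain ⟨b, hb⟩ := Multiset.exists_mem_of_ne_zero h0
    have hb0 : b ≠ 0 := fun h => ht1H.1 (h ▸ hb)
    have hc1 : Multiset.card t1 ≤ N := by rw [ht1, Multiset.card_map]; exact hcard
    obtain ⟨t, ht, hct, hst⟩ := pad hb0 ((N - Multiset.card t1) / 2) t1 ht1H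
    refine ⟨t, ht, Or.inr ?_, ?_⟩
    · rw [hct]
      obtain ⟨x, hx⟩ := ht1H.2.1
      obtain ⟨y, hy⟩ := hs.2.1
      omega
    · intro Q _ c hc
      rw [hsum1 Q c hc]
      exact hst Q (fun b => c (iota (m / d) b)) (hc.comp_iota e2)

/-- the base: characters of the universal degree -/
def Base (m N : ℕ) (t : Multiset (ZMod m)) : Prop :=
  FromLevel m (Nat.gcd m (DD N)) t ∧ Multiset.card t = N

theorem main_base {m : ℕ} (hm : 0 < m) (s : Multiset (ZMod m)) (hs : IsHodge m s) (hne : s ≠ 0) :
    Generated m (Base m (Multiset.card s)) s := by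
  have hNm : NeZero m := ⟨hm.ne'⟩
  set N := Multiset.card s with hN
  set d := Nat.gcd m (DD N) with hd
  have hd0 : 0 < d := Nat.gcd_pos_of_pos_left _ hm
  have hNd : NeZero d := ⟨hd0.ne'⟩
  have e2 : m / d * d = m := Nat.div_mul_cancel (Nat.gcd_dvd_left _ _)
  have hb : ∀ t, Base m N t → (0 : ZMod m) ∉ t ∧ Even (Multiset.card t) := by
    rintro t ⟨⟨t0, ht0, rfl⟩, _⟩
    have h1 := ht0.iota (m := m) e2
    exact ⟨h1.1, h1.2.1⟩
  have hbn : ∀ t, Base m N t → Base m N (t.map Neg.neg) := by
    rintro t ⟨⟨t0, ht0, rfl⟩, hc⟩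
    refine ⟨⟨t0.map Neg.neg, ht0.neg, ?_⟩, by rw [Multiset.card_map]; exact hc⟩
    rw [Multiset.map_map, Multiset.map_map]
    apply Multiset.map_congr rfl
    intro b _
    simp only [Function.comp_apply]
    exact (iota_neg e2 b).symm
  obtain ⟨t, ht, htc, hsum⟩ := reduce hm s hs
  have h1 := hsum _ (cQ m (Base m N)) cQ_oddDist
  have h2 : (s.map (cQ m (Base m N))).sum = 0 := by
    rw [h1]
    rcases htc with h0 | hc
    · rw [h0]; simp
    · have h3 := cQ_sum_eq_zero (Generated.ofBase (m := m) (base := Base m N)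
        (t.map (iota (m / d))) ⟨⟨t, ht, rfl⟩, by rw [Multiset.card_map]; exact hc⟩)
      rw [Multiset.map_map] at h3
      exact h3
  rw [cQ_sum, QuotientAddGroup.eq_zero_iff] at h2
  exact generated_of_mem_LL hb hbn hs.1 hs.2.1 hne h2

theorem main_surface {m : ℕ} (hm : 0 < m) (s : Multiset (ZMod m)) (hs : IsHodge m s)
    (hne : s ≠ 0) (hgood : GoodDegree (Nat.gcd m (DD (Multiset.card s)))) :
    Generated m (SurfaceCharacter m) s := by
  have hNm : NeZero m := ⟨hm.ne'⟩
  set N := Multiset.card s with hN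
  set d := Nat.gcd m (DD N) with hd
  have hd0 : 0 < d := Nat.gcd_pos_of_pos_left _ hm
  have hNd : NeZero d := ⟨hd0.ne'⟩
  have e2 : m / d * d = m := Nat.div_mul_cancel (Nat.gcd_dvd_left _ _)
  have hb : ∀ s, SurfaceCharacter m s → (0 : ZMod m) ∉ s ∧ Even (Multiset.card s) :=
    fun s h => ⟨h.1.1, h.1.2.1⟩
  have hbn : ∀ s, SurfaceCharacter m s → SurfaceCharacter m (s.map Neg.neg) := by
    rintro s ⟨h1, h2⟩
    exact ⟨h1.neg, by rw [Multiset.card_map]; exact h2⟩
  obtain ⟨t, ht, _, hsum⟩ := reduce hm s hs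
  have h1 := hsum _ (cQ m (SurfaceCharacter m)) cQ_oddDist
  have h2 : (s.map (cQ m (SurfaceCharacter m))).sum = 0 := by
    rw [h1]
    by_cases h0 : t = 0
    · rw [h0]; simp
    · have hgen := Families.main d hd0 hgood t ht h0
      refine gen_sum_zero (cQ_oddDist.comp_iota e2) ?_ hgen
      rintro u ⟨hu, hcu⟩
      have h3 := cQ_sum_eq_zero (Generated.ofBase (m := m) (base := SurfaceCharacter m)
        (u.map (iota (m / d))) ⟨hu.iota e2, by rw [Multiset.card_map]; exact hcu⟩)
      rw [Multiset.map_map] at h3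
      exact h3
  rw [cQ_sum, QuotientAddGroup.eq_zero_iff] at h2
  exact generated_of_mem_LL hb hbn hs.1 hs.2.1 hne h2

lemma generated_mono {m : ℕ} {base base' : Multiset (ZMod m) → Prop}
    (h : ∀ t, base t → base' t) {s : Multiset (ZMod m)} (hs : Generated m base s) :
    Generated m base' s := by
  induction hs with
  | ofBase s hb => exact Generated.ofBase s (h s hb)
  | pair a ha => exact Generated.pair a ha
  | standard p hp hp2 hpm a ha => exact Generated.standard p hp hp2 hpm a ha
  | standardTwo hm a ha => exact Generated.standardTwo hm a ha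
  | join s t _ _ ihs iht => exact Generated.join s t ihs iht
  | cancel a s _ ih => exact Generated.cancel a s ih

theorem main_all {m : ℕ} (hm : 0 < m) (s : Multiset (ZMod m)) (hs : IsHodge m s) (hne : s ≠ 0) :
    Generated m (fun t => SurfaceCharacter m t ∨
      (¬ GoodDegree (Nat.gcd m (DD (Multiset.card s))) ∧
        FromLevel m (Nat.gcd m (DD (Multiset.card s))) t ∧
        Multiset.card t = Multiset.card s)) s := by
  by_cases hg : GoodDegree (Nat.gcd m (DD (Multiset.card s)))
  · exact generated_mono (fun t ht => Or.inl ht) (main_surface hm s hs hne hg)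
  · exact generated_mono (fun t ht => Or.inr ⟨hg, ht⟩) (main_base hm s hs hne)

end Pool.Agent.Y2
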