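import Pool.Agent.Y2.TD

/-!
Dimension of the space of distributions away from `q`, by adding one prime at a time.
-/

namespace Pool.Agent.Y2

open Finset Pool.Agent.H916R2

section linear

variable {α : Type*} [Fintype α]

lemma finrank_le_of_vanish (V : Submodule ℚ (α → ℚ)) (B : Finset α)
    (h : ∀ f ∈ V, (∀ b ∈ B, f b = 0) → f = 0) : Module.finrank ℚ V ≤ B.card := by
  let ρ : V →ₗ[ℚ] (B → ℚ) := (LinearMap.funLeft ℚ ℚ (fun b : B => b.1)).comp V.subtype
  have hρ : Function.Injective ρ := by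
    rw [injective_iff_map_eq_zero]
    intro f hf
    apply Subtype.ext
    apply h f.1 f.2
    intro b hb
    exact congrFun hf ⟨b, hb⟩
  have := LinearMap.finrank_le_finrank_of_injective hρ
  rwa [Module.finrank_fintype_fun_eq_card, Fintype.card_coe] at this

lemma exists_ext_of_card (V : Submodule ℚ (α → ℚ)) (B : Finset α)
    (h : ∀ f ∈ V, (∀ b ∈ B, f b = 0) → f = 0) (hc : B.card ≤ Module.finrank ℚ V) (v : α → ℚ) :
    ∃ f ∈ V, ∀ b ∈ B, f b = v b := by
  let ρ : V →ₗ[ℚ] (B → ℚ) := (LinearMap.funLeft ℚ ℚ (fun b : B => b.1)).comp V.subtype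
  have hρ : Function.Injective ρ := by
    rw [injective_iff_map_eq_zero]
    intro f hf
    apply Subtype.ext
    apply h f.1 f.2
    intro b hb
    exact congrFun hf ⟨b, hb⟩
  have h1 : Module.finrank ℚ V = Module.finrank ℚ (B → ℚ) := by
    rw [Module.finrank_fintype_fun_eq_card, Fintype.card_coe]
    exact le_antisymm (finrank_le_of_vanish V B h) hc
  have hs := (LinearMap.injective_iff_surjective_of_finrank_eq_finrank h1).mp hρ
  obtain ⟨f, hf⟩ := hs (fun b => v b.1)
  exact ⟨f.1, f.2, fun b hb => congrFun hf ⟨b, hb⟩⟩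

end linear

variable {m : ℕ}

/-- the space of rational distributions -/
def WW (q m : ℕ) (P : Finset ℕ) : Submodule ℚ (ZMod m → ℚ) where
  carrier := {f | TD q m P (fun n : ℕ => f (n : ZMod m))}
  add_mem' := fun hf hg => hf.add hg
  zero_mem' := TD.zero
  smul_mem' := fun c _ hf => hf.map (AddMonoidHom.mulLeft c)

lemma mem_WW {q : ℕ} {P : Finset ℕ} {f : ZMod m → ℚ} :
    f ∈ WW q m P ↔ TD q m P (fun n : ℕ => f (n : ZMod m)) := Iff.rfl

/-- the defect of the distribution relation at `r` -/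
def EE (m r : ℕ) : (ZMod m → ℚ) →ₗ[ℚ] (ZMod m → ℚ) where
  toFun f := fun a => ∑ i ∈ range r, f (a + ((i * (m / r) : ℕ) : ZMod m)) - f ((r : ZMod m) * a)
  map_add' f g := by
    funext a
    simp only [Pi.add_apply, sum_add_distrib]
    ring
  map_smul' c f := by
    funext a
    simp only [Pi.smul_apply, smul_eq_mul, RingHom.id_apply, ← mul_sum]
    ring

lemma EE_cast (r : ℕ) (f : ZMod m → ℚ) (n : ℕ) :
    EE m r f (n : ZMod m) =
      ∑ i ∈ range r, f ((n + i * (m / r) : ℕ) : ZMod m) - f ((r * n : ℕ) : ZMod m) := by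
  change ∑ i ∈ range r, f ((n : ZMod m) + ((i * (m / r) : ℕ) : ZMod m)) - f ((r : ZMod m) * n) = _
  congr 1
  · refine sum_congr rfl fun i _ => ?_
    push_cast; rfl
  · push_cast; rfl

lemma dvd_div {q r : ℕ} (hq : q.Prime) (hqm : q ∣ m) (hr : r.Prime) (hrm : r ∣ m) (hrq : r ≠ q) :
    q ∣ m / r := by
  have h1 : q ∣ r * (m / r) := by rw [Nat.mul_div_cancel' hrm]; exact hqm
  rcases (Nat.Prime.dvd_mul hq).mp h1 with h2 | h2
  · exact absurd ((Nat.prime_dvd_prime_iff_eq hq hr).mp h2).symm hrq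
  · exact h2

lemma EE_mem {q r : ℕ} {P : Finset ℕ} (hq : q.Prime) (hqm : q ∣ m)
    (hP : ∀ r ∈ P, r.Prime ∧ r ∣ m ∧ r ≠ q) (hr : r.Prime) (hrm : r ∣ m) (hrq : r ≠ q)
    (hrP : r ∉ P) {f : ZMod m → ℚ} (hf : f ∈ WW q m P) : EE m r f ∈ WW q m P := by
  rw [mem_WW] at hf ⊢
  have hrd : r * (m / r) = m := Nat.mul_div_cancel' hrm
  refine ⟨?_, ?_, ?_⟩
  · intro x y hxy
    have : (x : ZMod m) = (y : ZMod m) := (ZMod.natCast_eq_natCast_iff x y m).mpr hxy
    simp only [this]
  · intro _ n hn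
    simp only [EE_cast]
    have h1 := hf.supp hqm (r * n) (hn.mul_left r)
    rw [h1, sub_zero]
    apply sum_eq_zero
    intro i _
    exact hf.supp hqm _ (dvd_add hn ((dvd_div hq hqm hr hrm hrq).mul_left i))
  · intro s hs n
    obtain ⟨hs1, hs2, hs3⟩ := hP s hs
    have hsr : s ≠ r := fun h => hrP (h ▸ hs)
    have hsd : s * (m / s) = m := Nat.mul_div_cancel' hs2
    have hcop : Nat.Coprime s r := (Nat.coprime_primes hs1 hr).mpr hsr
    simp only [EE_cast, sum_sub_distrib]
    have e1 : ∑ j ∈ range s, ∑ i ∈ range r, f ((n + j * (m / s) + i * (m / r) : ℕ) : ZMod m) =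
        ∑ i ∈ range r, f ((s * n + i * (m / r) : ℕ) : ZMod m) := by
      rw [sum_comm]
      have h1 := coset_mul hr.pos hrd hf.per hcop (s * n)
      rw [← h1]
      refine sum_congr rfl fun i _ => ?_
      have h2 := hf.dist s hs (n + i * (m / r))
      rw [show s * n + s * i * (m / r) = s * (n + i * (m / r)) by ring, ← h2]
      refine sum_congr rfl fun j _ => ?_
      congr 2; ring
    have e2 : ∑ j ∈ range s, f ((r * (n + j * (m / s)) : ℕ) : ZMod m) =
        f ((r * (s * n) : ℕ) : ZMod m) := by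
      have h1 := coset_mul hs1.pos hsd hf.per hcop.symm (r * n)
      have h2 := hf.dist s hs (r * n)
      rw [show r * (s * n) = s * (r * n) by ring, ← h2, ← h1]
      refine sum_congr rfl fun j _ => ?_
      congr 2; ring
    rw [e1, e2]

lemma EE_inv {q r : ℕ} {P : Finset ℕ} (hr : r.Prime) (hrm : r ∣ m) {f : ZMod m → ℚ}
    (hf : f ∈ WW q m P) (n : ℕ) :
    EE m r f ((n + m / r : ℕ) : ZMod m) = EE m r f (n : ZMod m) := by
  rw [mem_WW] at hf
  have hrd : r * (m / r) = m := Nat.mul_div_cancel' hrm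
  rw [EE_cast, EE_cast]
  have h1 := coset_shift hr.pos hrd hf.per n
  rw [h1]
  congr 1
  have h2 := hf.per (r * (n + m / r)) (r * n) (by
    rw [mul_add, hrd]
    exact Nat.add_modEq_right)
  exact h2

/-- the invariant part -/
def II (q m : ℕ) (P : Finset ℕ) (r : ℕ) : Submodule ℚ (ZMod m → ℚ) :=
  WW q m P ⊓
    { carrier := {f | ∀ n : ℕ, f ((n + m / r : ℕ) : ZMod m) = f (n : ZMod m)}
      add_mem' := by
        intro f g hf hg n
        simp only [Pi.add_apply]
        rw [hf n, hg n]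
      zero_mem' := by intro n; rfl
      smul_mem' := by
        intro c f hf n
        simp only [Pi.smul_apply]
        rw [hf n] }

/-- the generating set -/
def BB (q m : ℕ) [NeZero m] (P : Finset ℕ) : Finset (ZMod m) :=
  univ.filter (fun a => ¬ q ∣ a.val ∧ ∀ r ∈ P, TT r m a.val)

/-- the generating set of the invariant part -/
def BI (q m : ℕ) [NeZero m] (P : Finset ℕ) (r : ℕ) : Finset (ZMod m) :=
  univ.filter (fun a => (¬ q ∣ a.val ∧ ∀ s ∈ P, TT s m a.val) ∧
    a.val % r ^ (m.factorization r) < r ^ (m.factorization r - 1))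

lemma TT_mod {r x : ℕ} (m : ℕ) : TT r m (x % m) ↔ TT r m x := by
  unfold TT
  rw [Nat.mod_mod_of_dvd _ (Nat.ordProj_dvd m r)]

section

variable [NeZero m] {q : ℕ} (hq : q.Prime) (hqm : q ∣ m) {P : Finset ℕ}
  (hP : ∀ r ∈ P, r.Prime ∧ r ∣ m ∧ r ≠ q)

include hq hqm hP

lemma WW_vanish {f : ZMod m → ℚ} (hf : f ∈ WW q m P) (hB : ∀ b ∈ BB q m P, f b = 0) : f = 0 := by
  have hm : m ≠ 0 := NeZero.ne m
  rw [mem_WW] at hf
  have h1 := TD.ext_of_B hm hq hqm hP hf TD.zero (fun x hx hT => by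
    have h2 : ((x % m : ℕ) : ZMod m) = (x : ZMod m) := by simp
    have h3 : f ((x % m : ℕ) : ZMod m) = 0 := by
      apply hB
      simp only [BB, mem_filter, mem_univ, true_and]
      rw [ZMod.val_natCast, Nat.mod_mod]
      refine ⟨?_, ?_⟩
      · intro h; exact hx ((Nat.dvd_mod_iff hqm).mp h)
      · intro r hr
        rw [TT_mod]
        exact hT r hr
    rwa [h2] at h3)
  funext a
  have := h1 a.val
  rw [ZMod.natCast_zmod_val] at this
  exact this

lemma II_vanish {r : ℕ} (hr : r.Prime) (hrm : r ∣ m) (hrq : r ≠ q) (hrP : r ∉ P)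
    {f : ZMod m → ℚ} (hf : f ∈ II q m P r) (hB : ∀ b ∈ BI q m P r, f b = 0) : f = 0 := by
  have hm : m ≠ 0 := NeZero.ne m
  obtain ⟨hfW, hfI⟩ := hf
  have hfI' : ∀ n : ℕ, f ((n + m / r : ℕ) : ZMod m) = f (n : ZMod m) := hfI
  have hfI2 : ∀ i n : ℕ, f ((n + i * (m / r) : ℕ) : ZMod m) = f (n : ZMod m) := by
    intro i
    induction i with
    | zero => intro n; simp
    | succ i ih =>
      intro n
      rw [show n + (i + 1) * (m / r) = (n + i * (m / r)) + m / r by ring, hfI', ih]
  apply WW_vanish hq hqm hP hfW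
  intro b hb
  simp only [BB, mem_filter, mem_univ, true_and] at hb
  obtain ⟨hb1, hb2⟩ := hb
  obtain ⟨e, u, he, hmu, hru, hmr⟩ := decomp hm hr hrm
  -- choose the shift
  obtain ⟨i, hi⟩ : ∃ i, (b.val + i * (m / r)) % r ^ (e + 1) < r ^ e := by
    have hcop : Nat.Coprime u r := by
      rw [Nat.coprime_comm]
      exact (Nat.Prime.coprime_iff_not_dvd hr).mpr hru
    -- digit
    have hre : 0 < r ^ e := pow_pos hr.pos e
    set j := b.val / r ^ e with hj
    obtain ⟨k, _, hk⟩ := Nat.exists_mul_mod_eq_of_coprime ((r * j - j)) hcop hr.ne_zero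
    refine ⟨k, ?_⟩
    have h1 : b.val = b.val % r ^ e + r ^ e * j := by
      rw [hj]; exact (Nat.mod_add_div _ _).symm
    have h2 : b.val + k * (m / r) = b.val % r ^ e + r ^ e * (j + u * k) := by
      rw [hmr]
      conv_lhs => rw [h1]
      ring
    have h3 : (j + u * k) % r = 0 := by
      rw [Nat.add_mod, hk, ← Nat.add_mod]
      have hjr : j ≤ r * j := Nat.le_mul_of_pos_left j hr.pos
      rw [Nat.add_sub_cancel' hjr]
      exact Nat.mul_mod_right r j
    obtain ⟨w, hw⟩ := Nat.dvd_of_mod_eq_zero h3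
    rw [h2, hw, show r ^ e * (r * w) = r ^ (e + 1) * w by ring, Nat.add_mul_mod_self_left]
    refine lt_of_le_of_lt (Nat.mod_le _ _) (Nat.mod_lt _ hre)
  have h1 := hfI2 i b.val
  rw [ZMod.natCast_zmod_val] at h1
  rw [← h1]
  apply hB
  simp only [BI, mem_filter, mem_univ, true_and]
  have hqr := dvd_div hq hqm hr hrm hrq
  refine ⟨⟨?_, ?_⟩, ?_⟩
  · rw [ZMod.val_natCast]
    intro h
    have h2 := (Nat.dvd_mod_iff hqm).mp h
    exact hb1 ((Nat.dvd_add_left (hqr.mul_left i)).mp h2)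
  · intro s hs
    rw [ZMod.val_natCast, TT_mod, TT_other hm hr hrm (hP s hs).1 (fun h => hrP (h ▸ hs))]
    exact hb2 s hs
  · rw [ZMod.val_natCast, Nat.mod_mod_of_dvd _ (Nat.ordProj_dvd m r), he, Nat.add_sub_cancel]
    exact hi

lemma finrank_step {r : ℕ} (hr : r.Prime) (hrm : r ∣ m) (hrq : r ≠ q) (hrP : r ∉ P) :
    Module.finrank ℚ (WW q m P) ≤
      Module.finrank ℚ (WW q m (insert r P)) + (BI q m P r).card := by
  let φ : WW q m P →ₗ[ℚ] (ZMod m → ℚ) := (EE m r).domRestrict (WW q m P)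
  have h1 := LinearMap.finrank_range_add_finrank_ker φ
  have h2 : Module.finrank ℚ (LinearMap.range φ) ≤ (BI q m P r).card := by
    have hle : LinearMap.range φ ≤ II q m P r := by
      rintro _ ⟨f, rfl⟩
      refine ⟨EE_mem hq hqm hP hr hrm hrq hrP f.2, ?_⟩
      intro n
      exact EE_inv hr hrm f.2 n
    refine le_trans (Submodule.finrank_mono hle) ?_
    exact finrank_le_of_vanish _ _ fun f hf hB => II_vanish hq hqm hP hr hrm hrq hrP hf hB
  have h3 : Module.finrank ℚ (LinearMap.ker φ) ≤ Module.finrank ℚ (WW q m (insert r P)) := by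
    let ψ : LinearMap.ker φ →ₗ[ℚ] WW q m (insert r P) :=
      { toFun := fun f => ⟨f.1.1, by
          have hf := f.1.2
          have hf0 : EE m r f.1.1 = 0 := f.2
          rw [mem_WW] at hf ⊢
          refine ⟨hf.per, hf.supp, ?_⟩
          intro s hs n
          rcases mem_insert.mp hs with rfl | hs'
          · have h4 := congrFun hf0 (n : ZMod m)
            rw [EE_cast, Pi.zero_apply] at h4
            exact sub_eq_zero.mp h4
          · exact hf.dist s hs' n⟩
        map_add' := fun _ _ => rfl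
        map_smul' := fun _ _ => rfl }
    apply LinearMap.finrank_le_finrank_of_injective (f := ψ)
    intro f g hfg
    apply Subtype.ext
    apply Subtype.ext
    exact congrArg (fun z : WW q m (insert r P) => z.1) hfg
  omega

end

end Pool.Agent.Y2
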