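import Pool.Agent.Y2.Peel

/-!
Divisibility: if a multiset with entries prime to `q` is invariant under the subgroup of the units
congruent to one modulo `d` then the sums over it of integral odd distributions of level `d` are
divisible by the order of this subgroup (up to the factor two).
-/

namespace Pool.Agent.Y2

open Finset Pool.Agent.H916R2

/-- odd distributions of level `d` at the primes of `P` -/
structure LD (P : Finset ℕ) (d : ℕ) (Ψ : ℕ → ℤ) : Prop where
  per : ∀ x y, x ≡ y [MOD d] → Ψ x = Ψ y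
  odd : ∀ x y, d ∣ x + y → Ψ y = - Ψ x
  dist : ∀ r ∈ P, ∀ n, ∑ i ∈ range r, Ψ (n + i * (d / r)) = Ψ (r * n)

namespace LD

variable {P : Finset ℕ} {d : ℕ} {Ψ Φ : ℕ → ℤ}

lemma add (h : LD P d Ψ) (h' : LD P d Φ) : LD P d (fun x => Ψ x + Φ x) :=
  ⟨fun x y hxy => by simp only [h.per x y hxy, h'.per x y hxy],
    fun x y hxy => by simp only [h.odd x y hxy, h'.odd x y hxy]; ring,
    fun r hr n => by simp only [sum_add_distrib, h.dist r hr n, h'.dist r hr n]⟩

lemma smul (c : ℤ) (h : LD P d Ψ) : LD P d (fun x => c * Ψ x) :=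
  ⟨fun x y hxy => by simp only [h.per x y hxy],
    fun x y hxy => by simp only [h.odd x y hxy]; ring,
    fun r hr n => by rw [← mul_sum, h.dist r hr n]⟩

lemma of_smul {c : ℤ} (hc : c ≠ 0) (h : LD P d (fun x => c * Ψ x)) : LD P d Ψ :=
  ⟨fun x y hxy => mul_left_cancel₀ hc (h.per x y hxy),
    fun x y hxy => mul_left_cancel₀ hc (by rw [h.odd x y hxy]; ring),
    fun r hr n => mul_left_cancel₀ hc (by rw [mul_sum]; exact h.dist r hr n)⟩

end LD

lemma ld_saw {P : Finset ℕ} {d : ℕ} (hd : d ≠ 0) (hP : ∀ r ∈ P, r.Prime ∧ r ∣ d) {z : ℕ}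
    (hz : Nat.Coprime z d) : LD P d (fun x => saw ((z * x : ℕ) : ZMod d)) := by
  have : NeZero d := ⟨hd⟩
  refine ⟨fun x y hxy => saw_per _ _ (hxy.mul_left z), ?_, ?_⟩
  · intro x y hxy
    have h1 : ((z * y : ℕ) : ZMod d) = - ((z * x : ℕ) : ZMod d) := by
      have h4 : ((z * (x + y) : ℕ) : ZMod d) = 0 := by
        rw [ZMod.natCast_eq_zero_iff]
        exact hxy.mul_left z
      push_cast at h4 ⊢
      linear_combination h4
    rw [h1, saw_neg]
  · intro r hr n
    obtain ⟨hr1, hr2⟩ := hP r hr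
    have hcop : Nat.Coprime z r := Nat.Coprime.coprime_dvd_right hr2 hz
    have h3 := coset_mul hr1.pos (Nat.mul_div_cancel' hr2)
      (C := fun n : ℕ => saw (n : ZMod d)) saw_per hcop (z * n)
    have h4 := saw_dist (Nat.mul_div_cancel' hr2) ((z * n : ℕ) : ZMod d)
    have h5 : ∑ i ∈ range r, saw ((z * n + i * (d / r) : ℕ) : ZMod d) =
        saw ((r * (z * n) : ℕ) : ZMod d) := by
      push_cast
      push_cast at h4
      exact h4
    rw [show z * (r * n) = r * (z * n) by ring, ← h5, ← h3]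
    refine sum_congr rfl fun i _ => ?_
    congr 2
    ring

/-- Lifting a distribution of level `d` to level `q ^ e * d`, away from `q`. -/
lemma lift_td {q e d m : ℕ} (hq : q.Prime) (he : 0 < e) (hdm : q ^ e * d = m)
    {Ψ : ℕ → ℤ} (h : LD (PO q m) d Ψ) :
    TD q m (PO q m) (fun x => if q ∣ x then (0 : ℤ) else Ψ x) := by
  have hqdm : q ∣ m := by rw [← hdm]; exact (dvd_pow_self q he.ne').mul_right d
  refine ⟨?_, ?_, ?_⟩
  · intro x y hxy
    have h1 : q ∣ x ↔ q ∣ y := (hxy.of_dvd hqdm).dvd_iff dvd_rfl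
    simp only [h1, h.per x y (hxy.of_dvd (Dvd.intro_left _ hdm))]
  · intro _ n hn
    simp only [if_pos hn]
  · intro r hr n
    obtain ⟨hr1, hr2, hr3⟩ := PO_prime hr
    have hrd : r ∣ d := by
      rw [← hdm] at hr2
      rcases (Nat.Prime.dvd_mul hr1).mp hr2 with h | h
      · exact absurd ((Nat.prime_dvd_prime_iff_eq hr1 hq).mp (hr1.dvd_of_dvd_pow h)) hr3
      · exact h
    have hmr : m / r = q ^ e * (d / r) := by rw [← hdm, Nat.mul_div_assoc _ hrd]
    have hqmr : q ∣ m / r := by rw [hmr]; exact (dvd_pow_self q he.ne').mul_right _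
    have h1 : ∀ i, (q ∣ n + i * (m / r) ↔ q ∣ n) := fun i => Nat.dvd_add_left (hqmr.mul_left i)
    have h2 : q ∣ r * n ↔ q ∣ n := by
      constructor
      · intro h
        rcases (Nat.Prime.dvd_mul hq).mp h with h | h
        · exact absurd ((Nat.prime_dvd_prime_iff_eq hq hr1).mp h) (Ne.symm hr3)
        · exact h
      · intro h; exact h.mul_left r
    simp only [h1, h2]
    by_cases hqn : q ∣ n
    · simp [hqn]
    · simp only [hqn, if_false]
      have hcop : Nat.Coprime (q ^ e) r :=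
        Nat.Coprime.pow_left _ ((Nat.coprime_primes hq hr1).mpr (Ne.symm hr3))
      have h3 := coset_mul hr1.pos (Nat.mul_div_cancel' hrd) h.per hcop n
      rw [← h.dist r hr n, ← h3]
      refine sum_congr rfl fun i _ => ?_
      congr 2
      rw [hmr]; ring

/-- the chosen representative of the class of `x` modulo `q ^ j` -/
def rho (q j x : ℕ) : ℕ := if j = 0 then 1 else x % q ^ j

/-- the representatives of the subgroup -/
def KS (q k j : ℕ) : Finset ℕ := (range (q ^ k)).filter (fun c => ¬ q ∣ c ∧ c ≡ 1 [MOD q ^ j])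

lemma card_KS_zero {q k : ℕ} (hq : q.Prime) (hk : 0 < k) :
    (KS q k 0).card = Nat.totient (q ^ k) := by
  unfold Nat.totient
  simp only [KS, pow_zero]
  congr 1
  apply Finset.filter_congr
  intro c _
  rw [Nat.coprime_pow_left_iff hk, Nat.Prime.coprime_iff_not_dvd hq]
  simp [Nat.modEq_one]

lemma card_KS_succ {q j : ℕ} (hq : q.Prime) (hj : 0 < j) : (KS q (j + 1) j).card = q := by
  have hQ : 1 < q ^ j := Nat.one_lt_pow hj.ne' hq.one_lt
  have h1 : KS q (j + 1) j = (range q).image (fun i => 1 + i * q ^ j) := by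
    ext c
    simp only [KS, mem_filter, mem_range, mem_image]
    constructor
    · rintro ⟨h1, _, h3⟩
      have h4 : c % q ^ j = 1 := by
        have : c % q ^ j = 1 % q ^ j := h3
        rwa [Nat.mod_eq_of_lt hQ] at this
      refine ⟨c / q ^ j, ?_, ?_⟩
      · rw [Nat.div_lt_iff_lt_mul (by omega)]
        rw [pow_succ] at h1
        linarith
      · rw [← h4]
        have := Nat.mod_add_div c (q ^ j)
        rw [mul_comm (c / q ^ j)]
        exact this
    · rintro ⟨i, hi, rfl⟩
      refine ⟨?_, ?_, ?_⟩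
      · rw [pow_succ]
        have : (i + 1) * q ^ j ≤ q * q ^ j := Nat.mul_le_mul_right _ (by omega)
        nlinarith
      · intro h
        have h2 : q ∣ i * q ^ j := (dvd_pow_self q hj.ne').mul_left i
        have h3 : q ∣ 1 := (Nat.dvd_add_left h2).mp h
        exact hq.one_lt.ne' (Nat.dvd_one.mp h3)
      · have : 1 + i * q ^ j ≡ 1 + 0 [MOD q ^ j] :=
          Nat.ModEq.add_left 1 ((Nat.modEq_zero_iff_dvd).mpr (Dvd.intro_left i rfl))
        exact this
  rw [h1, Finset.card_image_of_injective, card_range]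
  intro a b hab
  have h2 : a * q ^ j = b * q ^ j := by
    have : 1 + a * q ^ j = 1 + b * q ^ j := hab
    omega
  exact Nat.eq_of_mul_eq_mul_right (by omega) h2

/-- **Divisibility.** -/
theorem div_lemma {q k j m' d m : ℕ} (hq : q.Prime) (hjk : j < k) (hqm : q ^ k * m' = m)
    (hqd : q ^ j * m' = d) (hm : m ≠ 0) (hqm' : ¬ q ∣ m') {A : Multiset ℕ}
    (hA : ∀ a ∈ A, ¬ q ∣ a)
    (hinv : ∀ i t κ, Nat.Coprime t m → Nat.Coprime κ m → κ ≡ 1 [MOD d] →
      SW m A (q ^ i * (t * κ)) = SW m A (q ^ i * t))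
    {Ψ : ℕ → ℤ} (hΨ : LD (PO q m) d Ψ) :
    ∃ V : ℤ, ((KS q k j).card : ℤ) * V = 2 * (A.map Ψ).sum := by
  classical
  have hk : 0 < k := by omega
  have hqdm : q ∣ m := by rw [← hqm]; exact (dvd_pow_self q hk.ne').mul_right m'
  have hedm : q ^ (k - j) * d = m := by
    rw [← hqd, ← mul_assoc, ← pow_add, Nat.sub_add_cancel hjk.le, hqm]
  have hdm : d ∣ m := Dvd.intro_left _ hedm
  set K := q ^ k with hK
  have hKm : K ∣ m := Dvd.intro _ hqm
  have hqK : q ∣ K := dvd_pow_self q hk.ne'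
  have hK0 : 0 < K := pow_pos hq.pos k
  have hKm' : Nat.Coprime K m' :=
    Nat.Coprime.pow_left _ ((Nat.Prime.coprime_iff_not_dvd hq).mpr hqm')
  have hJK : q ^ j ∣ K := pow_dvd_pow q hjk.le
  have hJm : q ^ j ∣ m := hJK.trans hKm
  have hJm' : Nat.Coprime (q ^ j) m' :=
    Nat.Coprime.pow_left _ ((Nat.Prime.coprime_iff_not_dvd hq).mpr hqm')
  have hPp : ∀ r ∈ PO q m, r.Prime ∧ r ∣ m ∧ r ≠ q := fun r hr => PO_prime hr
  have hPp' : ∀ r ∈ PO q m, r.Prime ∧ r ∣ m := fun r hr => ⟨(hPp r hr).1, (hPp r hr).2.1⟩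
  have hm1 : 1 ≤ m := Nat.one_le_iff_ne_zero.mpr hm
  have hm1c : Nat.Coprime (m - 1) m := by
    have h1 := Nat.coprime_self_sub_right (m := 1) (n := m) hm1
    rw [Nat.coprime_comm]
    exact h1.mpr (Nat.coprime_one_right m)
  have hm1s : ∀ x, x + (m - 1) * x = m * x := by
    intro x
    obtain ⟨k, hk⟩ : ∃ k, m = k + 1 := ⟨m - 1, by omega⟩
    rw [hk]
    simp; ring
  -- facts on `rho`
  have hrho1 : ∀ x, rho q j x ≡ x [MOD q ^ j] := by
    intro x
    unfold rho
    split_ifs with h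
    · rw [h, pow_zero]; exact Nat.modEq_one
    · exact Nat.mod_modEq x _
  have hrho2 : ∀ x y, x ≡ y [MOD q ^ j] → rho q j x = rho q j y := by
    intro x y hxy
    unfold rho
    split_ifs with h
    · rfl
    · exact hxy
  have hrho3 : ∀ x, ¬ q ∣ x → ¬ q ∣ rho q j x := by
    intro x hx h
    by_cases hj : j = 0
    · unfold rho at h
      rw [if_pos hj] at h
      exact hq.one_lt.ne' (Nat.dvd_one.mp h)
    · have h1 : q ∣ q ^ j := dvd_pow_self q hj
      exact hx ((((hrho1 x).of_dvd h1).dvd_iff dvd_rfl).mp h)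
  -- the distribution
  let v : ℕ → ℤ := fun x => if x % K = rho q j x % K then Ψ x else 0
  have hvmod : ∀ x, v (x % m) = v x := by
    intro x
    have h1 : x % m % K = x % K := Nat.mod_mod_of_dvd x hKm
    have h2 : Ψ (x % m) = Ψ x := hΨ.per _ _ ((Nat.mod_modEq x m).of_dvd hdm)
    have h3 : rho q j (x % m) = rho q j x := hrho2 _ _ ((Nat.mod_modEq x m).of_dvd hJm)
    simp only [v, h1, h2, h3]
  obtain ⟨C, hC, hCv'⟩ := exists_td hq hqdm hm v
  have hCv : ∀ x, ¬ q ∣ x → (∀ r ∈ PO q m, TT r m x) → C x = v x := fun x hx hT => by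
    rw [hCv' x hx hT, hvmod]
  -- representatives
  let Ks : Finset ℕ := KS q k j
  let κ : ℕ → ℕ := fun c => (Nat.chineseRemainder hKm' c 1 : ℕ)
  have hκK : ∀ c, κ c ≡ c [MOD K] := fun c => (Nat.chineseRemainder hKm' c 1).2.1
  have hκm' : ∀ c, κ c ≡ 1 [MOD m'] := fun c => (Nat.chineseRemainder hKm' c 1).2.2
  have hκq : ∀ c, (q ∣ κ c ↔ q ∣ c) := fun c => ((hκK c).of_dvd hqK).dvd_iff dvd_rfl
  have hKs : ∀ c ∈ Ks, ¬ q ∣ c ∧ c ≡ 1 [MOD q ^ j] := fun c hc => (mem_filter.mp hc).2
  have hκc : ∀ c ∈ Ks, Nat.Coprime (κ c) m := by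
    intro c hc
    have hc' : ¬ q ∣ c := (hKs c hc).1
    rw [← hqm]
    apply Nat.Coprime.mul_right
    · apply Nat.Coprime.pow_right
      exact (Nat.coprime_comm).mp ((Nat.Prime.coprime_iff_not_dvd hq).mpr
        (fun h => hc' ((hκq c).mp h)))
    · have : Nat.gcd (κ c) m' = Nat.gcd 1 m' := (hκm' c).gcd_eq
      rw [Nat.Coprime, this, Nat.gcd_one_left]
  have hκJ : ∀ c ∈ Ks, κ c ≡ 1 [MOD q ^ j] := fun c hc =>
    ((hκK c).of_dvd hJK).trans (hKs c hc).2
  have hκd : ∀ c ∈ Ks, κ c ≡ 1 [MOD d] := by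
    intro c hc
    rw [← hqd]
    exact (Nat.modEq_and_modEq_iff_modEq_mul hJm').mp ⟨hκJ c hc, hκm' c⟩
  have hrfac : ∀ r ∈ PO q m, r ^ (m.factorization r) ∣ m' := by
    intro r hr
    obtain ⟨hr1, hr2, hr3⟩ := hPp r hr
    have h1 : r ^ (m.factorization r) ∣ K * m' := by rw [hqm]; exact Nat.ordProj_dvd m r
    apply Nat.Coprime.dvd_of_dvd_mul_left _ h1
    exact Nat.Coprime.pow _ _ ((Nat.coprime_primes hr1 hq).mpr hr3)
  -- the sum over the subgroup
  have hsumK : ∀ x, ∑ c ∈ Ks, C (κ c * x) = if q ∣ x then (0 : ℤ) else Ψ x := by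
    intro x
    refine TD.ext_of_B hm hq hqdm hPp
      (TD.sum Ks (fun c x => C (κ c * x)) fun c hc => hC.mul hPp' (hκc c hc))
      (lift_td hq (by omega : 0 < k - j) hedm hΨ) ?_ x
    intro x hx hT
    simp only [if_neg hx]
    have hval : ∀ c ∈ Ks, C (κ c * x) =
        if (c * x) % K = rho q j x % K then Ψ x else 0 := by
      intro c hc
      have hc' : ¬ q ∣ c := (hKs c hc).1
      rw [hCv (κ c * x)]
      · have h1 : (κ c * x) % K = (c * x) % K := (hκK c).mul_right x
        have h2 : Ψ (κ c * x) = Ψ x := by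
          apply hΨ.per
          have := (hκd c hc).mul_right x
          rwa [one_mul] at this
        have h3 : rho q j (κ c * x) = rho q j x := by
          apply hrho2
          have := (hκJ c hc).mul_right x
          rwa [one_mul] at this
        simp only [v, h1, h2, h3]
      · intro h
        rcases (Nat.Prime.dvd_mul hq).mp h with h | h
        · exact hc' ((hκq c).mp h)
        · exact hx h
      · intro r hr
        have h1 := hT r hr
        unfold TT at h1 ⊢
        have h2 : (κ c * x) % r ^ (m.factorization r) = x % r ^ (m.factorization r) := by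
          have h3 := ((hκm' c).mul_right x).of_dvd (hrfac r hr)
          rw [one_mul] at h3
          exact h3
        rw [h2]; exact h1
    rw [sum_congr rfl hval]
    have hxK : Nat.Coprime x K :=
      Nat.Coprime.pow_right _ ((Nat.coprime_comm).mp ((Nat.Prime.coprime_iff_not_dvd hq).mpr hx))
    obtain ⟨c0, hc0, hc0'⟩ := Nat.exists_mul_mod_eq_of_coprime (rho q j x) hxK hK0.ne'
    have hc0'' : x * c0 ≡ rho q j x [MOD K] := hc0'
    have hc0m : c0 ∈ Ks := by
      simp only [Ks, KS, mem_filter, mem_range]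
      refine ⟨hc0, ?_, ?_⟩
      · intro h
        have h2 : q ∣ rho q j x := ((hc0''.of_dvd hqK).dvd_iff dvd_rfl).mp (h.mul_left x)
        exact hrho3 x hx h2
      · have h1 : x * c0 ≡ x * 1 [MOD q ^ j] := by
          rw [mul_one]
          exact (hc0''.of_dvd hJK).trans (hrho1 x)
        have h5 : Nat.Coprime (q ^ j) x :=
          Nat.coprime_comm.mp (Nat.Coprime.coprime_dvd_right hJK hxK)
        exact Nat.ModEq.cancel_left_of_coprime h5 h1
    rw [Finset.sum_eq_single c0]
    · rw [if_pos (by rw [mul_comm]; exact hc0')]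
    · intro c hc hne
      rw [if_neg]
      intro h
      apply hne
      have h1 : x * c ≡ x * c0 [MOD K] := by
        have h2 : x * c ≡ rho q j x [MOD K] := by rw [mul_comm]; exact h
        exact h2.trans (Nat.ModEq.symm hc0'')
      have h3 : c ≡ c0 [MOD K] :=
        Nat.ModEq.cancel_left_of_coprime (by rwa [Nat.coprime_comm] at hxK) h1
      exact Nat.ModEq.eq_of_lt_of_lt h3 (mem_range.mp (mem_filter.mp hc).1) hc0
    · intro h; exact absurd hc0m h
  -- odd part
  let Cm : ℕ → ℤ := fun x => C x - C ((m - 1) * x)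
  have hCm : TD q m (PO q m) Cm := hC.sub (hC.mul hPp' hm1c)
  have hCmo : ∀ x y, m ∣ x + y → Cm y = - Cm x := by
    intro x y hxy
    have h1 : y ≡ (m - 1) * x [MOD m] := by
      apply Nat.ModEq.add_left_cancel' x
      rw [hm1s]
      exact ((Nat.modEq_zero_iff_dvd).mpr hxy).trans
        ((Nat.modEq_zero_iff_dvd).mpr (Dvd.intro _ rfl)).symm
    have h2 : (m - 1) * y ≡ x [MOD m] := by
      apply Nat.ModEq.add_left_cancel' y
      rw [hm1s, add_comm y x]
      exact ((Nat.modEq_zero_iff_dvd).mpr (Dvd.intro _ rfl)).trans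
        ((Nat.modEq_zero_iff_dvd).mpr hxy).symm
    simp only [Cm]
    rw [hC.per _ _ h1, hC.per _ _ h2]
    ring
  refine ⟨(A.map Cm).sum, ?_⟩
  -- invariance
  have hinv' : ∀ c ∈ Ks, (A.map fun a => Cm (κ c * a)).sum = (A.map Cm).sum := by
    intro c hc
    have hc' : ¬ q ∣ c := (hKs c hc).1
    have h1 := star2 hq hm (A.map fun a => κ c * a) A (fun _ a ha => by
      obtain ⟨b, hb, rfl⟩ := Multiset.mem_map.mp ha
      intro h
      rcases (Nat.Prime.dvd_mul hq).mp h with h | h
      · exact hc' ((hκq c).mp h)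
      · exact hA b hb h) (fun _ => hA) (fun i t htc => by
      have e1 : SW m (A.map fun a => κ c * a) (q ^ i * t) = SW m A (q ^ i * (t * κ c)) := by
        unfold SW
        rw [Multiset.map_map]
        congr 1
        apply Multiset.map_congr rfl
        intro a _
        simp only [Function.comp_apply]
        congr 2
        ring
      rw [e1]
      exact hinv i t (κ c) htc (hκc c hc) (hκd c hc)) hCm hCmo
    rw [Multiset.map_map] at h1
    exact h1
  have h1 : ((KS q k j).card : ℤ) * (A.map Cm).sum =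
      ∑ c ∈ Ks, (A.map fun a => Cm (κ c * a)).sum := by
    rw [sum_congr rfl hinv', sum_const, nsmul_eq_mul]
  rw [h1, ← Multiset.sum_map_sum, ← Multiset.sum_map_mul_left]
  congr 1
  apply Multiset.map_congr rfl
  intro a ha
  have h2 : ∀ c, Cm (κ c * a) = C (κ c * a) - C (κ c * ((m - 1) * a)) := by
    intro c
    simp only [Cm]
    congr 2
    ring
  simp only [h2, sum_sub_distrib]
  rw [hsumK, hsumK, if_neg (hA a ha), if_neg]
  · have h3 : Ψ ((m - 1) * a) = - Ψ a := hΨ.odd _ _ (by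
      rw [hm1s]; exact hdm.mul_right a)
    rw [h3]; ring
  · intro h
    rcases (Nat.Prime.dvd_mul hq).mp h with h | h
    · have h4 : q ∣ Nat.gcd (m - 1) m := Nat.dvd_gcd h hqdm
      rw [hm1c] at h4
      exact hq.one_lt.ne' (Nat.dvd_one.mp h4)
    · exact hA a ha h

end Pool.Agent.Y2
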