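import Pool.Agent.H916R2.Count

/-!
Elimination for functions satisfying the distribution relations at a set `P` of primes
different from `q`.
-/

namespace Pool.Agent.Y2

open Finset Pool.Agent.H916R2

/-- number of primes of `P` at which the local condition fails -/
def badP (P : Finset ℕ) (m x : ℕ) : ℕ := (P.filter (fun r => ¬ TT r m x)).card

/-- Elimination. -/
theorem elim {Q : Type*} [AddCommGroup Q] {m q : ℕ} (hm : m ≠ 0) (hq : q.Prime) (hqm : q ∣ m)
    (P : Finset ℕ) (hP : ∀ r ∈ P, r.Prime ∧ r ∣ m ∧ r ≠ q)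
    (C : ℕ → Q) (hdist : ∀ r ∈ P, ∀ x, ∑ i ∈ range r, C (x + i * (m / r)) = C (r * x))
    (S : AddSubgroup Q) (A : ℕ → Prop)
    (hA : ∀ r ∈ P, ∀ x i, A x → A (x + i * (m / r)))
    (hred : ∀ x, ¬ q ∣ x → ∃ y, ¬ q ∣ y ∧ A y ∧ Nat.gcd y m = Nat.gcd x m ∧ (C y ∈ S → C x ∈ S))
    (hB : ∀ x, ¬ q ∣ x → A x → (∀ r ∈ P, TT r m x) → C x ∈ S) :
    ∀ x, ¬ q ∣ x → C x ∈ S := by
  suffices H : ∀ N : ℕ, ∀ x, m - Nat.gcd x m = N → ¬ q ∣ x → C x ∈ S by
    intro x hx; exact H _ x rfl hx
  intro N
  induction N using Nat.strong_induction_on with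
  | _ N ihN =>
  have key : ∀ b : ℕ, ∀ x, m - Nat.gcd x m ≤ N → ¬ q ∣ x → A x → badP P m x = b → C x ∈ S := by
    intro b
    induction b using Nat.strong_induction_on with
    | _ b ihb =>
    intro x hxN hqx hAx hbad
    rcases lt_or_eq_of_le hxN with hlt | heq
    · exact ihN _ hlt x rfl hqx
    by_cases hall : ∀ r ∈ P, TT r m x
    · exact hB x hqx hAx hall
    · push Not at hall
      obtain ⟨r, hrP, hrT⟩ := hall
      obtain ⟨hr, hrm, hrq⟩ := hP r hrP
      have hrel := hdist r hrP x
      obtain ⟨k, hk⟩ : ∃ k, r = k + 1 := ⟨r - 1, by have := hr.pos; omega⟩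
      have hrel2 : C x = C (r * x) - ∑ i ∈ range k, C (x + (i + 1) * (m / r)) := by
        rw [← hrel]
        conv_rhs => rw [hk]
        rw [sum_range_succ']
        rw [← hk]
        simp
      rw [hrel2]
      apply S.sub_mem
      · have hgt := gcd_mul_gt hm hr hrm hrT
        have hle : Nat.gcd (r * x) m ≤ m := Nat.gcd_le_right _ (Nat.pos_of_ne_zero hm)
        refine ihN (m - Nat.gcd (r * x) m) (by omega) (r * x) rfl ?_
        intro h
        rcases (Nat.Prime.dvd_mul hq).mp h with h1 | h1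
        · exact hrq ((Nat.prime_dvd_prime_iff_eq hq hr).mp h1).symm
        · exact hqx h1
      · apply S.sum_mem
        intro i hi
        have hik : i < k := mem_range.mp hi
        have hge := gcd_shift_ge hm hr hrm hrT (i + 1)
        have hqmr : q ∣ m / r := by
          have h1 : q ∣ r * (m / r) := by rw [Nat.mul_div_cancel' hrm]; exact hqm
          rcases (Nat.Prime.dvd_mul hq).mp h1 with h2 | h2
          · exact absurd ((Nat.prime_dvd_prime_iff_eq hq hr).mp h2).symm hrq
          · exact h2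
        have hbadlt : badP P m (x + (i + 1) * (m / r)) < b := by
          rw [← hbad]
          unfold badP
          apply Finset.card_lt_card
          rw [Finset.ssubset_iff_of_subset]
          · refine ⟨r, ?_, ?_⟩
            · simp only [mem_filter]
              exact ⟨hrP, hrT⟩
            · simp only [mem_filter, not_and, not_not]
              intro _
              exact TT_shift hm hr hrm hrT (Nat.succ_pos _) (by omega)
          · intro r' hr'
            simp only [mem_filter] at hr' ⊢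
            refine ⟨hr'.1, ?_⟩
            by_cases hrr : r' = r
            · rw [hrr]; exact hrT
            · rw [← TT_other hm hr hrm (hP r' hr'.1).1 hrr x (i + 1)]
              exact hr'.2
        refine ihb _ hbadlt (x + (i + 1) * (m / r)) (by omega) ?_ (hA r hrP x (i + 1) hAx) rfl
        intro h
        exact hqx ((Nat.dvd_add_left (hqmr.mul_left _)).mp h)
  intro x hxN hqx
  obtain ⟨y, hqy, hAy, hgy, hyx⟩ := hred x hqx
  exact hyx (key _ y (by rw [hgy]; exact le_of_eq hxN) hqy hAy rfl)

/-- Elimination without a sign condition. -/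
theorem elim_all {Q : Type*} [AddCommGroup Q] {m q : ℕ} (hm : m ≠ 0) (hq : q.Prime) (hqm : q ∣ m)
    (P : Finset ℕ) (hP : ∀ r ∈ P, r.Prime ∧ r ∣ m ∧ r ≠ q)
    (C : ℕ → Q) (hdist : ∀ r ∈ P, ∀ x, ∑ i ∈ range r, C (x + i * (m / r)) = C (r * x))
    (S : AddSubgroup Q) (hB : ∀ x, ¬ q ∣ x → (∀ r ∈ P, TT r m x) → C x ∈ S) :
    ∀ x, ¬ q ∣ x → C x ∈ S :=
  elim hm hq hqm P hP C hdist S (fun _ => True) (fun _ _ _ _ _ => trivial)
    (fun x hx => ⟨x, hx, trivial, rfl, fun h => h⟩) (fun x hx _ h => hB x hx h)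

/-- the sign condition -/
def PS (q m x : ℕ) : Prop :=
  2 * (x % q ^ (m.factorization q)) < q ^ (m.factorization q)

instance (q m x : ℕ) : Decidable (PS q m x) := by unfold PS; infer_instance

/-- Elimination with a sign condition, for functions which are even or odd. -/
theorem elim_sign {Q : Type*} [AddCommGroup Q] {m q : ℕ} (hm : m ≠ 0) (hq : q.Prime)
    (hq2 : 2 < q ^ (m.factorization q)) (hqm : q ∣ m)
    (P : Finset ℕ) (hP : ∀ r ∈ P, r.Prime ∧ r ∣ m ∧ r ≠ q)
    (C : ℕ → Q) (hdist : ∀ r ∈ P, ∀ x, ∑ i ∈ range r, C (x + i * (m / r)) = C (r * x))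
    (S : AddSubgroup Q) (hsym : ∀ x y, m ∣ x + y → C y ∈ S → C x ∈ S)
    (hB : ∀ x, ¬ q ∣ x → PS q m x → (∀ r ∈ P, TT r m x) → C x ∈ S) :
    ∀ x, ¬ q ∣ x → C x ∈ S := by
  obtain ⟨e, u, he, hmu, hqu, hmq⟩ := decomp hm hq hqm
  have hN : q ^ (m.factorization q) ∣ m := Nat.ordProj_dvd m q
  have hqN : q ∣ q ^ (m.factorization q) := by rw [he]; exact dvd_pow_self q (by omega)
  have hhalf : ∀ x, ¬ q ∣ x →
      2 * (x % q ^ (m.factorization q)) ≠ q ^ (m.factorization q) := by
    intro x hx h
    have h2 : q = 2 := by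
      have h2 : 2 ∣ q ^ (m.factorization q) := ⟨_, h.symm⟩
      exact ((Nat.prime_dvd_prime_iff_eq Nat.prime_two hq).mp
        (Nat.prime_two.dvd_of_dvd_pow h2)).symm
    rw [he] at h hq2
    rw [h2] at h hq2 hx
    obtain ⟨e', rfl⟩ : ∃ e', e = e' + 1 := ⟨e - 1, by
      rcases Nat.eq_zero_or_pos e with h0 | h0
      · rw [h0] at hq2; norm_num at hq2
      · omega⟩
    have h4 : x % 2 ^ (e' + 1 + 1) = 2 ^ (e' + 1) := by
      rw [pow_succ 2 (e' + 1)] at h ⊢; omega
    have h5 : 2 ∣ x % 2 ^ (e' + 1 + 1) := by rw [h4]; exact dvd_pow_self 2 (by omega)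
    exact hx ((Nat.dvd_mod_iff (dvd_pow_self 2 (by omega))).mp h5)
  set N := q ^ (m.factorization q) with hNdef
  refine elim hm hq hqm P hP C hdist S (PS q m) ?_ ?_ hB
  · intro r hr x i hx
    obtain ⟨hr1, hr2, hr3⟩ := hP r hr
    unfold PS at hx ⊢
    rw [mod_other hm hr1 hr2 hq (Ne.symm hr3) x i]
    exact hx
  · intro x hx
    by_cases hPS : PS q m x
    · exact ⟨x, hx, hPS, rfl, fun h => h⟩
    · have hm1 : 1 ≤ m := Nat.one_le_iff_ne_zero.mpr hm
      have hsum : x + (m - 1) * x = m * x := by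
        obtain ⟨k, rfl⟩ : ∃ k, m = k + 1 := ⟨m - 1, by omega⟩
        simp; ring
      have hcop : Nat.Coprime (m - 1) m := by
        have h1 := Nat.coprime_self_sub_right (m := 1) (n := m) hm1
        rw [Nat.coprime_comm]
        exact h1.mpr (Nat.coprime_one_right m)
      refine ⟨(m - 1) * x, ?_, ?_, Nat.Coprime.gcd_mul_left_cancel x hcop, ?_⟩
      · intro h
        apply hx
        have : q ∣ x + (m - 1) * x := by rw [hsum]; exact hqm.mul_right x
        exact (Nat.dvd_add_left h).mp this
      · unfold PS at hPS ⊢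
        rw [← hNdef] at hPS ⊢
        have hNpos : 0 < N := pow_pos hq.pos _
        have h1 : x % N < N := Nat.mod_lt _ hNpos
        have h2 : ((m - 1) * x) % N < N := Nat.mod_lt _ hNpos
        have h3 : (x % N + ((m - 1) * x) % N) % N = 0 := by
          rw [← Nat.add_mod, hsum]; exact Nat.mod_eq_zero_of_dvd (hN.mul_right x)
        have hx0 : x % N ≠ 0 := by
          intro h
          exact hx (dvd_trans hqN (Nat.dvd_of_mod_eq_zero h))
        generalize ((m - 1) * x) % N = w at h2 h3 ⊢
        have h4 : x % N + w = N := by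
          obtain ⟨k, hk⟩ := Nat.dvd_of_mod_eq_zero h3
          have hk2 : k < 2 := by
            by_contra hcon
            have : N * 2 ≤ N * k := Nat.mul_le_mul_left _ (by omega)
            omega
          have hk0 : 0 < k := by
            rcases Nat.eq_zero_or_pos k with h | h
            · subst h; omega
            · exact h
          have : k = 1 := by omega
          subst this
          omega
        have hne : 2 * (x % N) ≠ N := hhalf x hx
        omega
      · intro h
        exact hsym x ((m - 1) * x) (by rw [hsum]; exact Dvd.intro _ rfl) h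

end Pool.Agent.Y2
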