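import Pool.Agent.Y2.Seven
import Pool.Agent.Y2.Fin

/-!
Hodge characters with six entries of odd degree are generated by surfaces after doubling the degree.
-/

namespace Pool.Agent.Y2

open Finset Pool.Agent.H916R2

lemma SW_add (d : ℕ) (A B : Multiset ℕ) (t : ℕ) : SW d (A + B) t = SW d A t + SW d B t := by
  unfold SW; rw [Multiset.map_add, Multiset.sum_add]

lemma neg_cast {m : ℕ} (hm : m ≠ 0) (b : ℕ) : (((m - 1) * b : ℕ) : ZMod m) = - (b : ZMod m) := by
  have h3 : b + (m - 1) * b = m * b := by
    obtain ⟨k, hk⟩ : ∃ k, m = k + 1 := ⟨m - 1, by omega⟩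
    rw [hk]; simp; ring
  have h4 : ((b + (m - 1) * b : ℕ) : ZMod m) = 0 := by
    rw [h3, ZMod.natCast_eq_zero_iff]; exact Dvd.intro _ rfl
  push_cast at h4 ⊢
  linear_combination h4

lemma sum_neg_map {α Q : Type*} [AddCommGroup Q] (B : Multiset α) (f g : α → Q)
    (h : ∀ b ∈ B, f b = - g b) : (B.map f).sum = - (B.map g).sum := by
  induction B using Multiset.induction_on with
  | empty => simp
  | cons a B ih =>
    rw [Multiset.map_cons, Multiset.sum_cons, Multiset.map_cons, Multiset.sum_cons, neg_add,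
      h a (Multiset.mem_cons_self a B), ih fun b hb => h b (Multiset.mem_cons_of_mem hb)]

/-- comparison of two multisets whose entries are prime to `q` -/
theorem kill2 {q m : ℕ} (hq : q.Prime) (hqm : q ∣ m) (hm : m ≠ 0)
    (hq2 : 2 < q ^ (m.factorization q)) {A B : Multiset ℕ} (hA : ∀ a ∈ A, ¬ q ∣ a)
    (hB : ∀ b ∈ B, ¬ q ∣ b)
    (hall : ∀ j t, Nat.Coprime t m → SW m A (q ^ j * t) = SW m B (q ^ j * t))
    (Q : Type) [AddCommGroup Q] (c : ZMod m → Q) (hc : OddDist c) :
    (A.map fun a : ℕ => c (a : ZMod m)).sum = (B.map fun b : ℕ => c (b : ZMod m)).sum := by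
  have hN : NeZero m := ⟨hm⟩
  have hcop : ¬ q ∣ m - 1 := by
    intro h
    have h1 : q ∣ m - (m - 1) := Nat.dvd_sub hqm h
    have h2 : m - (m - 1) = 1 := by omega
    rw [h2] at h1
    exact hq.one_lt.ne' (Nat.dvd_one.mp h1)
  have h1 := kill hq hqm hm hq2 (A := A + B.map fun b => (m - 1) * b) (by
    intro a ha
    rcases Multiset.mem_add.mp ha with ha | ha
    · exact hA a ha
    · obtain ⟨b, hb, rfl⟩ := Multiset.mem_map.mp ha
      intro h
      rcases (Nat.Prime.dvd_mul hq).mp h with h | h
      · exact hcop h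
      · exact hB b hb h) (by
    intro j t ht
    rw [SW_add, hall j t ht]
    have : SW m (B.map fun b => (m - 1) * b) (q ^ j * t) = - SW m B (q ^ j * t) := by
      unfold SW
      rw [Multiset.map_map]
      apply sum_neg_map
      intro b _
      simp only [Function.comp_apply]
      rw [← saw_neg, ← neg_cast hm]
      congr 2
      ring
    rw [this, add_neg_cancel]) Q c hc
  rw [Multiset.map_add, Multiset.sum_add, Multiset.map_map] at h1
  have h2 : (B.map ((fun a : ℕ => c (a : ZMod m)) ∘ fun b => (m - 1) * b)).sum =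
      - (B.map fun b : ℕ => c (b : ZMod m)).sum := by
    apply sum_neg_map
    intro b _
    simp only [Function.comp_apply]
    rw [neg_cast hm, hc.neg]
  rw [h2] at h1
  exact add_neg_eq_zero.mp h1

/-- the relations of the good levels are killed -/
def Kills (m : ℕ) {Q : Type} [AddCommGroup Q] (C : ZMod (2 * m) → Q) : Prop :=
  ∀ l e : ℕ, l * e = m → GoodDegree (2 * e) → ∀ A : Multiset ℕ, (∀ a ∈ A, ¬ e ∣ a) →
    (∀ t, Nat.Coprime t e → SW e A t = 0) →
      (A.map fun a : ℕ => C ((2 * (l * a) : ℕ) : ZMod (2 * m))).sum = 0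

lemma Kills.comp {q d m : ℕ} (hqd : q * d = m) {Q : Type} [AddCommGroup Q]
    {C : ZMod (2 * m) → Q} (h : Kills m C) :
    Kills d (fun b : ZMod (2 * d) => C (iota q b)) := by
  intro l e hle hg A hA hrel
  rw [← h (q * l) e (by rw [mul_assoc, hle, hqd]) hg A hA hrel]
  congr 1
  apply Multiset.map_congr rfl
  intro a _
  change C (iota q ((2 * (l * a) : ℕ) : ZMod (2 * d))) = _
  rw [iota_natCast (by rw [← hqd]; ring)]
  congr 2; ring

lemma Kills.lower {m : ℕ} (hm : m ≠ 0) {Q : Type} [AddCommGroup Q] {C : ZMod (2 * m) → Q}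
    (h : Kills m C) {l e : ℕ} (hle : l * e = m) (hg : GoodDegree (2 * e)) {A : Multiset ℕ}
    (hA : ∀ a ∈ A, l ∣ a) (hAm : ∀ a ∈ A, ¬ m ∣ a)
    (hrel : ∀ t, Nat.Coprime t m → SW m A t = 0) :
    (A.map fun a : ℕ => C ((2 * a : ℕ) : ZMod (2 * m))).sum = 0 := by
  have h1 := h l e hle hg (A.map fun a => a / l) (by
    intro a ha
    obtain ⟨b, hb, rfl⟩ := Multiset.mem_map.mp ha
    intro h2
    apply hAm b hb
    rw [← hle]
    have := Nat.mul_dvd_mul_left l h2
    rwa [Nat.mul_div_cancel' (hA b hb)] at this) (Pool.Agent.Y2.lower hle hm hA hrel)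
  rw [Multiset.map_map] at h1
  rw [← h1]
  congr 1
  apply Multiset.map_congr rfl
  intro a ha
  simp only [Function.comp_apply]
  rw [Nat.mul_div_cancel' (hA a ha)]

lemma split_sum {q m : ℕ} (A : Multiset ℕ) {Q : Type} [AddCommGroup Q] (C : ZMod (2 * m) → Q) :
    (A.map fun a : ℕ => C ((2 * a : ℕ) : ZMod (2 * m))).sum =
      ((A.filter fun a => ¬ q ∣ a).map fun a : ℕ => C ((2 * a : ℕ) : ZMod (2 * m))).sum +
      (((A.filter fun a => q ∣ a).map fun a => a / q).map
        fun b : ℕ => C ((2 * (q * b) : ℕ) : ZMod (2 * m))).sum := by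
  have h1 : A = A.filter (fun a => ¬ q ∣ a) + A.filter (fun a => q ∣ a) := by
    rw [add_comm]
    exact (Multiset.filter_add_not _ A).symm
  conv_lhs => rw [h1]
  rw [Multiset.map_add, Multiset.sum_add, Multiset.map_map]
  congr 2
  apply Multiset.map_congr rfl
  intro a ha
  simp only [Function.comp_apply]
  rw [Nat.mul_div_cancel' (Multiset.mem_filter.mp ha).2]

/-- parity -/
lemma card_even {m : ℕ} (hodd : m % 2 = 1) {A : Multiset ℕ} (hA : ∀ a ∈ A, ¬ m ∣ a)
    (hrel : ∀ t, Nat.Coprime t m → SW m A t = 0) : Multiset.card A % 2 = 0 := by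
  have hm : m ≠ 0 := by rintro rfl; simp at hodd
  have h1 := ST_SW hodd A 1
  rw [hrel 1 (Nat.coprime_one_left m), hrel (2 * 1) (by simpa using two_coprime hodd)] at h1
  have h2 : ST m A 1 = 0 := by
    have hmz : (m : ℤ) ≠ 0 := by exact_mod_cast hm
    have h3 : (m : ℤ) * ST m A 1 = 0 := by linarith
    exact (mul_eq_zero.mp h3).resolve_left hmz
  have h3 := (ST_bound A (Nat.coprime_one_left m)).2
  rw [h2, nz_eq_card hA] at h3
  omega

lemma SW_lmul {l e m : ℕ} (hm : m ≠ 0) (hle : l * e = m) (E : Multiset ℕ) (t : ℕ) :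
    SW m (E.map fun x => l * x) t = l * SW e E t := by
  unfold SW
  rw [Multiset.map_map, ← Multiset.sum_map_mul_left]
  congr 1
  apply Multiset.map_congr rfl
  intro x _
  simp only [Function.comp_apply]
  rw [← saw_mul_level hm hle]
  congr 2; ring

lemma check21 (E : List ℕ) (h : ∀ t : ZMod 21, t.val.gcd 21 = 1 →
    (E.map fun x : ℕ => saw (t * (x : ZMod 21))).sum = 0) :
    ∀ t, Nat.Coprime t 21 → SW 21 (E : Multiset ℕ) t = 0 := by
  intro t ht
  have h1 := h (t : ZMod 21) (by
    rw [ZMod.val_natCast, ← Nat.gcd_rec, Nat.gcd_comm]; exact ht)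
  unfold SW
  rw [Multiset.map_coe, Multiset.sum_coe]
  push_cast
  exact h1

lemma check3 (E : List ℕ) (τ : ℤ) (h1 : (E.map fun x : ℕ => saw (x : ZMod 3)).sum = 3 * τ)
    (h2 : (E.map fun x : ℕ => saw (2 * (x : ZMod 3))).sum = - (3 * τ)) :
    ∀ z, Nat.Coprime z 3 → SW 3 (E : Multiset ℕ) z = 3 * (τ * chi z) := by
  intro z hz
  have hz3 : z % 3 = 1 ∨ z % 3 = 2 := by
    have : ¬ 3 ∣ z := by
      rw [← Nat.Prime.coprime_iff_not_dvd Nat.prime_three, Nat.coprime_comm]; exact hz
    omega
  unfold chi
  rcases hz3 with h | h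
  · rw [if_pos h, mul_one, SW_congr _ (show z ≡ 1 [MOD 3] from h)]
    unfold SW
    rw [Multiset.map_coe, Multiset.sum_coe, ← h1]
    simp
  · rw [if_neg (by omega), SW_congr _ (show z ≡ 2 [MOD 3] from h)]
    unfold SW
    rw [Multiset.map_coe, Multiset.sum_coe]
    push_cast
    rw [h2]; ring

set_option maxRecDepth 100000 in
/-- the multisets of level 21 -/
lemma exists_E (τ : ℤ) (hτ : τ = -2 ∨ τ = -1 ∨ τ = 1 ∨ τ = 2) :
    ∃ E : Multiset ℕ, (∀ x ∈ E, ¬ 7 ∣ x) ∧ (∀ t, Nat.Coprime t 21 → SW 21 E t = 0) ∧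
      ∀ z, Nat.Coprime z 3 → SW 3 E z = 3 * (τ * chi z) := by
  rcases hτ with rfl | rfl | rfl | rfl
  · refine ⟨([1, 4, 10, 13, 16, 19] : List ℕ), ?_, check21 _ (by decide), check3 _ _ (by decide)
      (by decide)⟩
    intro x hx
    simp only [Multiset.mem_coe, List.mem_cons, List.not_mem_nil, or_false] at hx
    omega
  · refine ⟨([1, 4, 18, 19] : List ℕ), ?_, check21 _ (by decide), check3 _ _ (by decide)
      (by decide)⟩
    intro x hx
    simp only [Multiset.mem_coe, List.mem_cons, List.not_mem_nil, or_false] at hx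
    omega
  · refine ⟨([20, 17, 3, 2] : List ℕ), ?_, check21 _ (by decide), check3 _ _ (by decide)
      (by decide)⟩
    intro x hx
    simp only [Multiset.mem_coe, List.mem_cons, List.not_mem_nil, or_false] at hx
    omega
  · refine ⟨([20, 17, 11, 8, 5, 2] : List ℕ), ?_, check21 _ (by decide), check3 _ _ (by decide)
      (by decide)⟩
    intro x hx
    simp only [Multiset.mem_coe, List.mem_cons, List.not_mem_nil, or_false] at hx
    omega


lemma good_smooth {m : ℕ} (h : (∀ p : ℕ, p.Prime → p ∣ m → p = 3 ∨ p = 5) ∨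
    ∀ p : ℕ, p.Prime → p ∣ m → p = 3 ∨ p = 7) : GoodDegree (2 * m) := by
  rcases h with h | h
  · left
    intro p hp hpm
    rcases (Nat.Prime.dvd_mul hp).mp hpm with h1 | h1
    · exact Or.inl ((Nat.prime_dvd_prime_iff_eq hp Nat.prime_two).mp h1)
    · exact Or.inr (h p hp h1)
  · right; left
    intro p hp hpm
    rcases (Nat.Prime.dvd_mul hp).mp hpm with h1 | h1
    · exact Or.inl ((Nat.prime_dvd_prime_iff_eq hp Nat.prime_two).mp h1)
    · exact Or.inr (h p hp h1)

lemma good42 : GoodDegree (2 * 21) := good_smooth (Or.inr (by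
  intro p hp h
  rw [show 21 = 3 * 7 by norm_num] at h
  rcases (Nat.Prime.dvd_mul hp).mp h with h1 | h1
  · exact Or.inl ((Nat.prime_dvd_prime_iff_eq hp Nat.prime_three).mp h1)
  · exact Or.inr ((Nat.prime_dvd_prime_iff_eq hp (by norm_num)).mp h1)))

lemma good66 : GoodDegree (2 * 33) := by
  right; right; right; left
  exact ⟨1, 1, by norm_num⟩

lemma good78 : GoodDegree (2 * 39) := by
  right; right; right; right
  exact ⟨1, 1, by norm_num⟩

/-- the primes of a bad odd number -/
lemma bad_primes {m : ℕ} (hodd : m % 2 = 1) (hg : ¬ GoodDegree (2 * m)) :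
    (∃ q, q.Prime ∧ q ∣ m ∧ 17 ≤ q) ∨ 13 ∣ m ∨ 11 ∣ m ∨ 25 ∣ m ∨ 49 ∣ m ∨
      ∃ a, m = 7 * (3 ^ a * 5) := by
  have hm : m ≠ 0 := by rintro rfl; simp at hodd
  by_cases h17 : ∃ q, q.Prime ∧ q ∣ m ∧ 17 ≤ q
  · exact Or.inl h17
  right
  by_cases h13 : 13 ∣ m
  · exact Or.inl h13
  right
  by_cases h11 : 11 ∣ m
  · exact Or.inl h11
  right
  by_cases h25 : 25 ∣ m
  · exact Or.inl h25
  right
  by_cases h49 : 49 ∣ m
  · exact Or.inl h49
  right
  push Not at h17
  have hpr : ∀ p, p.Prime → p ∣ m → p = 3 ∨ p = 5 ∨ p = 7 := by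
    intro p hp hpm
    have h1 := h17 p hp hpm
    have h2 := hp.two_le
    interval_cases p
    all_goals first
      | (exfalso; omega)
      | (exfalso; revert hp; norm_num; done)
      | simp
  have h5 : 5 ∣ m := by
    by_contra h5
    apply hg
    apply good_smooth
    right
    intro p hp hpm
    rcases hpr p hp hpm with h | h | h
    · exact Or.inl h
    · exact absurd (h ▸ hpm) h5
    · exact Or.inr h
  have h7 : 7 ∣ m := by
    by_contra h7
    apply hg
    apply good_smooth
    left
    intro p hp hpm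
    rcases hpr p hp hpm with h | h | h
    · exact Or.inl h
    · exact Or.inr h
    · exact absurd (h ▸ hpm) h7
  obtain ⟨w, hw⟩ : 35 ∣ m := by
    rw [show 35 = 5 * 7 by norm_num]
    exact Nat.Coprime.mul_dvd_of_dvd_of_dvd (by norm_num) h5 h7
  have hw0 : w ≠ 0 := by rintro rfl; simp at hw; exact hm hw
  have hw3 : ∀ {p : ℕ}, p.Prime → p ∣ w → p = 3 := by
    intro p hp hpw
    rcases hpr p hp (by rw [hw]; exact hpw.mul_left 35) with h | h | h
    · exact h
    · exfalso
      subst h
      apply h25
      obtain ⟨v, hv⟩ := hpw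
      exact ⟨7 * v, by rw [hw, hv]; ring⟩
    · exfalso
      subst h
      apply h49
      obtain ⟨v, hv⟩ := hpw
      exact ⟨5 * v, by rw [hw, hv]; ring⟩
  have h3 := Nat.eq_prime_pow_of_unique_prime_dvd hw0 hw3
  exact ⟨w.primeFactorsList.length, by rw [hw]; conv_lhs => rw [h3]
                                       ring⟩


lemma mem_split {q : ℕ} {A : Multiset ℕ} {a : ℕ} (ha : a ∈ A) :
    a ∈ A.filter (fun a => ¬ q ∣ a) ∨
      ∃ b ∈ (A.filter fun a => q ∣ a).map (fun a => a / q), a = q * b := by
  by_cases h : q ∣ a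
  · exact Or.inr ⟨a / q, Multiset.mem_map_of_mem _ (Multiset.mem_filter.mpr ⟨ha, h⟩),
      (Nat.mul_div_cancel' h).symm⟩
  · exact Or.inl (Multiset.mem_filter.mpr ⟨ha, h⟩)

lemma card_split (q : ℕ) (A : Multiset ℕ) :
    Multiset.card (A.filter fun a => ¬ q ∣ a) +
      Multiset.card ((A.filter fun a => q ∣ a).map fun a => a / q) = Multiset.card A := by
  rw [Multiset.card_map, ← Multiset.card_add, add_comm, Multiset.filter_add_not]

lemma ndvd_split {q d m : ℕ} (hqd : q * d = m) {A : Multiset ℕ} (hA : ∀ a ∈ A, ¬ m ∣ a) :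
    ∀ b ∈ (A.filter fun a => q ∣ a).map (fun a => a / q), ¬ d ∣ b := by
  intro b hb h
  obtain ⟨a, ha, rfl⟩ := Multiset.mem_map.mp hb
  obtain ⟨ha1, ha2⟩ := Multiset.mem_filter.mp ha
  apply hA a ha1
  have := Nat.mul_dvd_mul_left q h
  rwa [Nat.mul_div_cancel' ha2, hqd] at this

lemma factor_pos {q m : ℕ} (hq : q.Prime) (hqm : q ∣ m) (hm : m ≠ 0) (h3 : 3 ≤ q) :
    2 < q ^ (m.factorization q) := by
  have h1 : 0 < m.factorization q := hq.factorization_pos_of_dvd hm hqm
  calc 2 < q := h3
    _ = q ^ 1 := (pow_one q).symm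
    _ ≤ q ^ (m.factorization q) := Nat.pow_le_pow_right hq.pos h1

theorem six_zero : ∀ m : ℕ, m % 2 = 1 → ∀ A : Multiset ℕ, Multiset.card A ≤ 6 →
    (∀ a ∈ A, ¬ m ∣ a) → (∀ t, Nat.Coprime t m → SW m A t = 0) →
    ∀ (Q : Type) [AddCommGroup Q] (C : ZMod (2 * m) → Q), OddDist C → Kills m C →
      (A.map fun a : ℕ => C ((2 * a : ℕ) : ZMod (2 * m))).sum = 0 := by
  intro m
  induction m using Nat.strong_induction_on with
  | _ m ih =>
  intro hodd A hcard hA hrel Q _ C hC hK
  have hm : m ≠ 0 := by rintro rfl; simp at hodd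
  have hN : NeZero m := ⟨hm⟩
  by_cases hg : GoodDegree (2 * m)
  · have h1 := hK 1 m (one_mul m) hg A hA hrel
    simpa only [one_mul] using h1
  have hev := card_even hodd hA hrel
  have hcC : OddDist (fun b : ZMod m => C (iota 2 b)) := hC.comp_iota rfl
  have hcv : ∀ a : ℕ, C (iota 2 (a : ZMod m)) = C ((2 * a : ℕ) : ZMod (2 * m)) := by
    intro a; rw [iota_natCast rfl]
  -- the part divisible by `q`
  have step : ∀ q d : ℕ, q.Prime → q * d = m →
      (∀ t, Nat.Coprime t d → SW d ((A.filter fun a => q ∣ a).map fun a => a / q) t = 0) →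
      ((A.filter fun a => ¬ q ∣ a).map fun a : ℕ => C ((2 * a : ℕ) : ZMod (2 * m))).sum = 0 →
      (A.map fun a : ℕ => C ((2 * a : ℕ) : ZMod (2 * m))).sum = 0 := by
    intro q d hq hqd h1 h2
    have hd0 : d ≠ 0 := by rintro rfl; rw [mul_zero] at hqd; exact hm hqd.symm
    have hdodd : d % 2 = 1 := by
      rw [← hqd, ← Nat.odd_iff, Nat.odd_mul] at hodd
      exact Nat.odd_iff.mp hodd.2
    have hdm : d < m := by
      rw [← hqd]
      have h3 := hq.two_le
      have h4 : 0 < d := Nat.pos_of_ne_zero hd0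
      nlinarith
    have hNd : NeZero (2 * d) := ⟨by omega⟩
    rw [split_sum (q := q), h2, zero_add]
    have h5 := ih d hdm hdodd ((A.filter fun a => q ∣ a).map fun a => a / q)
      (by have := card_split q A; omega) (ndvd_split hqd hA) h1 Q
      (fun b : ZMod (2 * d) => C (iota q b)) (hC.comp_iota (by rw [← hqd]; ring)) (hK.comp hqd)
    rw [← h5]
    congr 1
    apply Multiset.map_congr rfl
    intro b _
    rw [iota_natCast (by rw [← hqd]; ring)]
    congr 2; ring
  -- the case of vanishing signs
  have hzero : ∀ q d : ℕ, q.Prime → q * d = m →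
      (∀ z, Nat.Coprime z d → ST d (A.filter fun a => ¬ q ∣ a) z = 0) →
      (¬ q ∣ d ∨ 12 < q * (q - 1)) →
      (A.map fun a : ℕ => C ((2 * a : ℕ) : ZMod (2 * m))).sum = 0 := by
    intro q d hq hqd h0 hsm
    have H := mkSetting hq hqd hodd A hrel
    have hc1 := card_split q A
    obtain ⟨h1, h2⟩ := H.peel0 h0 (hsm.imp id fun h => by omega)
    apply step q d hq hqd h1
    have h3 := h2 Q _ hcC
    rw [← h3]
    congr 1
    apply Multiset.map_congr rfl
    intro a _
    exact (hcv a).symm
  rcases bad_primes hodd hg with ⟨q, hq, ⟨d, hd⟩, h17⟩ | h13 | h11 | h25 | h49 | ⟨a, ha⟩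
  · have H := mkSetting hq hd.symm hodd A hrel
    have hc1 := card_split q A
    refine hzero q d hq hd.symm (H.case_big (by omega) (Or.inr h17)) (Or.inr ?_)
    have : 16 ≤ q - 1 := by omega
    nlinarith
  · -- q = 13
    obtain ⟨d, hd⟩ := h13
    have hq : Nat.Prime 13 := by norm_num
    have H := mkSetting hq hd.symm hodd A hrel
    have hc1 := card_split 13 A
    by_cases hqd : 13 ∣ d
    · exact hzero 13 d hq hd.symm (H.case_big (by omega) (Or.inl ⟨hqd, by norm_num⟩))
        (Or.inr (by norm_num))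
    · rcases H.case13 rfl hqd (by omega) with h0 | ⟨h3, h1, h2⟩
      · exact hzero 13 d hq hd.symm h0 (Or.inl hqd)
      · obtain ⟨l, hl⟩ := h3
        refine hK.lower hm (l := l) (e := 39) (by rw [hd, hl]; ring) good78 ?_ hA hrel
        intro a ha
        rcases mem_split (q := 13) ha with h | ⟨b, hb, _⟩
        · have h4 := h1 a h
          rw [hl] at h4
          exact Nat.dvd_of_mul_dvd_mul_left (by norm_num) h4
        · rw [h2] at hb
          exact absurd hb (Multiset.notMem_zero b)
  · -- q = 11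
    obtain ⟨d, hd⟩ := h11
    have hq : Nat.Prime 11 := by norm_num
    have H := mkSetting hq hd.symm hodd A hrel
    have hc1 := card_split 11 A
    by_cases hqd : 11 ∣ d
    · exact hzero 11 d hq hd.symm (H.case_big (by omega) (Or.inl ⟨hqd, by norm_num⟩))
        (Or.inr (by norm_num))
    · rcases H.case11 rfl hqd (by omega) (by omega) (ndvd_split hd.symm hA) (by
        intro t ht h
        have h3 := H.hrel t ht
        rw [h] at h3
        simpa [SW] using h3) with h0 | ⟨h3, h1, h2⟩
      · exact hzero 11 d hq hd.symm h0 (Or.inl hqd)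
      · obtain ⟨l, hl⟩ := h3
        refine hK.lower hm (l := l) (e := 33) (by rw [hd, hl]; ring) good66 ?_ hA hrel
        intro a ha
        rcases mem_split (q := 11) ha with h | ⟨b, hb, rfl⟩
        · have h4 := h1 a h
          rw [hl] at h4
          exact Nat.dvd_of_mul_dvd_mul_left (by norm_num) h4
        · have h4 := h2 b hb
          rw [hl] at h4
          exact (Nat.dvd_of_mul_dvd_mul_left (by norm_num) h4).mul_left 11
  · -- 25 ∣ m
    obtain ⟨d', hd'⟩ := h25
    obtain ⟨d, hd5⟩ : ∃ d, d = 5 * d' := ⟨_, rfl⟩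
    have hd : 5 * d = m := by rw [hd', hd5]; ring
    have hqd : 5 ∣ d := ⟨d', hd5⟩
    have hq : Nat.Prime 5 := by norm_num
    have H := mkSetting hq hd hodd A hrel
    have hc1 := card_split 5 A
    have hd0 : d ≠ 0 := H.hd
    rcases H.case5 rfl hqd (by omega) (by omega) (ndvd_split hd hA) with h0 |
      ⟨c, b, hcc, hc5, hb, hcb, h5c⟩
    · exact hzero 5 d hq hd h0 (Or.inr (by norm_num))
    · -- comparison with a coset
      have hBq : ∀ x ∈ (Multiset.range 5).map (fun i => c + i * d), ¬ 5 ∣ x := by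
        intro x hx h
        obtain ⟨i, _, rfl⟩ := Multiset.mem_map.mp hx
        exact h5c ((Nat.dvd_add_left (hqd.mul_left i)).mp h)
      have hSWd : ∀ z, SW d (A.filter fun a => ¬ 5 ∣ a) z =
          SW d ((Multiset.range 5).map fun i => c + i * d) z := by
        intro z
        unfold SW
        rw [Multiset.map_map]
        have e1 : (A.filter fun a => ¬ 5 ∣ a).map (fun a => saw ((z * a : ℕ) : ZMod d)) =
            (A.filter fun a => ¬ 5 ∣ a).map (fun _ => saw ((z * c : ℕ) : ZMod d)) :=
          Multiset.map_congr rfl fun a ha => saw_per _ _ ((hcc a ha).mul_left z)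
        have e2 : (Multiset.range 5).map ((fun a : ℕ => saw ((z * a : ℕ) : ZMod d)) ∘
            fun i => c + i * d) = (Multiset.range 5).map (fun _ => saw ((z * c : ℕ) : ZMod d)) :=
          Multiset.map_congr rfl fun i _ => by
            simp only [Function.comp_apply]
            apply saw_per
            apply Nat.ModEq.mul_left
            have : c + i * d ≡ c + 0 [MOD d] :=
              Nat.ModEq.add_left c ((Nat.modEq_zero_iff_dvd).mpr (Dvd.intro_left _ rfl))
            exact this
        rw [e1, e2, Multiset.map_const', Multiset.map_const', hc5, Multiset.card_range]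
      have hcomp := kill2 hq (Dvd.intro d hd) hm (factor_pos hq (Dvd.intro d hd) hm (by norm_num))
        (A := A.filter fun a => ¬ 5 ∣ a) (B := (Multiset.range 5).map fun i => c + i * d)
        H.hA hBq (by
          intro j t ht
          rcases Nat.eq_zero_or_pos j with rfl | hj
          · rw [pow_zero, one_mul]
            have h1 := H.hrel t ht
            rw [hb] at h1
            have h2 : SW d {b} t = saw ((t * b : ℕ) : ZMod d) := by simp [SW]
            have hNd : NeZero d := ⟨hd0⟩
            have h3 : saw ((t * b : ℕ) : ZMod d) = - saw ((t * c : ℕ) : ZMod d) := by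
              rw [← saw_neg]
              congr 1
              have h4 : ((t * (c + b) : ℕ) : ZMod d) = 0 := by
                rw [ZMod.natCast_eq_zero_iff]; exact hcb.mul_left t
              push_cast at h4 ⊢
              linear_combination h4
            rw [h2, h3] at h1
            have h5 : SW m ((Multiset.range 5).map fun i => c + i * d) t =
                5 * saw ((t * c : ℕ) : ZMod d) := by
              unfold SW
              rw [Multiset.map_map]
              have h6 := saw_coset hq hd hm (a := t) (by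
                intro h
                have h7 : 5 ∣ Nat.gcd t m := Nat.dvd_gcd h (Dvd.intro d hd)
                rw [ht] at h7
                omega) (t * c)
              rw [saw_mul_level hm hd, Nat.cast_ofNat (R := ℤ)] at h6
              rw [← h6]
              change ((Multiset.range 5).map _).sum = ((Multiset.range 5).map _).sum
              congr 1
              apply Multiset.map_congr rfl
              intro i _
              simp only [Function.comp_apply]
              congr 1
              push_cast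
              ring
            rw [h5]
            rw [Nat.cast_ofNat (R := ℤ)] at h1
            linarith
          · obtain ⟨i, rfl⟩ : ∃ i, j = i + 1 := ⟨j - 1, by omega⟩
            rw [show 5 ^ (i + 1) * t = 5 * (5 ^ i * t) by ring, SW_level hm hd, SW_level hm hd,
              hSWd]) Q _ hcC
      rw [split_sum (q := 5)]
      have e1 : ((A.filter fun a => ¬ 5 ∣ a).map
          fun a : ℕ => C ((2 * a : ℕ) : ZMod (2 * m))).sum = C (iota 2 ((5 * c : ℕ) : ZMod m)) := by
        have e2 : ((A.filter fun a => ¬ 5 ∣ a).map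
            fun a : ℕ => C ((2 * a : ℕ) : ZMod (2 * m))).sum =
            ((A.filter fun a => ¬ 5 ∣ a).map fun a : ℕ => C (iota 2 (a : ZMod m))).sum := by
          congr 1
          apply Multiset.map_congr rfl
          intro a _
          exact (hcv a).symm
        rw [e2, hcomp, Multiset.map_map]
        have e3 := hcC.dist 5 d hq hd (c : ZMod m)
        push_cast at e3 ⊢
        rw [← e3]
        change ((Multiset.range 5).map _).sum = ((Multiset.range 5).map _).sum
        congr 1
        apply Multiset.map_congr rfl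
        intro i _
        simp only [Function.comp_apply]
        congr 2
        push_cast
        ring
      rw [e1, hb, Multiset.map_singleton, Multiset.sum_singleton, ← hcv]
      have e4 : ((5 * b : ℕ) : ZMod m) = - ((5 * c : ℕ) : ZMod m) := by
        have h4 : ((5 * (c + b) : ℕ) : ZMod m) = 0 := by
          rw [ZMod.natCast_eq_zero_iff, ← hd]; exact Nat.mul_dvd_mul_left 5 hcb
        push_cast at h4 ⊢
        linear_combination h4
      rw [e4, hcC.neg, add_neg_cancel]
  · -- 49 ∣ m
    obtain ⟨d', hd'⟩ := h49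
    obtain ⟨d, hd7⟩ : ∃ d, d = 7 * d' := ⟨_, rfl⟩
    have hd : 7 * d = m := by rw [hd', hd7]; ring
    have hqd : 7 ∣ d := ⟨d', hd7⟩
    have hq : Nat.Prime 7 := by norm_num
    have H := mkSetting hq hd hodd A hrel
    have hc1 := card_split 7 A
    exact hzero 7 d hq hd (H.case_big (by omega) (Or.inl ⟨hqd, by norm_num⟩))
      (Or.inr (by norm_num))
  · -- q = 7
    obtain ⟨d, hd3⟩ : ∃ d, d = 3 ^ a * 5 := ⟨_, rfl⟩
    have hd : 7 * d = m := by rw [ha, hd3]
    have hq : Nat.Prime 7 := by norm_num
    have hqd : ¬ 7 ∣ d := by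
      rw [hd3]
      intro h
      rcases (Nat.Prime.dvd_mul hq).mp h with h | h
      · have := hq.dvd_of_dvd_pow h
        omega
      · omega
    have H := mkSetting hq hd hodd A hrel
    have hc1 := card_split 7 A
    rcases H.case7 rfl hqd (by omega) (by omega) (ndvd_split hd hA)
      (neg_two_pow' (a := a) (by rw [hd3])) with h0 | ⟨h3, h1, h2⟩ | ⟨h3, h1, τ, hτ, hSW⟩
    · exact hzero 7 d hq hd h0 (Or.inl hqd)
    · -- level 21 and a pair
      have hpair : ((((A.filter fun a => 7 ∣ a).map fun a => a / 7)).map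
          fun b : ℕ => C ((2 * (7 * b) : ℕ) : ZMod (2 * m))).sum = 0 ∧
          ∀ t, SW d ((A.filter fun a => 7 ∣ a).map fun a => a / 7) t = 0 := by
        rcases h2 with h2 | ⟨b1, b2, h2, h4⟩
        · rw [h2]; simp [SW]
        · rw [h2]
          constructor
          · simp only [Multiset.insert_eq_cons, Multiset.map_cons, Multiset.map_singleton,
              Multiset.sum_cons, Multiset.sum_singleton]
            have h5 : ((2 * (7 * b2) : ℕ) : ZMod (2 * m)) = - ((2 * (7 * b1) : ℕ) : ZMod (2 * m)) := by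
              have h6 : ((2 * (7 * (b1 + b2)) : ℕ) : ZMod (2 * m)) = 0 := by
                rw [ZMod.natCast_eq_zero_iff, ← hd]
                exact Nat.mul_dvd_mul_left 2 (Nat.mul_dvd_mul_left 7 h4)
              push_cast at h6 ⊢
              linear_combination h6
            rw [h5, hC.neg, add_neg_cancel]
          · intro t
            have hNd : NeZero d := ⟨H.hd⟩
            unfold SW
            simp only [Multiset.insert_eq_cons, Multiset.map_cons, Multiset.map_singleton,
              Multiset.sum_cons, Multiset.sum_singleton]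
            have h5 : ((t * b2 : ℕ) : ZMod d) = - ((t * b1 : ℕ) : ZMod d) := by
              have h6 : ((t * (b1 + b2) : ℕ) : ZMod d) = 0 := by
                rw [ZMod.natCast_eq_zero_iff]; exact h4.mul_left t
              push_cast at h6 ⊢
              linear_combination h6
            rw [h5, saw_neg, add_neg_cancel]
      rw [split_sum (q := 7), hpair.1, add_zero]
      obtain ⟨l, hl⟩ := h3
      refine hK.lower hm (l := l) (e := 21) (by rw [← hd, hl]; ring) good42 ?_ ?_ ?_
      · intro x hx
        have h4 := h1 x hx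
        rw [hl] at h4
        exact Nat.dvd_of_mul_dvd_mul_left (by norm_num) h4
      · intro x hx
        exact hA x (Multiset.mem_filter.mp hx).1
      · intro t ht
        have h4 := H.hrel t ht
        rw [hpair.2 t] at h4
        simpa using h4
    · -- comparison with level 21
      obtain ⟨l, hl⟩ := h3
      obtain ⟨E, hE7, hE21, hE3⟩ := exists_E τ hτ
      have hlm : l * 21 = m := by rw [← hd, hl]; ring
      have hl3 : l * 3 = d := by rw [hl]; ring
      have hcomp := kill2 hq (Dvd.intro d hd) hm (factor_pos hq (Dvd.intro d hd) hm (by norm_num))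
        (A := A.filter fun a => ¬ 7 ∣ a) (B := E.map fun x => l * x)
        H.hA (by
          intro x hx h
          obtain ⟨y, hy, rfl⟩ := Multiset.mem_map.mp hx
          rcases (Nat.Prime.dvd_mul hq).mp h with h | h
          · exact hqd (by rw [hl]; exact h.mul_left 3)
          · exact hE7 y hy h) (by
          intro j t ht
          have htd : Nat.Coprime t d := Nat.Coprime.coprime_dvd_right (Dvd.intro_left 7 hd) ht
          rcases Nat.eq_zero_or_pos j with rfl | hj
          · rw [pow_zero, one_mul]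
            have h4 := H.hrel t ht
            rw [h1] at h4
            have h5 : SW d 0 t = 0 := by simp [SW]
            rw [h5, mul_zero, add_zero] at h4
            rw [h4, SW_lmul hm hlm, hE21 t (Nat.Coprime.coprime_dvd_right (Dvd.intro_left l hlm) ht),
              mul_zero]
          · obtain ⟨i, rfl⟩ : ∃ i, j = i + 1 := ⟨j - 1, by omega⟩
            have hc : Nat.Coprime (7 ^ i * t) d := Nat.Coprime.mul_left
              (Nat.Coprime.pow_left _ ((Nat.Prime.coprime_iff_not_dvd hq).mpr hqd)) htd
            rw [show 7 ^ (i + 1) * t = 7 * (7 ^ i * t) by ring, SW_level hm hd, SW_level hm hd,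
              hSW _ hc, SW_lmul H.hd hl3,
              hE3 _ (Nat.Coprime.coprime_dvd_right (Dvd.intro_left l hl3) hc), ← hl3]
            push_cast
            ring) Q _ hcC
      rw [split_sum (q := 7), h1, Multiset.map_zero, Multiset.sum_zero, add_zero]
      have e2 : ((A.filter fun a => ¬ 7 ∣ a).map
          fun a : ℕ => C ((2 * a : ℕ) : ZMod (2 * m))).sum =
          ((A.filter fun a => ¬ 7 ∣ a).map fun a : ℕ => C (iota 2 (a : ZMod m))).sum := by
        congr 1
        apply Multiset.map_congr rfl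
        intro a _
        exact (hcv a).symm
      rw [e2, hcomp, Multiset.map_map]
      rw [← hK l 21 hlm good42 E (fun x hx h => hE7 x hx (dvd_trans (by norm_num) h)) hE21]
      congr 1
      apply Multiset.map_congr rfl
      intro x _
      simp only [Function.comp_apply]
      exact hcv (l * x)


lemma kills_cQ {m : ℕ} (hodd : m % 2 = 1) :
    Kills m (cQ (2 * m) (SurfaceCharacter (2 * m))) := by
  intro l e hle hg A hA hrel
  have hm : m ≠ 0 := by rintro rfl; simp at hodd
  have he0 : e ≠ 0 := by rintro rfl; rw [mul_zero] at hle; exact hm hle.symm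
  have heodd : e % 2 = 1 := by
    rw [← hle, ← Nat.odd_iff, Nat.odd_mul] at hodd
    exact Nat.odd_iff.mp hodd.2
  have hN : NeZero (2 * e) := ⟨by omega⟩
  have hN' : NeZero (2 * m) := ⟨by omega⟩
  have hNe : NeZero e := ⟨he0⟩
  by_cases hne : A = 0
  · rw [hne]; simp
  have hle2 : l * (2 * e) = 2 * m := by rw [← hle]; ring
  set s : Multiset (ZMod (2 * e)) := A.map fun a : ℕ => ((2 * a : ℕ) : ZMod (2 * e)) with hs
  have hsH : IsHodge (2 * e) s := by
    apply isHodge_of_saw
    · intro h
      obtain ⟨a, ha, ha0⟩ := Multiset.mem_map.mp h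
      rw [ZMod.natCast_eq_zero_iff] at ha0
      exact hA a ha (Nat.dvd_of_mul_dvd_mul_left (by norm_num) ha0)
    · rw [hs, Multiset.card_map]
      exact Nat.even_iff.mpr (card_even heodd hA hrel)
    · intro t
      have ht := ZMod.val_coe_unit_coprime t
      have h1 := hrel (t : ZMod (2 * e)).val (Nat.Coprime.coprime_mul_left_right ht)
      rw [hs, Multiset.map_map]
      have h2 : A.map ((fun a => saw ((t : ZMod (2 * e)) * a)) ∘
          fun a : ℕ => ((2 * a : ℕ) : ZMod (2 * e))) =
          A.map fun a => (2 : ℤ) * saw (((t : ZMod (2 * e)).val * a : ℕ) : ZMod e) := by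
        apply Multiset.map_congr rfl
        intro a _
        simp only [Function.comp_apply]
        have h3 := saw_mul_level (m := 2 * e) (d := e) (q := 2) (by omega) rfl
          ((t : ZMod (2 * e)).val * a)
        rw [Nat.cast_ofNat (R := ℤ)] at h3
        rw [← h3]
        congr 1
        push_cast
        rw [ZMod.natCast_zmod_val]
        ring
      rw [h2, Multiset.sum_map_mul_left]
      unfold SW at h1
      rw [h1, mul_zero]
  have hsne : s ≠ 0 := by
    intro h
    rw [hs, Multiset.map_eq_zero] at h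
    exact hne h
  have hgen := Families.main (2 * e) (by omega) hg s hsH hsne
  have h3 := gen_sum_zero ((cQ_oddDist (m := 2 * m) (base := SurfaceCharacter (2 * m))).comp_iota
    hle2) (by
    rintro u ⟨hu, hcu⟩
    have h3 := cQ_sum_eq_zero (Generated.ofBase (m := 2 * m) (base := SurfaceCharacter (2 * m))
      (u.map (iota l)) ⟨hu.iota hle2, by rw [Multiset.card_map]; exact hcu⟩)
    rw [Multiset.map_map] at h3
    exact h3) hgen
  rw [hs, Multiset.map_map] at h3
  rw [← h3]
  congr 1
  apply Multiset.map_congr rfl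
  intro a _
  simp only [Function.comp_apply]
  rw [iota_natCast hle2]
  congr 2
  ring

/-- **Fourfolds of odd degree.** -/
theorem main_odd {m : ℕ} (hodd : m % 2 = 1) (s : Multiset (ZMod m)) (hs : IsHodge m s)
    (hcard : Multiset.card s ≤ 6) (hne : s ≠ 0) :
    Generated (2 * m) (SurfaceCharacter (2 * m))
      (s.map fun a => ((2 * a.val : ℕ) : ZMod (2 * m))) := by
  have hm : m ≠ 0 := by rintro rfl; simp at hodd
  have hN : NeZero m := ⟨hm⟩
  have hN' : NeZero (2 * m) := ⟨by omega⟩
  have hb : ∀ s, SurfaceCharacter (2 * m) s → (0 : ZMod (2 * m)) ∉ s ∧ Even (Multiset.card s) :=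
    fun s h => ⟨h.1.1, h.1.2.1⟩
  have hbn : ∀ s, SurfaceCharacter (2 * m) s → SurfaceCharacter (2 * m) (s.map Neg.neg) := by
    rintro s ⟨h1, h2⟩
    exact ⟨h1.neg, by rw [Multiset.card_map]; exact h2⟩
  have hiota : (s.map fun a => ((2 * a.val : ℕ) : ZMod (2 * m))) =
      s.map (iota 2 : ZMod m → ZMod (2 * m)) := rfl
  have h2s := hs.iota (m := 2 * m) (k := 2) rfl
  have h1 := six_zero m hodd (s.map ZMod.val) (by rwa [Multiset.card_map]) (by
    intro a ha h
    obtain ⟨b, hb', rfl⟩ := Multiset.mem_map.mp ha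
    have h3 := (ZMod.natCast_eq_zero_iff b.val m).mpr h
    rw [ZMod.natCast_zmod_val] at h3
    exact hs.1 (h3 ▸ hb')) (fun t ht => saw_rel s hs t ht) _
    (cQ (2 * m) (SurfaceCharacter (2 * m))) cQ_oddDist (kills_cQ hodd)
  rw [Multiset.map_map] at h1
  have h2 : ((s.map fun a => ((2 * a.val : ℕ) : ZMod (2 * m))).map
      (cQ (2 * m) (SurfaceCharacter (2 * m)))).sum = 0 := by
    rw [Multiset.map_map]
    exact h1
  rw [cQ_sum, QuotientAddGroup.eq_zero_iff] at h2
  rw [hiota] at h2 ⊢
  exact generated_of_mem_LL hb hbn h2s.1 h2s.2.1 (by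
    intro h
    rw [Multiset.map_eq_zero] at h
    exact hne h) h2

end Pool.Agent.Y2
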