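import Pool.Agent.Y2.Unram

/-!
Splitting a relation at a gap of the `p`-adic valuations of its entries.
-/

namespace Pool.Agent.Y2

open Finset Pool.Agent.H916R2

/-- odd distributions kill the multisets with entries prime to `q` which are relations at all
levels -/
theorem kill {q m : ℕ} (hq : q.Prime) (hqm : q ∣ m) (hm : m ≠ 0)
    (hq2 : 2 < q ^ (m.factorization q)) {A : Multiset ℕ} (hA : ∀ a ∈ A, ¬ q ∣ a)
    (hall : ∀ j t, Nat.Coprime t m → SW m A (q ^ j * t) = 0)
    (Q : Type) [AddCommGroup Q] (c : ZMod m → Q) (hc : OddDist c) :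
    (A.map fun a : ℕ => c (a : ZMod m)).sum = 0 := by
  classical
  have hTD : TD q m (PO q m) (fun n : ℕ => if q ∣ n then (0 : Q) else c (n : ZMod m)) := by
    refine ⟨?_, ?_, ?_⟩
    · intro x y hxy
      have h1 : q ∣ x ↔ q ∣ y := (hxy.of_dvd hqm).dvd_iff dvd_rfl
      have h2 : (x : ZMod m) = (y : ZMod m) := (ZMod.natCast_eq_natCast_iff _ _ _).mpr hxy
      simp only [h1, h2]
    · intro _ n hn
      simp only [if_pos hn]
    · intro r hr n
      obtain ⟨hr1, hr2, hr3⟩ := PO_prime hr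
      have hqmr : q ∣ m / r := dvd_div hq hqm hr1 hr2 hr3
      have h1 : ∀ i, (q ∣ n + i * (m / r) ↔ q ∣ n) := fun i => Nat.dvd_add_left (hqmr.mul_left i)
      have h2 : q ∣ r * n ↔ q ∣ n := by
        constructor
        · intro h
          rcases (Nat.Prime.dvd_mul hq).mp h with h | h
          · exact absurd ((Nat.prime_dvd_prime_iff_eq hq hr1).mp h) (Ne.symm hr3)
          · exact h
        · intro h; exact h.mul_left r
      simp only [h1, h2]
      by_cases hqn : q ∣ n
      · simp [hqn]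
      · simp only [hqn, if_false]
        have h3 := hc.dist r (m / r) hr1 (Nat.mul_div_cancel' hr2) (n : ZMod m)
        push_cast
        exact h3
  have h1 := univ_zero hq hqm hq2 hm A.toFinset (fun b => (A.count b : ℤ)) (fun b => b)
    (fun C hC hodd => by
      rw [sum_count_nat]
      have := star2 hq hm A 0 (fun _ => hA) (fun _ a ha => absurd ha (Multiset.notMem_zero a))
        (fun j t ht => by rw [hall j t ht]; simp [SW]) hC hodd
      rw [this]; simp) hTD
    (fun x y hxy => by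
      have h3 : q ∣ x ↔ q ∣ y := by
        constructor
        · intro h; exact (Nat.dvd_add_right h).mp (dvd_trans hqm hxy)
        · intro h; exact (Nat.dvd_add_left h).mp (dvd_trans hqm hxy)
      have h4 : (y : ZMod m) = -(x : ZMod m) := by
        have := (ZMod.natCast_eq_zero_iff (x + y) m).mpr hxy
        push_cast at this
        exact (neg_eq_of_add_eq_zero_right this).symm
      simp only [h3, h4, hc.neg]
      split_ifs <;> simp)
  rw [← h1, Finset.sum_multiset_map_count]
  refine sum_congr rfl fun b hb => ?_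
  rw [if_neg (hA b (Multiset.mem_toFinset.mp hb)), natCast_zsmul]

/-- relations at all levels from the top level and smallness -/
theorem all_levels {q k m' m : ℕ} (hq : q.Prime) (hk : 0 < k) (hqm : q ^ k * m' = m) (hm : m ≠ 0)
    (hqm' : ¬ q ∣ m') {A : Multiset ℕ} (hA : ∀ a ∈ A, ¬ q ∣ a)
    (h0 : ∀ t, Nat.Coprime t m → SW m A t = 0)
    (hL : ∀ z, Nat.Coprime z m' → 12 * |SW m' A z| < (Nat.totient (q ^ k) : ℤ) * m') :
    ∀ j t, Nat.Coprime t m → SW m A (q ^ j * t) = 0 := by
  have htow := tower hq hqm hm hA h0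
  have hun := unram hq hk hqm hm hqm' hA hL htow
  intro j t ht
  rcases lt_or_ge j k with hj | hj
  · exact htow j hj t ht
  · obtain ⟨l, rfl⟩ := Nat.exists_eq_add_of_le hj
    have h1 : q ^ (k + l) * t = q ^ k * (q ^ l * t) := by rw [pow_add]; ring
    rw [h1, SW_level hm hqm, hun, mul_zero]
    apply Nat.Coprime.mul_left
    · exact Nat.Coprime.pow_left _ ((Nat.Prime.coprime_iff_not_dvd hq).mpr hqm')
    · exact Nat.Coprime.coprime_dvd_right (Dvd.intro_left _ hqm) ht

lemma SW_decomp {P d m : ℕ} (hPd : P * d = m) (hm : m ≠ 0) (A : Multiset ℕ) (S : ℕ → Prop)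
    [DecidablePred S] (hS : ∀ a ∈ A, S a → P ∣ a) (t : ℕ) :
    SW m A t = SW m (A.filter fun a => ¬ S a) t + P * SW d ((A.filter S).map fun a => a / P) t := by
  have h1 : A = A.filter (fun a => ¬ S a) + A.filter S := by
    rw [add_comm]
    exact (Multiset.filter_add_not _ A).symm
  have h2 : SW m A t = SW m (A.filter fun a => ¬ S a) t + SW m (A.filter S) t := by
    conv_lhs => rw [h1]
    unfold SW
    rw [Multiset.map_add, Multiset.sum_add]
  rw [h2]
  congr 1
  unfold SW
  rw [Multiset.map_map, ← Multiset.sum_map_mul_left]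
  congr 1
  apply Multiset.map_congr rfl
  intro a ha
  have hPa : P ∣ a := hS a (Multiset.mem_filter.mp ha).1 (Multiset.mem_filter.mp ha).2
  simp only [Function.comp_apply]
  rw [← saw_mul_level hm hPd]
  congr 2
  conv_lhs => rw [← Nat.mul_div_cancel' hPa]
  ring

lemma sum_range_block {Q : Type*} [AddCommMonoid Q] (F : ℕ → Q) (a b : ℕ) :
    ∑ i ∈ range (a * b), F i = ∑ l ∈ range a, ∑ j ∈ range b, F (l * b + j) := by
  induction a with
  | zero => simp
  | succ a ih =>
    rw [Nat.succ_mul, Finset.sum_range_add, ih, sum_range_succ]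

lemma sum_range_periodic {r : ℕ} (G : ℕ → ℤ) (hG : ∀ i, G (i % r) = G i) (a : ℕ) :
    ∑ i ∈ range (a * r), G i = a * ∑ i ∈ range r, G i := by
  rw [sum_range_block]
  have : ∀ l ∈ range a, ∑ j ∈ range r, G (l * r + j) = ∑ j ∈ range r, G j := by
    intro l _
    refine sum_congr rfl fun j _ => ?_
    rw [← hG (l * r + j), Nat.mul_add_mod_self_right, hG]
  rw [sum_congr rfl this, sum_const, card_range, nsmul_eq_mul]

/-- the prime-to-`p` part -/
def pr (p a : ℕ) : ℕ := a / p ^ (a.factorization p)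

lemma pr_mul (p a : ℕ) : p ^ (a.factorization p) * pr p a = a := Nat.ordProj_mul_ordCompl_eq_self a p

lemma low_facts {p v a : ℕ} (hp : p.Prime) (ha : ¬ p ^ (v + 1) ∣ a) :
    a.factorization p ≤ v ∧ ¬ p ∣ pr p a := by
  have ha0 : a ≠ 0 := by rintro rfl; exact ha (dvd_zero _)
  refine ⟨?_, Nat.not_dvd_ordCompl hp ha0⟩
  by_contra hcon
  exact ha ((hp.pow_dvd_iff_le_factorization ha0).mpr (by omega))

lemma saw_coset_gen {P d m : ℕ} (hP : 0 < P) (hPd : P * d = m) (hm : m ≠ 0) {a : ℕ}
    (ha : Nat.Coprime a P) (x : ℕ) :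
    ∑ i ∈ range P, saw ((x + a * i * d : ℕ) : ZMod m) = saw ((P * x : ℕ) : ZMod m) := by
  have : NeZero m := ⟨hm⟩
  have h1 := coset_mul hP hPd (C := fun n : ℕ => saw (n : ZMod m)) saw_per ha x
  rw [h1]
  have h2 := saw_dist hPd (x : ZMod m)
  push_cast
  exact h2

/-- the averaged sawtooth for one low entry -/
lemma low_sum {p e' f m a : ℕ} (hp : p.Prime) (hmf : p ^ e' * f = m) (hm : m ≠ 0)
    (ha : a.factorization p ≤ e') (hpa : ¬ p ∣ pr p a) (t : ℕ) :
    ∑ i ∈ range (p ^ e'), saw (((t + i * f) * a : ℕ) : ZMod m) =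
      p ^ e' * (p ^ (a.factorization p) * saw ((t * pr p a : ℕ) : ZMod f)) := by
  set w := a.factorization p with hw
  obtain ⟨u, hu⟩ := Nat.exists_eq_add_of_le ha
  have hMm : p ^ w * (p ^ u * f) = m := by rw [← hmf, hu, pow_add]; ring
  have hM0 : p ^ u * f ≠ 0 := by intro h; rw [h, mul_zero] at hMm; exact hm hMm.symm
  have hpu : 0 < p ^ u := pow_pos hp.pos u
  have h1 : ∀ i, saw (((t + i * f) * a : ℕ) : ZMod m) =
      p ^ w * saw ((t * pr p a + pr p a * i * f : ℕ) : ZMod (p ^ u * f)) := by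
    intro i
    have h2 : (t + i * f) * a = p ^ w * (t * pr p a + pr p a * i * f) := by
      conv_lhs => rw [← pr_mul p a, ← hw]
      ring
    rw [h2, saw_mul_level hm hMm]
    push_cast; ring
  rw [sum_congr rfl fun i _ => h1 i, ← mul_sum, hu, pow_add]
  have hcop : Nat.Coprime (pr p a) (p ^ u) :=
    Nat.Coprime.pow_right _ ((Nat.coprime_comm).mp ((Nat.Prime.coprime_iff_not_dvd hp).mpr hpa))
  have h3 := sum_range_periodic (r := p ^ u)
    (fun i => saw ((t * pr p a + pr p a * i * f : ℕ) : ZMod (p ^ u * f))) (by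
      intro i
      apply saw_per
      apply Nat.ModEq.add_left
      exact Nat.ModEq.mul_right' f ((Nat.mod_modEq i (p ^ u)).mul_left _)) (p ^ w)
  rw [h3, saw_coset_gen hpu rfl hM0 hcop, saw_mul_level hM0 rfl]
  push_cast; ring

/-- **Splitting at a gap.** -/
theorem split_gap {p e v d m : ℕ} (hp : p.Prime) (hmd : p ^ e * d = m) (hm : m ≠ 0) (hve : v < e)
    {AL AH : Multiset ℕ} (hAL : ∀ a ∈ AL, ¬ p ^ (v + 1) ∣ a)
    (hc : 6 * Multiset.card AL ≤ p ^ (e - v - 1))
    (hrel : ∀ t, Nat.Coprime t m → SW m AL t + p ^ e * SW d AH t = 0) :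
    (∀ t, Nat.Coprime t d → SW d AH t = 0) ∧ ∀ t, Nat.Coprime t m → SW m AL t = 0 := by
  have hd : d ≠ 0 := by rintro rfl; rw [mul_zero] at hmd; exact hm hmd.symm
  obtain ⟨e', rfl⟩ : ∃ e', e = e' + 1 := ⟨e - 1, by omega⟩
  set f := p * d with hf
  have hmf : p ^ e' * f = m := by rw [hf, ← hmd]; ring
  have hf0 : f ≠ 0 := by intro h; rw [h, mul_zero] at hmf; exact hm hmf.symm
  have hpz : (0 : ℤ) < p := by exact_mod_cast hp.pos
  have key1 : ∀ t, Nat.Coprime t m → 6 * |SW d AH t| < d := by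
    intro t ht
    set W := SW d AH t with hW
    have htf : Nat.Coprime t f := Nat.Coprime.coprime_dvd_right (Dvd.intro_left _ hmf) ht
    have hval : ∀ i ∈ range (p ^ e'), SW m AL (t + i * f) = - (p ^ (e' + 1) * W) := by
      intro i _
      have h1 : Nat.Coprime (t + i * f) f := by
        rw [Nat.coprime_add_mul_right_left]; exact htf
      have h2 : Nat.Coprime (t + i * f) m := by
        rw [← hmf]
        exact Nat.Coprime.mul_right (Nat.Coprime.pow_right _
          (Nat.Coprime.coprime_dvd_right (Dvd.intro d rfl) h1)) h1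
      have h3 := hrel _ h2
      have h4 : SW d AH (t + i * f) = W := by
        rw [hW]
        apply SW_congr
        have : t + i * f ≡ t + 0 [MOD d] := by
          apply Nat.ModEq.add_left
          rw [Nat.modEq_zero_iff_dvd, hf]
          exact ⟨i * p, by ring⟩
        simpa using this
      rw [h4] at h3
      linarith
    have hsum : ∑ i ∈ range (p ^ e'), SW m AL (t + i * f) =
        p ^ e' * (AL.map fun a => (p : ℤ) ^ (a.factorization p) *
          saw ((t * pr p a : ℕ) : ZMod f)).sum := by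
      unfold SW
      rw [← Multiset.sum_map_sum, ← Multiset.sum_map_mul_left]
      congr 1
      apply Multiset.map_congr rfl
      intro a ha
      obtain ⟨h1, h2⟩ := low_facts hp (hAL a ha)
      exact low_sum hp hmf hm (by omega) h2 t
    rw [sum_congr rfl hval, sum_const, card_range, nsmul_eq_mul] at hsum
    set X := (AL.map fun a => (p : ℤ) ^ (a.factorization p) *
          saw ((t * pr p a : ℕ) : ZMod f)).sum with hX
    have hX1 : X = - (p ^ (e' + 1) * W) := by
      have h1 : ((p : ℤ) ^ e') ≠ 0 := (pow_pos hpz e').ne'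
      push_cast at hsum
      exact (mul_left_cancel₀ h1 hsum).symm
    have hX2 : |X| ≤ Multiset.card AL * ((p : ℤ) ^ v * ((f : ℤ) - 1)) := by
      apply abs_sum_le
      intro a ha
      obtain ⟨h1, _⟩ := low_facts hp (hAL a ha)
      rw [abs_mul, abs_of_pos (pow_pos hpz _)]
      apply mul_le_mul _ (saw_abs hf0 _) (abs_nonneg _) (pow_pos hpz _).le
      exact pow_le_pow_right₀ (by exact_mod_cast hp.one_le) h1
    rw [hX1, abs_neg, abs_mul, abs_of_pos (pow_pos hpz _)] at hX2
    by_contra hcon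
    push Not at hcon
    have hcz : (6 : ℤ) * Multiset.card AL ≤ (p : ℤ) ^ (e' + 1 - v - 1) := by exact_mod_cast hc
    have hpow : (p : ℤ) ^ (e' + 1 - v - 1) * p ^ v = p ^ e' := by
      rw [← pow_add]; congr 1; omega
    have hfz : (f : ℤ) = p * d := by rw [hf]; push_cast; ring
    have hf1 : (1 : ℤ) ≤ f := by exact_mod_cast Nat.one_le_iff_ne_zero.mpr hf0
    have h1 : (p : ℤ) ^ (e' + 1) * d ≤ p ^ (e' + 1) * (6 * |W|) :=
      mul_le_mul_of_nonneg_left hcon (pow_pos hpz _).le
    have h2 : (6 : ℤ) * Multiset.card AL * ((p : ℤ) ^ v * ((f : ℤ) - 1)) ≤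
        (p : ℤ) ^ (e' + 1 - v - 1) * ((p : ℤ) ^ v * ((f : ℤ) - 1)) :=
      mul_le_mul_of_nonneg_right hcz (mul_nonneg (pow_pos hpz _).le (by linarith))
    have h3 : (p : ℤ) ^ (e' + 1 - v - 1) * ((p : ℤ) ^ v * ((f : ℤ) - 1)) =
        p ^ (e' + 1) * d - p ^ e' := by
      rw [← mul_assoc, hpow, hfz]; ring
    have h4 : (0 : ℤ) < p ^ e' := pow_pos hpz _
    linarith
  have key : ∀ t, Nat.Coprime t d → SW d AH t = 0 := by
    apply small_zero hd _ (SW d AH) (fun t _ => SW_cast hd AH t)
    intro t ht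
    obtain ⟨t', ht', htt⟩ := lift_coprime (Dvd.intro_left _ hmd) hm ht
    rw [← SW_congr AH htt]
    exact key1 t' ht'
  refine ⟨key, fun t ht => ?_⟩
  have h1 := hrel t ht
  rw [key t (Nat.Coprime.coprime_dvd_right (Dvd.intro_left _ hmd) ht)] at h1
  linarith

/-- iterated distribution relation -/
lemma dist_pow {m : ℕ} {Q : Type} [AddCommGroup Q] {c : ZMod m → Q} (hc : OddDist c) {p : ℕ}
    (hp : p.Prime) : ∀ w D, p ^ w * D = m → ∀ a : ℕ,
    ∑ i ∈ range (p ^ w), c ((a + i * D : ℕ) : ZMod m) = c ((p ^ w * a : ℕ) : ZMod m) := by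
  intro w
  induction w with
  | zero => intro D _ a; simp
  | succ w ih =>
    intro D hD a
    have h1 : p ^ w * (p * D) = m := by rw [← hD]; ring
    have h2 : p * (p ^ w * D) = m := by rw [← hD]; ring
    have h3 := hc.dist p (p ^ w * D) hp h2 ((p ^ w * a : ℕ) : ZMod m)
    have h4 : (p : ZMod m) * ((p ^ w * a : ℕ) : ZMod m) = ((p ^ (w + 1) * a : ℕ) : ZMod m) := by
      push_cast; ring
    rw [h4] at h3
    rw [← h3, show p ^ (w + 1) = p ^ w * p by ring, sum_range_block, sum_comm]
    refine sum_congr rfl fun j _ => ?_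
    have h5 := ih (p * D) h1 (a + j * D)
    have h6 : ((p ^ w * a : ℕ) : ZMod m) + (j : ZMod m) * ((p ^ w * D : ℕ) : ZMod m) =
        ((p ^ w * (a + j * D) : ℕ) : ZMod m) := by push_cast; ring
    rw [h6, ← h5]
    refine sum_congr rfl fun l _ => ?_
    congr 2; ring

/-- the entries prime to `p` above the low entries -/
def up (p m : ℕ) (AL : Multiset ℕ) : Multiset ℕ :=
  AL.bind fun a => (Multiset.range (p ^ (a.factorization p))).map
    fun i => pr p a + i * (m / p ^ (a.factorization p))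

lemma up_sum {R : Type*} [AddCommMonoid R] (p m : ℕ) (AL : Multiset ℕ) (F : ℕ → R) :
    ((up p m AL).map F).sum = (AL.map fun a => ∑ i ∈ range (p ^ (a.factorization p)),
      F (pr p a + i * (m / p ^ (a.factorization p)))).sum := by
  unfold up
  rw [Multiset.map_bind, Multiset.sum_bind]
  congr 1
  apply Multiset.map_congr rfl
  intro a _
  rw [Multiset.map_map]
  rfl

/-- **The low part.** -/
theorem low_zero {p k m' m v : ℕ} (hp : p.Prime) (hmk : p ^ k * m' = m) (hm : m ≠ 0)
    (hpm' : ¬ p ∣ m') (hvk : v < k) {AL : Multiset ℕ} (hAL : ∀ a ∈ AL, ¬ p ^ (v + 1) ∣ a)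
    (hc : 12 * Multiset.card AL ≤ p ^ (k - v - 1))
    (hrel : ∀ t, Nat.Coprime t m → SW m AL t = 0)
    (Q : Type) [AddCommGroup Q] (c : ZMod m → Q) (hc' : OddDist c) :
    (AL.map fun a : ℕ => c (a : ZMod m)).sum = 0 := by
  by_cases hAL0 : AL = 0
  · rw [hAL0]; simp
  have hcard : 0 < Multiset.card AL := Multiset.card_pos.mpr hAL0
  have hm'0 : m' ≠ 0 := by rintro rfl; rw [mul_zero] at hmk; exact hm hmk.symm
  have hpz : (0 : ℤ) < p := by exact_mod_cast hp.pos
  have hfac : ∀ a ∈ AL, p ^ (a.factorization p) * (p ^ (k - a.factorization p) * m') = m ∧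
      m / p ^ (a.factorization p) = p ^ (k - a.factorization p) * m' := by
    intro a ha
    obtain ⟨h1, _⟩ := low_facts hp (hAL a ha)
    have h2 : p ^ (a.factorization p) * (p ^ (k - a.factorization p) * m') = m := by
      rw [← mul_assoc, ← pow_add, ← hmk]
      congr 2; omega
    refine ⟨h2, ?_⟩
    rw [← h2, Nat.mul_div_cancel_left _ (pow_pos hp.pos _)]
  set x := up p m AL with hx
  have hxp : ∀ b ∈ x, ¬ p ∣ b := by
    intro b hb
    rw [hx, up, Multiset.mem_bind] at hb
    obtain ⟨a, ha, hb⟩ := hb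
    obtain ⟨i, _, rfl⟩ := Multiset.mem_map.mp hb
    obtain ⟨h1, h2⟩ := low_facts hp (hAL a ha)
    rw [(hfac a ha).2]
    intro h
    apply h2
    have h3 : p ∣ i * (p ^ (k - a.factorization p) * m') :=
      ((dvd_pow_self p (by omega)).mul_right m').mul_left i
    exact (Nat.dvd_add_left h3).mp h
  have hx0 : ∀ t, Nat.Coprime t m → SW m x t = 0 := by
    intro t ht
    rw [← hrel t ht]
    unfold SW
    rw [hx, up_sum]
    congr 1
    apply Multiset.map_congr rfl
    intro a ha
    obtain ⟨h1, h2⟩ := hfac a ha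
    rw [h2]
    have hcop : Nat.Coprime t (p ^ (a.factorization p)) :=
      Nat.Coprime.coprime_dvd_right (Dvd.intro _ h1) ht
    have h3 := saw_coset_gen (pow_pos hp.pos _) h1 hm hcop (t * pr p a)
    have h4 : p ^ (a.factorization p) * (t * pr p a) = t * a := by
      conv_rhs => rw [← pr_mul p a]
      ring
    rw [h4] at h3
    rw [← h3]
    refine sum_congr rfl fun i _ => ?_
    congr 2; ring
  have hL : ∀ z, Nat.Coprime z m' → 12 * |SW m' x z| < (Nat.totient (p ^ k) : ℤ) * m' := by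
    intro z _
    have h1 : SW m' x z = (AL.map fun a => (p : ℤ) ^ (a.factorization p) *
        saw ((z * pr p a : ℕ) : ZMod m')).sum := by
      unfold SW
      rw [hx, up_sum]
      congr 1
      apply Multiset.map_congr rfl
      intro a ha
      rw [(hfac a ha).2]
      have h2 : ∀ i ∈ range (p ^ (a.factorization p)),
          saw ((z * (pr p a + i * (p ^ (k - a.factorization p) * m')) : ℕ) : ZMod m') =
            saw ((z * pr p a : ℕ) : ZMod m') := by
        intro i _
        apply saw_per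
        have : z * (pr p a + i * (p ^ (k - a.factorization p) * m')) =
            z * pr p a + m' * (z * i * p ^ (k - a.factorization p)) := by ring
        rw [this]
        exact Nat.add_mul_mod_self_left _ _ _
      rw [sum_congr rfl h2, sum_const, card_range, nsmul_eq_mul]
      push_cast; rfl
    have h2 : |SW m' x z| ≤ Multiset.card AL * ((p : ℤ) ^ v * ((m' : ℤ) - 1)) := by
      rw [h1]
      apply abs_sum_le
      intro a ha
      obtain ⟨h1, _⟩ := low_facts hp (hAL a ha)
      rw [abs_mul, abs_of_pos (pow_pos hpz _)]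
      apply mul_le_mul _ (saw_abs hm'0 _) (abs_nonneg _) (pow_pos hpz _).le
      exact pow_le_pow_right₀ (by exact_mod_cast hp.one_le) h1
    obtain ⟨k', hk'⟩ : ∃ k', k = k' + 1 := ⟨k - 1, by omega⟩
    have hφ : (p : ℤ) ^ k' ≤ Nat.totient (p ^ k) := by
      rw [hk', Nat.totient_prime_pow_succ hp]
      have : p ^ k' ≤ p ^ k' * (p - 1) :=
        Nat.le_mul_of_pos_right _ (by have := hp.two_le; omega)
      exact_mod_cast this
    have hcz : (12 : ℤ) * Multiset.card AL ≤ (p : ℤ) ^ (k - v - 1) := by exact_mod_cast hc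
    have hpow : (p : ℤ) ^ (k - v - 1) * p ^ v = p ^ k' := by
      rw [← pow_add]; congr 1; omega
    have hm1 : (1 : ℤ) ≤ m' := by exact_mod_cast Nat.one_le_iff_ne_zero.mpr hm'0
    have h3 : (12 : ℤ) * Multiset.card AL * ((p : ℤ) ^ v * ((m' : ℤ) - 1)) ≤
        (p : ℤ) ^ (k - v - 1) * ((p : ℤ) ^ v * ((m' : ℤ) - 1)) :=
      mul_le_mul_of_nonneg_right hcz (mul_nonneg (pow_pos hpz _).le (by linarith))
    have h4 : (p : ℤ) ^ (k - v - 1) * ((p : ℤ) ^ v * ((m' : ℤ) - 1)) = p ^ k' * (m' - 1) := by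
      rw [← mul_assoc, hpow]
    have h5 : (p : ℤ) ^ k' * (m' - 1) ≤ Nat.totient (p ^ k) * (m' - 1) :=
      mul_le_mul_of_nonneg_right hφ (by linarith)
    have h6 : (0 : ℤ) < Nat.totient (p ^ k) := lt_of_lt_of_le (pow_pos hpz _) hφ
    nlinarith
  have hk0 : 0 < k := by omega
  have hlev := all_levels hp hk0 hmk hm hpm' hxp hx0 hL
  have hpm : p ∣ m := by rw [← hmk]; exact (dvd_pow_self p hk0.ne').mul_right m'
  have hfacm : m.factorization p = k := by
    rw [← hmk, Nat.factorization_mul (pow_pos hp.pos k).ne' hm'0, Finsupp.add_apply,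
      hp.factorization_pow, Finsupp.single_eq_same, Nat.factorization_eq_zero_of_not_dvd hpm',
      add_zero]
  have h2p : 2 < p ^ (m.factorization p) := by
    rw [hfacm]
    calc 2 < 12 * Multiset.card AL := by omega
      _ ≤ p ^ (k - v - 1) := hc
      _ ≤ p ^ k := Nat.pow_le_pow_right hp.pos (by omega)
  have hkill := kill hp hpm hm h2p hxp hlev Q c hc'
  rw [hx, up_sum] at hkill
  rw [← hkill]
  congr 1
  apply Multiset.map_congr rfl
  intro a ha
  obtain ⟨h1, h2⟩ := hfac a ha
  rw [h2, dist_pow hc' hp _ _ h1 (pr p a), pr_mul]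

/-- **Peeling at a gap.** -/
theorem gap_peel {p k m' m v e d : ℕ} (hp : p.Prime) (hmk : p ^ k * m' = m) (hm : m ≠ 0)
    (hpm' : ¬ p ∣ m') (hve : v < e) (hek : e ≤ k) (hmd : p ^ e * d = m) (A : Multiset ℕ)
    (hgap : ∀ a ∈ A, p ^ (v + 1) ∣ a → p ^ e ∣ a)
    (hc : 12 * Multiset.card A ≤ p ^ (e - v - 1))
    (hrel : ∀ t, Nat.Coprime t m → SW m A t = 0) :
    (∀ t, Nat.Coprime t d →
      SW d ((A.filter fun a => p ^ (v + 1) ∣ a).map fun a => a / p ^ e) t = 0) ∧
    ∀ (Q : Type) [AddCommGroup Q] (c : ZMod m → Q), OddDist c →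
      ((A.filter fun a => ¬ p ^ (v + 1) ∣ a).map fun a : ℕ => c (a : ZMod m)).sum = 0 := by
  set AL := A.filter (fun a => ¬ p ^ (v + 1) ∣ a) with hAL
  have hALp : ∀ a ∈ AL, ¬ p ^ (v + 1) ∣ a := fun a ha => (Multiset.mem_filter.mp ha).2
  have hcard : Multiset.card AL ≤ Multiset.card A := Multiset.card_le_card (Multiset.filter_le _ _)
  have hrel' : ∀ t, Nat.Coprime t m → SW m AL t +
      p ^ e * SW d ((A.filter fun a => p ^ (v + 1) ∣ a).map fun a => a / p ^ e) t = 0 := by
    intro t ht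
    have h1 := SW_decomp hmd hm A (fun a => p ^ (v + 1) ∣ a) hgap t
    rw [hrel t ht] at h1
    rw [h1]
    push_cast; rfl
  obtain ⟨h1, h2⟩ := split_gap hp hmd hm hve hALp (by omega) hrel'
  refine ⟨h1, fun Q _ c hc' => ?_⟩
  refine low_zero hp hmk hm hpm' (by omega) hALp ?_ h2 Q c hc'
  calc 12 * Multiset.card AL ≤ 12 * Multiset.card A := Nat.mul_le_mul_left _ hcard
    _ ≤ p ^ (e - v - 1) := hc
    _ ≤ p ^ (k - v - 1) := Nat.pow_le_pow_right hp.pos (by omega)

end Pool.Agent.Y2
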