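import Pool.Agent.Y2.Fourfold

/-!
Hodge classes on products of Jacobians of the curves `y ^ 2 = x ^ m + 1`, `m` odd.
-/

namespace Pool.Agent.Y2

open Finset Pool.Agent.H916R2

/-- Half of the multiples of the members of `s` by any unit lie in the first half. -/
def Balanced (m : ℕ) (s : Multiset (ZMod m)) : Prop :=
  (0 : ZMod m) ∉ s ∧ ∀ t : (ZMod m)ˣ,
    2 * Multiset.card (s.filter fun a => 2 * ((t : ZMod m) * a).val < m) = Multiset.card s

lemma balanced_rel {m : ℕ} (hodd : m % 2 = 1) {s : Multiset (ZMod m)} (hs : Balanced m s) :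
    ∀ t, Nat.Coprime t m → SW m (s.map ZMod.val) t = 0 := by
  have hm : m ≠ 0 := by rintro rfl; simp at hodd
  have hN : NeZero m := ⟨hm⟩
  apply ST_zero hodd
  intro z hz
  have h1 := hs.2 (ZMod.unitOfCoprime z hz)
  have h0 := hs.1
  unfold ST
  rw [Multiset.map_map]
  have key : ∀ s : Multiset (ZMod m), (0 : ZMod m) ∉ s →
      (s.map ((fun a => th m (z * a)) ∘ ZMod.val)).sum + 2 * (Multiset.card (s.filter fun a =>
        2 * (((ZMod.unitOfCoprime z hz : (ZMod m)ˣ) : ZMod m) * a).val < m) : ℤ) =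
      Multiset.card s := by
    intro s
    induction s using Multiset.induction_on with
    | empty =>
      intro _
      rw [Multiset.filter_zero]
      simp
    | cons a s ih =>
      intro h
      rw [Multiset.mem_cons, not_or] at h
      have ih' := ih h.2
      have ha : ¬ m ∣ z * a.val := by
        rw [dvd_coprime_mul hz, ← ZMod.natCast_eq_zero_iff, ZMod.natCast_zmod_val]
        exact fun h' => h.1 h'.symm
      have hv : (((ZMod.unitOfCoprime z hz : (ZMod m)ˣ) : ZMod m) * a).val = z * a.val % m := by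
        rw [ZMod.coe_unitOfCoprime, ← ZMod.val_natCast, Nat.cast_mul, ZMod.natCast_zmod_val]
      rw [Multiset.map_cons, Multiset.sum_cons, Multiset.card_cons]
      have hcomp : ((fun a => th m (z * a)) ∘ ZMod.val) a = th m (z * a.val) := rfl
      rw [hcomp]
      by_cases hlt : 2 * (z * a.val % m) < m
      · have hth : th m (z * a.val) = -1 := by rw [th, if_neg ha, if_pos hlt]
        rw [hth, Multiset.filter_cons_of_pos _ (by rw [hv]; exact hlt), Multiset.card_cons]
        rw [Nat.cast_add, Nat.cast_add, Nat.cast_one, ← ih']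
        ring
      · have hth : th m (z * a.val) = 1 := by rw [th, if_neg ha, if_neg hlt]
        rw [hth, Multiset.filter_cons_of_neg _ (by rw [hv]; exact hlt)]
        rw [Nat.cast_add, Nat.cast_one, ← ih']
        ring
  have h2 := key s h0
  have h3 : (2 * (Multiset.card (s.filter fun a =>
        2 * (((ZMod.unitOfCoprime z hz : (ZMod m)ˣ) : ZMod m) * a).val < m) : ℤ)) =
      Multiset.card s := by exact_mod_cast h1
  linarith

theorem main_hyper {m : ℕ} (hodd : m % 2 = 1) (s : Multiset (ZMod m)) (hs : Balanced m s)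
    (hcard : Multiset.card s ≤ 6) (hne : s ≠ 0) :
    Generated (2 * m) (SurfaceCharacter (2 * m))
      (s.bind fun a => {((2 * a.val : ℕ) : ZMod (2 * m)), (m : ZMod (2 * m)),
        -((2 * a.val : ℕ) : ZMod (2 * m)) - (m : ZMod (2 * m))}) := by
  have hm : m ≠ 0 := by rintro rfl; simp at hodd
  have hN : NeZero m := ⟨hm⟩
  have hN' : NeZero (2 * m) := ⟨by omega⟩
  have hb : ∀ s, SurfaceCharacter (2 * m) s → (0 : ZMod (2 * m)) ∉ s ∧ Even (Multiset.card s) :=
    fun s h => ⟨h.1.1, h.1.2.1⟩
  have hbn : ∀ s, SurfaceCharacter (2 * m) s → SurfaceCharacter (2 * m) (s.map Neg.neg) := by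
    rintro s ⟨h1, h2⟩
    exact ⟨h1.neg, by rw [Multiset.card_map]; exact h2⟩
  have hrel := balanced_rel hodd hs
  set c := cQ (2 * m) (SurfaceCharacter (2 * m)) with hc
  have hcd : OddDist c := cQ_oddDist
  have hnd : ∀ a ∈ s.map ZMod.val, ¬ m ∣ a := by
    intro a ha h
    obtain ⟨b, hb', rfl⟩ := Multiset.mem_map.mp ha
    have h3 := (ZMod.natCast_eq_zero_iff b.val m).mpr h
    rw [ZMod.natCast_zmod_val] at h3
    exact hs.1 (h3 ▸ hb')
  have h1 := six_zero m hodd (s.map ZMod.val) (by rwa [Multiset.card_map]) hnd hrel _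
    c hcd (kills_cQ hodd)
  have h2 := six_zero m hodd ((s.map ZMod.val).map fun a => 2 * a)
    (by rwa [Multiset.card_map, Multiset.card_map]) (by
      intro a ha
      obtain ⟨b, hb', rfl⟩ := Multiset.mem_map.mp ha
      rw [dvd_coprime_mul (two_coprime hodd)]
      exact hnd b hb') (by
      intro t ht
      have h3 := hrel (2 * t) (Nat.Coprime.mul_left (two_coprime hodd) ht)
      rw [← h3]
      unfold SW
      rw [Multiset.map_map]
      congr 1
      apply Multiset.map_congr rfl
      intro a _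
      simp only [Function.comp_apply]
      congr 2
      ring) _ c hcd (kills_cQ hodd)
  rw [Multiset.map_map] at h1 h2
  have hmm : (m : ZMod (2 * m)) + (m : ZMod (2 * m)) = 0 := by
    have : ((2 * m : ℕ) : ZMod (2 * m)) = 0 := ZMod.natCast_self _
    push_cast at this
    linear_combination this
  have hval : ∀ a : ZMod m, (({((2 * a.val : ℕ) : ZMod (2 * m)), (m : ZMod (2 * m)),
        -((2 * a.val : ℕ) : ZMod (2 * m)) - (m : ZMod (2 * m))} : Multiset (ZMod (2 * m))).map
          c).sum = c ((2 * a.val : ℕ) : ZMod (2 * m)) + c ((2 * a.val : ℕ) : ZMod (2 * m)) -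
            c ((2 * (2 * a.val) : ℕ) : ZMod (2 * m)) := by
    intro a
    simp only [Multiset.insert_eq_cons, Multiset.map_cons, Multiset.map_singleton,
      Multiset.sum_cons, Multiset.sum_singleton]
    rw [hcd.half _ hmm, zero_add]
    have e1 : -((2 * a.val : ℕ) : ZMod (2 * m)) - (m : ZMod (2 * m)) =
        -(((2 * a.val : ℕ) : ZMod (2 * m)) + (m : ZMod (2 * m))) := by ring
    rw [e1, hcd.neg]
    have e2 := hcd.dist 2 m Nat.prime_two rfl ((2 * a.val : ℕ) : ZMod (2 * m))
    rw [sum_range_succ, sum_range_one] at e2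
    simp only [Nat.cast_zero, zero_mul, add_zero, Nat.cast_one, one_mul] at e2
    have e3 : ((2 * (2 * a.val) : ℕ) : ZMod (2 * m)) =
        ((2 : ℕ) : ZMod (2 * m)) * ((2 * a.val : ℕ) : ZMod (2 * m)) := by push_cast; ring
    rw [e3, ← e2]
    abel
  have h3 : ((s.bind fun a => {((2 * a.val : ℕ) : ZMod (2 * m)), (m : ZMod (2 * m)),
        -((2 * a.val : ℕ) : ZMod (2 * m)) - (m : ZMod (2 * m))}).map c).sum = 0 := by
    rw [Multiset.map_bind, Multiset.sum_bind]
    have e4 : s.map (fun a => (({((2 * a.val : ℕ) : ZMod (2 * m)), (m : ZMod (2 * m)),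
        -((2 * a.val : ℕ) : ZMod (2 * m)) - (m : ZMod (2 * m))} : Multiset (ZMod (2 * m))).map
          c).sum) = s.map fun a => c ((2 * a.val : ℕ) : ZMod (2 * m)) +
            c ((2 * a.val : ℕ) : ZMod (2 * m)) - c ((2 * (2 * a.val) : ℕ) : ZMod (2 * m)) :=
      Multiset.map_congr rfl fun a _ => hval a
    rw [e4, Multiset.sum_map_sub, Multiset.sum_map_add]
    have e5 : (s.map fun a : ZMod m => c ((2 * a.val : ℕ) : ZMod (2 * m))).sum = 0 := h1
    have e6 : (s.map fun a : ZMod m => c ((2 * (2 * a.val) : ℕ) : ZMod (2 * m))).sum = 0 := by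
      rw [Multiset.map_map] at h2
      exact h2
    rw [e5, e6]
    simp
  rw [hc, cQ_sum, QuotientAddGroup.eq_zero_iff] at h3
  refine generated_of_mem_LL hb hbn ?_ ?_ ?_ h3
  · rw [Multiset.mem_bind]
    rintro ⟨a, ha, h0⟩
    simp only [Multiset.insert_eq_cons, Multiset.mem_cons, Multiset.mem_singleton] at h0
    rcases h0 with h0 | h0 | h0
    · have h4 := (ZMod.natCast_eq_zero_iff _ _).mp h0.symm
      have h5 := Nat.dvd_of_mul_dvd_mul_left (by norm_num) h4
      exact hnd a.val (Multiset.mem_map_of_mem _ ha) h5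
    · have h4 := (ZMod.natCast_eq_zero_iff _ _).mp h0.symm
      have h5 := Nat.le_of_dvd (Nat.pos_of_ne_zero hm) h4
      omega
    · have h4 : ((2 * a.val + m : ℕ) : ZMod (2 * m)) = 0 := by
        push_cast at h0 ⊢
        linear_combination h0
      have h5 := (ZMod.natCast_eq_zero_iff _ _).mp h4
      have h6 : 2 ∣ 2 * a.val + m := (Dvd.intro _ rfl).trans h5
      omega
  · have h4 := hs.2 1
    rw [Multiset.card_bind]
    have h5 : s.map (Multiset.card ∘ fun a : ZMod m => ({((2 * a.val : ℕ) : ZMod (2 * m)),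
        (m : ZMod (2 * m)), -((2 * a.val : ℕ) : ZMod (2 * m)) - (m : ZMod (2 * m))} :
          Multiset (ZMod (2 * m)))) = s.map fun _ => 3 := by
      apply Multiset.map_congr rfl
      intro a _
      simp
    rw [h5, Multiset.map_const', Multiset.sum_replicate, ← h4]
    exact ⟨3 * Multiset.card (s.filter fun a => 2 * (((1 : (ZMod m)ˣ) : ZMod m) * a).val < m),
      by simp only [smul_eq_mul]; ring⟩
  · intro h
    obtain ⟨a, ha⟩ := Multiset.exists_mem_of_ne_zero hne
    have : ((m : ℕ) : ZMod (2 * m)) ∈ s.bind fun a => {((2 * a.val : ℕ) : ZMod (2 * m)),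
        (m : ZMod (2 * m)), -((2 * a.val : ℕ) : ZMod (2 * m)) - (m : ZMod (2 * m))} := by
      rw [Multiset.mem_bind]
      exact ⟨a, ha, by simp⟩
    rw [h] at this
    exact absurd this (Multiset.notMem_zero _)

end Pool.Agent.Y2
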