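import Pool.Agent.Y2.Gap

/-!
Peeling off large primes and large exponents.
-/

namespace Pool.Agent.Y2

open Finset Pool.Agent.H916R2

/-- **Peeling off one large prime.** -/
theorem peel {q d m : ℕ} (hq : q.Prime) (hqd : q * d = m) (hm : m ≠ 0) (A : Multiset ℕ)
    (hbig : 12 * Multiset.card A < q) (hrel : ∀ t, Nat.Coprime t m → SW m A t = 0) :
    (∀ t, Nat.Coprime t d → SW d ((A.filter fun a => q ∣ a).map fun a => a / q) t = 0) ∧
    ∀ (Q : Type) [AddCommGroup Q] (c : ZMod m → Q), OddDist c →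
      ((A.filter fun a => ¬ q ∣ a).map fun a : ℕ => c (a : ZMod m)).sum = 0 := by
  classical
  set A1 := A.filter (fun a => ¬ q ∣ a) with hA1
  have hqm : q ∣ m := Dvd.intro d hqd
  have hA1q : ∀ a ∈ A1, ¬ q ∣ a := fun a ha => (Multiset.mem_filter.mp ha).2
  have hcard : Multiset.card A1 ≤ Multiset.card A := Multiset.card_le_card (Multiset.filter_le _ _)
  have hbig1 : 12 * Multiset.card A1 ≤ q - 1 := by omega
  have hrel' : ∀ t, Nat.Coprime t m → SW m A1 t +
      q * SW d ((A.filter fun a => q ∣ a).map fun a => a / q) t = 0 := by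
    intro t ht
    have h1 := SW_decomp hqd hm A (fun a => q ∣ a) (fun a _ h => h) t
    rw [hrel t ht] at h1
    exact h1.symm
  obtain ⟨hs2, hs1⟩ := split hq hqd hm hA1q hbig1 hrel'
  refine ⟨hs2, ?_⟩
  intro Q _ c hc
  by_cases hA10 : A1 = 0
  · rw [hA10]; simp
  have hc1 : 0 < Multiset.card A1 := Multiset.card_pos.mpr hA10
  obtain ⟨e, m', he, hmu, hqm', _⟩ := decomp hm hq hqm
  have hq2 : 2 < q ^ (m.factorization q) := by
    rw [he]
    calc 2 < q := by omega
      _ = q ^ 1 := (pow_one q).symm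
      _ ≤ q ^ (e + 1) := Nat.pow_le_pow_right hq.pos (by omega)
  have hqk : q ^ (e + 1) * m' = m := hmu.symm
  have hm'0 : m' ≠ 0 := by rintro rfl; rw [mul_zero] at hqk; exact hm hqk.symm
  have hlev := all_levels hq (Nat.succ_pos e) hqk hm hqm' hA1q hs1 (fun z _ => by
    have h2 := SW_abs hm'0 A1 z
    have h3 : (12 : ℤ) * Multiset.card A1 ≤ Nat.totient (q ^ (e + 1)) := by
      have h4 : q - 1 ≤ Nat.totient (q ^ (e + 1)) := by
        rw [Nat.totient_prime_pow_succ hq]
        exact Nat.le_mul_of_pos_left _ (pow_pos hq.pos e)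
      exact_mod_cast le_trans hbig1 h4
    have h5 : (1 : ℤ) ≤ m' := by exact_mod_cast Nat.one_le_iff_ne_zero.mpr hm'0
    have h6 : (0 : ℤ) < Nat.totient (q ^ (e + 1)) := by
      exact_mod_cast Nat.totient_pos.mpr (pow_pos hq.pos (e + 1))
    have h7 : (12 : ℤ) * Multiset.card A1 * (m' - 1) ≤ Nat.totient (q ^ (e + 1)) * (m' - 1) :=
      mul_le_mul_of_nonneg_right h3 (by linarith)
    nlinarith)
  exact kill hq hqm hm hq2 hA1q hlev Q c hc

/-- `A` splits into a relation of level `m0`, where `m0 ∣ m` has the property `T`, and a part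
killed by all odd distributions -/
def Splits (T : ℕ → Prop) (m : ℕ) (A : Multiset ℕ) : Prop :=
  ∃ l m0 : ℕ, l * m0 = m ∧ T m0 ∧ ∃ A0 A1 : Multiset ℕ, A = A0.map (fun a => l * a) + A1 ∧
    (∀ t, Nat.Coprime t m0 → SW m0 A0 t = 0) ∧
    ∀ (Q : Type) [AddCommGroup Q] (c : ZMod m → Q), OddDist c →
      (A1.map fun a : ℕ => c (a : ZMod m)).sum = 0

lemma Splits.self {T : ℕ → Prop} {m : ℕ} {A : Multiset ℕ} (hT : T m)
    (h : ∀ t, Nat.Coprime t m → SW m A t = 0) : Splits T m A :=
  ⟨1, m, one_mul m, hT, A, 0, by simp, h, fun Q _ c _ => by simp⟩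

lemma Splits.step {T : ℕ → Prop} {P d m : ℕ} (hPd : P * d = m) (hm : m ≠ 0) {A : Multiset ℕ}
    (S : ℕ → Prop) [DecidablePred S] (hS : ∀ a ∈ A, S a → P ∣ a)
    (hkill : ∀ (Q : Type) [AddCommGroup Q] (c : ZMod m → Q), OddDist c →
      ((A.filter fun a => ¬ S a).map fun a : ℕ => c (a : ZMod m)).sum = 0)
    (h : Splits T d ((A.filter S).map fun a => a / P)) : Splits T m A := by
  obtain ⟨l, m0, hlm, hT, A0, A1, hA, hA0, hA1⟩ := h
  have hd : d ≠ 0 := by rintro rfl; rw [mul_zero] at hPd; exact hm hPd.symm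
  have hNd : NeZero d := ⟨hd⟩
  refine ⟨P * l, m0, by rw [mul_assoc, hlm, hPd], hT, A0,
    A1.map (fun a => P * a) + A.filter (fun a => ¬ S a), ?_, hA0, ?_⟩
  · have h2 : A.filter S = ((A.filter S).map fun a => a / P).map (fun a => P * a) := by
      rw [Multiset.map_map]
      conv_lhs => rw [← Multiset.map_id (A.filter S)]
      apply Multiset.map_congr rfl
      intro a ha
      have ha' := Multiset.mem_filter.mp ha
      simp only [Function.comp_apply, id]
      exact (Nat.mul_div_cancel' (hS a ha'.1 ha'.2)).symm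
    have h3 : A = A.filter S + A.filter (fun a => ¬ S a) :=
      (Multiset.filter_add_not _ A).symm
    conv_lhs => rw [h3, h2, hA]
    rw [Multiset.map_add, Multiset.map_map, ← add_assoc]
    congr 2
    apply Multiset.map_congr rfl
    intro a _
    simp only [Function.comp_apply]
    ring
  · intro Q _ c hc
    rw [Multiset.map_add, Multiset.sum_add, hkill Q c hc, add_zero, Multiset.map_map]
    have h4 := hA1 Q (fun b : ZMod d => c (iota P b)) (hc.comp_iota hPd)
    rw [← h4]
    congr 1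
    apply Multiset.map_congr rfl
    intro a _
    simp only [Function.comp_apply]
    rw [iota_natCast hPd]

/-- **Peeling off all the large primes of `m1`.** -/
theorem peel_all (m0 : ℕ) : ∀ m1 m : ℕ, m0 * m1 = m → m ≠ 0 → ∀ A : Multiset ℕ,
    (∀ q, q.Prime → q ∣ m1 → 12 * Multiset.card A < q) →
    (∀ t, Nat.Coprime t m → SW m A t = 0) → Splits (fun n => n = m0) m A := by
  intro m1
  induction m1 using Nat.strong_induction_on with
  | _ m1 ih =>
  intro m hmm hm A hbig hrel
  by_cases h1 : m1 = 1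
  · subst h1
    rw [mul_one] at hmm
    exact Splits.self hmm.symm hrel
  · have hq := Nat.minFac_prime h1
    set q := m1.minFac with hqdef
    obtain ⟨m1', hm1'⟩ : q ∣ m1 := Nat.minFac_dvd m1
    have hm10 : m1 ≠ 0 := by rintro rfl; rw [mul_zero] at hmm; exact hm hmm.symm
    have hm1'0 : m1' ≠ 0 := by rintro rfl; rw [mul_zero] at hm1'; exact hm10 hm1'
    have hlt : m1' < m1 := by
      have := hq.two_le
      have : 0 < m1' := Nat.pos_of_ne_zero hm1'0
      nlinarith
    have hqd : q * (m0 * m1') = m := by rw [← hmm, hm1']; ring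
    have hd0 : m0 * m1' ≠ 0 := by
      intro h; rw [h, mul_zero] at hqd; exact hm hqd.symm
    obtain ⟨hp1, hp2⟩ := peel hq hqd hm A (hbig q hq (Nat.minFac_dvd m1)) hrel
    apply Splits.step hqd hm (fun a => q ∣ a) (fun a _ h => h) hp2
    apply ih m1' hlt (m0 * m1') rfl hd0 _ _ hp1
    intro p hp hpd
    have hcard : Multiset.card ((A.filter fun a => q ∣ a).map fun a => a / q) ≤
        Multiset.card A := by
      rw [Multiset.card_map]
      exact Multiset.card_le_card (Multiset.filter_le _ _)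
    exact lt_of_le_of_lt (Nat.mul_le_mul_left 12 hcard) (hbig p hp (hm1' ▸ hpd.mul_left q))

/-- a gap in the valuations -/
lemma exists_gap {p N g : ℕ} (A : Multiset ℕ) (hA : Multiset.card A ≤ N) (hg : 0 < g) :
    ∃ j, 1 ≤ j ∧ j ≤ N + 1 ∧ ∀ a ∈ A, p ^ (j * g) ∣ a → p ^ ((j + 1) * g - 1) ∣ a := by
  classical
  by_contra hcon
  push Not at hcon
  have h1 : ∀ j : ℕ, ∃ a, (1 ≤ j → j ≤ N + 1 →
      a ∈ A ∧ p ^ (j * g) ∣ a ∧ ¬ p ^ ((j + 1) * g - 1) ∣ a) := by
    intro j
    by_cases h : 1 ≤ j ∧ j ≤ N + 1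
    · obtain ⟨a, ha⟩ := hcon j h.1 h.2
      exact ⟨a, fun _ _ => ha⟩
    · exact ⟨0, fun h1 h2 => absurd ⟨h1, h2⟩ h⟩
  choose f hf using h1
  have hlt : ∀ i j : ℕ, 1 ≤ i → j ≤ N + 1 → i < j → f i ≠ f j := by
    intro i j hi hj hij h
    obtain ⟨_, _, h2⟩ := hf i hi (by omega)
    obtain ⟨_, h3, _⟩ := hf j (by omega) hj
    apply h2
    rw [h]
    refine dvd_trans (pow_dvd_pow p ?_) h3
    have : (i + 1) * g ≤ j * g := Nat.mul_le_mul_right g hij
    omega
  have hinj : Set.InjOn f (Finset.Icc 1 (N + 1) : Set ℕ) := by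
    intro i hi j hj h
    simp only [coe_Icc, Set.mem_Icc] at hi hj
    rcases lt_trichotomy i j with h1 | h1 | h1
    · exact absurd h (hlt i j hi.1 hj.2 h1)
    · exact h1
    · exact absurd h.symm (hlt j i hj.1 hi.2 h1)
  have hmaps : Set.MapsTo f (Finset.Icc 1 (N + 1) : Set ℕ) (A.toFinset : Set ℕ) := by
    intro i hi
    simp only [coe_Icc, Set.mem_Icc] at hi
    simp only [mem_coe, Multiset.mem_toFinset]
    exact (hf i hi.1 hi.2).1
  have hcard := Finset.card_le_card_of_injOn f hmaps hinj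
  rw [Nat.card_Icc] at hcard
  have := Multiset.toFinset_card_le A
  omega

/-- the exponent -/
def EX (N : ℕ) : ℕ := (N + 2) * (Nat.clog 2 (12 * N) + 1)

/-- the universal degree for `N` entries -/
def DD (N : ℕ) : ℕ := primorial (12 * N) ^ EX N

lemma dvd_DD {N m : ℕ} (hm : m ≠ 0) (h1 : ∀ p, p.Prime → p ∣ m → p ≤ 12 * N)
    (h2 : ∀ p, p.Prime → ¬ p ^ EX N ∣ m) : m ∣ DD N := by
  rw [Nat.dvd_iff_prime_pow_dvd_dvd]
  intro p k hp hk
  rcases Nat.eq_zero_or_pos k with rfl | hk0
  · simp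
  · have hpm : p ∣ m := dvd_trans (dvd_pow_self p hk0.ne') hk
    have hpN := h1 p hp hpm
    have hpP : p ∣ primorial (12 * N) := by
      unfold primorial
      apply Finset.dvd_prod_of_mem
      simp only [mem_filter, mem_range]
      exact ⟨by omega, hp⟩
    have hkE : k ≤ EX N := by
      by_contra hcon
      exact h2 p hp (dvd_trans (pow_dvd_pow p (by omega)) hk)
    exact dvd_trans (pow_dvd_pow p hkE) (pow_dvd_pow_of_dvd hpP _)

/-- **Reduction to the universal degree.** -/
theorem finite_level (N : ℕ) : ∀ m : ℕ, m ≠ 0 → ∀ A : Multiset ℕ, Multiset.card A ≤ N →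
    (∀ t, Nat.Coprime t m → SW m A t = 0) → Splits (fun n => n ∣ DD N) m A := by
  intro m
  induction m using Nat.strong_induction_on with
  | _ m ih =>
  intro hm A hA hrel
  by_cases h1 : ∃ q, q.Prime ∧ q ∣ m ∧ 12 * N < q
  · obtain ⟨q, hq, ⟨d, hd⟩, hqN⟩ := h1
    have hqd : q * d = m := hd.symm
    have hd0 : d ≠ 0 := by rintro rfl; rw [mul_zero] at hqd; exact hm hqd.symm
    have hlt : d < m := by
      have := hq.two_le
      have : 0 < d := Nat.pos_of_ne_zero hd0
      nlinarith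
    obtain ⟨hp1, hp2⟩ := peel hq hqd hm A
      (lt_of_le_of_lt (Nat.mul_le_mul_left 12 hA) hqN) hrel
    apply Splits.step hqd hm (fun a => q ∣ a) (fun a _ h => h) hp2
    apply ih d hlt hd0 _ _ hp1
    rw [Multiset.card_map]
    exact le_trans (Multiset.card_le_card (Multiset.filter_le _ _)) hA
  · by_cases h2 : ∃ p, p.Prime ∧ p ^ EX N ∣ m
    · obtain ⟨p, hp, hpE⟩ := h2
      set g := Nat.clog 2 (12 * N) + 1 with hg
      have hE : EX N = (N + 2) * g := rfl
      obtain ⟨j, hj1, hj2, hgap⟩ := exists_gap (p := p) A hA (g := g) (by omega)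
      have hE0 : 0 < EX N := by rw [hE]; positivity
      have hpm : p ∣ m := dvd_trans (dvd_pow_self p hE0.ne') hpE
      obtain ⟨f, m', hf, hmu, hpm', _⟩ := decomp hm hp hpm
      have hk : EX N ≤ f + 1 := by
        rw [← hf]
        exact (hp.pow_dvd_iff_le_factorization hm).mp hpE
      set e := (j + 1) * g - 1 with he
      have hjg : (j + 1) * g = j * g + g := by ring
      have hjg1 : 1 ≤ j * g := Nat.mul_pos (by omega) (by omega)
      have hjE : (j + 1) * g ≤ (N + 2) * g := Nat.mul_le_mul_right g (by omega)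
      have hek : e ≤ f + 1 := by omega
      have hmd : p ^ e * (p ^ (f + 1 - e) * m') = m := by
        rw [← mul_assoc, ← pow_add, hmu]
        congr 2; omega
      have hd0 : p ^ (f + 1 - e) * m' ≠ 0 := by
        intro h; rw [h, mul_zero] at hmd; exact hm hmd.symm
      have hlt : p ^ (f + 1 - e) * m' < m := by
        have h3 : 0 < p ^ (f + 1 - e) * m' := Nat.pos_of_ne_zero hd0
        have h4 : 2 ≤ p ^ e := by
          calc 2 ≤ p := hp.two_le
            _ = p ^ 1 := (pow_one p).symm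
            _ ≤ p ^ e := Nat.pow_le_pow_right hp.pos (by omega)
        calc p ^ (f + 1 - e) * m' < 2 * (p ^ (f + 1 - e) * m') := by omega
          _ ≤ p ^ e * (p ^ (f + 1 - e) * m') := Nat.mul_le_mul_right _ h4
          _ = m := hmd
      have hgap' : ∀ a ∈ A, p ^ ((j * g - 1) + 1) ∣ a → p ^ e ∣ a := by
        intro a ha h
        rw [Nat.sub_add_cancel hjg1] at h
        exact hgap a ha h
      have hc : 12 * Multiset.card A ≤ p ^ (e - (j * g - 1) - 1) := by
        have h3 : e - (j * g - 1) - 1 = Nat.clog 2 (12 * N) := by omega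
        rw [h3]
        calc 12 * Multiset.card A ≤ 12 * N := Nat.mul_le_mul_left 12 hA
          _ ≤ 2 ^ Nat.clog 2 (12 * N) := Nat.le_pow_clog (by norm_num) _
          _ ≤ p ^ Nat.clog 2 (12 * N) := Nat.pow_le_pow_left hp.two_le _
      obtain ⟨hp1, hp2⟩ := gap_peel hp hmu.symm hm hpm' (v := j * g - 1) (by omega) hek hmd A
        hgap' hc hrel
      apply Splits.step hmd hm (fun a => p ^ ((j * g - 1) + 1) ∣ a) hgap' hp2
      apply ih _ hlt hd0 _ _ hp1
      rw [Multiset.card_map]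
      exact le_trans (Multiset.card_le_card (Multiset.filter_le _ _)) hA
    · push Not at h1 h2
      exact Splits.self (dvd_DD hm (fun p hp hpm => h1 p hp hpm) h2) hrel

end Pool.Agent.Y2
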