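import Pool.Agent.Y2.Cases

/-!
The case `q = 7`.
-/

namespace Pool.Agent.Y2

open Finset Pool.Agent.H916R2

lemma pow_form : ∀ a : ℕ, ∃ c : ℕ, 7 ^ (4 * 3 ^ a) = 1 + 3 ^ (a + 1) * c ∧ c % 3 ≠ 0 := by
  intro a
  induction a with
  | zero => exact ⟨800, by norm_num, by norm_num⟩
  | succ a ih =>
    obtain ⟨c, hc, hc3⟩ := ih
    refine ⟨c + 3 ^ (a + 1) * c ^ 2 + 3 ^ (2 * a + 1) * c ^ 3, ?_, ?_⟩
    · have h1 : 4 * 3 ^ (a + 1) = 4 * 3 ^ a * 3 := by ring
      rw [h1, pow_mul, hc]
      ring
    · have h1 : (3 ^ (a + 1) * c ^ 2) % 3 = 0 := by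
        rw [pow_succ]
        rw [show 3 ^ a * 3 * c ^ 2 = 3 * (3 ^ a * c ^ 2) by ring]
        exact Nat.mul_mod_right _ _
      have h2 : (3 ^ (2 * a + 1) * c ^ 3) % 3 = 0 := by
        rw [pow_succ]
        rw [show 3 ^ (2 * a) * 3 * c ^ 3 = 3 * (3 ^ (2 * a) * c ^ 3) by ring]
        exact Nat.mul_mod_right _ _
      omega

lemma seven_mod : ∀ i : ℕ, 7 ^ i % 3 = 1 := by
  intro i
  rw [Nat.pow_mod]
  norm_num

lemma seven_five {i k : ℕ} (h : 5 ∣ 7 ^ i + 2) : 5 ∣ 7 ^ (i + 4 * k) + 2 := by
  have h1 : (7 : ℕ) ^ (4 * k) ≡ 1 [MOD 5] := by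
    rw [pow_mul]
    have : (7 ^ 4 : ℕ) ≡ 1 [MOD 5] := by decide
    have h2 := this.pow k
    rwa [one_pow] at h2
  have h2 : 7 ^ (i + 4 * k) + 2 ≡ 7 ^ i + 2 [MOD 5] := by
    apply Nat.ModEq.add_right
    rw [pow_add]
    have := h1.mul_left (7 ^ i)
    rwa [mul_one] at this
  exact (h2.dvd_iff dvd_rfl).mpr h

/-- `-2` is a power of `7` modulo `5 * 3 ^ a`. -/
lemma neg_two_pow : ∀ a : ℕ, ∃ i, 5 ∣ 7 ^ i + 2 ∧ 3 ^ (a + 1) ∣ 7 ^ i + 2 := by
  intro a
  induction a with
  | zero => exact ⟨3, by norm_num, by norm_num⟩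
  | succ a ih =>
    obtain ⟨i, h5, w, hw⟩ := ih
    obtain ⟨c, hc, hc3⟩ := pow_form a
    have hi3 := seven_mod i
    have e1 : 7 ^ (i + 4 * 3 ^ a) + 2 = 3 ^ (a + 1) * (w + 7 ^ i * c) := by
      rw [mul_add (3 ^ (a + 1)), ← hw, pow_add, hc]; ring
    have e2 : 7 ^ (i + 4 * (3 ^ a * 2)) + 2 =
        3 ^ (a + 1) * (w + 7 ^ i * (2 * c + 3 ^ (a + 1) * c ^ 2)) := by
      rw [mul_add (3 ^ (a + 1)), ← hw, pow_add, show 4 * (3 ^ a * 2) = 4 * 3 ^ a * 2 by ring,
        pow_mul, hc]
      ring
    have hmod1 : (w + 7 ^ i * c) % 3 = (w + c) % 3 := by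
      rw [Nat.add_mod, Nat.mul_mod, hi3]; simp
    have hmod2 : (w + 7 ^ i * (2 * c + 3 ^ (a + 1) * c ^ 2)) % 3 = (w + 2 * c) % 3 := by
      have h1 : (3 ^ (a + 1) * c ^ 2) % 3 = 0 := by
        rw [pow_succ]
        rw [show 3 ^ a * 3 * c ^ 2 = 3 * (3 ^ a * c ^ 2) by ring]
        exact Nat.mul_mod_right _ _
      rw [Nat.add_mod, Nat.mul_mod, hi3, Nat.add_mod (2 * c), h1]; simp
    have hcase : w % 3 = 0 ∨ (w + c) % 3 = 0 ∨ (w + 2 * c) % 3 = 0 := by
      have hw3 : w % 3 = 0 ∨ w % 3 = 1 ∨ w % 3 = 2 := by omega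
      have hc3' : c % 3 = 1 ∨ c % 3 = 2 := by omega
      rcases hw3 with h1 | h1 | h1 <;> rcases hc3' with h2 | h2 <;> omega
    rcases hcase with h | h | h
    · refine ⟨i, h5, ?_⟩
      rw [hw, pow_succ]
      exact Nat.mul_dvd_mul_left _ (Nat.dvd_of_mod_eq_zero h)
    · refine ⟨i + 4 * 3 ^ a, seven_five h5, ?_⟩
      rw [e1, pow_succ]
      exact Nat.mul_dvd_mul_left _ (Nat.dvd_of_mod_eq_zero (by rw [hmod1]; exact h))
    · refine ⟨i + 4 * (3 ^ a * 2), seven_five h5, ?_⟩
      rw [e2, pow_succ]
      exact Nat.mul_dvd_mul_left _ (Nat.dvd_of_mod_eq_zero (by rw [hmod2]; exact h))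

lemma neg_two_pow' {d a : ℕ} (h : d ∣ 3 ^ a * 5) : ∃ i, d ∣ 7 ^ i + 2 := by
  obtain ⟨i, h5, h3⟩ := neg_two_pow a
  refine ⟨i, h.trans ?_⟩
  apply Nat.Coprime.mul_dvd_of_dvd_of_dvd
  · exact Nat.Coprime.pow_left _ (by norm_num)
  · exact (pow_dvd_pow 3 (Nat.le_succ a)).trans h3
  · exact h5

/-- the odd character modulo `3` -/
def chi (z : ℕ) : ℤ := if z % 3 = 1 then 1 else -1

namespace Setting

variable {q d m : ℕ} {A1 A2 : Multiset ℕ} (H : Setting q d m A1 A2)

include H

/-- `q = 7` -/
lemma case7 (hq : q = 7) (hnd : ¬ q ∣ d) (hcard : Multiset.card A1 + Multiset.card A2 ≤ 6)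
    (heven : (Multiset.card A1 + Multiset.card A2) % 2 = 0) (hA2 : ∀ b ∈ A2, ¬ d ∣ b)
    (hi : ∃ i, d ∣ 7 ^ i + 2) :
    (∀ z, Nat.Coprime z d → ST d A1 z = 0) ∨
    (3 ∣ d ∧ (∀ a ∈ A1, d ∣ 3 * a) ∧ (A2 = 0 ∨ ∃ b1 b2, A2 = {b1, b2} ∧ d ∣ b1 + b2)) ∨
    (3 ∣ d ∧ A2 = 0 ∧ ∃ τ : ℤ, (τ = -2 ∨ τ = -1 ∨ τ = 1 ∨ τ = 2) ∧
      ∀ z, Nat.Coprime z d → SW d A1 z = d * (τ * chi z)) := by
  obtain ⟨h, hh, T, hT, hpar, hcong3⟩ := H.theta_div
  have hdo := H.dodd
  have hd0 := H.hd
  have h6 : h = 3 := by
    rcases hh with ⟨e1, e2⟩ | ⟨e1, e2⟩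
    · exact absurd e2 hnd
    · omega
  subst h6
  have hnz := nz_le (d := d) (A1 := A1)
  have hqc : Nat.Coprime q d := (Nat.Prime.coprime_iff_not_dvd H.hq).mpr hnd
  have hqc7 : Nat.Coprime 7 d := by rwa [hq] at hqc
  have hz1 := Nat.coprime_one_left d
  have hsmall : nz d A1 = 0 ∨ nz d A1 = 1 ∨ nz d A1 = 2 ∨ nz d A1 = 4 ∨ nz d A1 = 3 ∨
      nz d A1 = 5 ∨ nz d A1 = 6 := by omega
  have hzero : (nz d A1 = 0 ∨ nz d A1 = 1 ∨ nz d A1 = 2 ∨ nz d A1 = 4) →
      ∀ z, Nat.Coprime z d → ST d A1 z = 0 := by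
    intro hn z hz
    obtain ⟨h1, h2⟩ := ST_bound A1 hz
    have h3 := hT z hz
    rw [abs_le] at h1
    push_cast at *
    have h5 : T z = 0 := by omega
    rw [← h3, h5, mul_zero]
  rcases hsmall with hn | hn | hn | hn | hn | hn
  · exact Or.inl (hzero (Or.inl hn))
  · exact Or.inl (hzero (Or.inr (Or.inl hn)))
  · exact Or.inl (hzero (Or.inr (Or.inr (Or.inl hn))))
  · exact Or.inl (hzero (Or.inr (Or.inr (Or.inr hn))))
  · -- three entries
    have habs : ∀ z, Nat.Coprime z d → |ST d A1 z| = nz d A1 := by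
      intro z hz
      obtain ⟨h1, h2⟩ := ST_bound A1 hz
      have h3 := hT z hz
      rw [hn] at h1 h2 ⊢
      rw [abs_le] at h1
      push_cast at *
      have h4 : T z = -1 ∨ T z = 1 := by omega
      rcases h4 with h4 | h4 <;> rw [← h3, h4] <;> norm_num
    have hcong := all_congr hdo A1 habs
    obtain ⟨c, hc, hcd⟩ := exists_nz (d := d) (A := A1) (by omega)
    have hcc : ∀ a ∈ A1, ¬ d ∣ a → a ≡ c [MOD d] := fun a ha had => hcong a ha c hc had hcd
    have hSTc := ST_const A1 c hcc
    -- the relation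
    have hrelT : ∀ z, Nat.Coprime z d →
        th d (7 * z * c) - th d (z * c) + 2 * ST d A2 (7 * z) = 0 := by
      intro z hz
      have h1 := H.relT hnd hz
      rw [hSTc, hSTc, hq, hn] at h1
      push_cast at h1
      linarith
    have h7z : ∀ z, Nat.Coprime z d → Nat.Coprime (7 * z) d := fun z hz =>
      Nat.Coprime.mul_left hqc7 hz
    have hA2nz : nz d A2 = Multiset.card A2 := nz_eq_card hA2
    by_cases hodd : Multiset.card A2 % 2 = 0
    · right; left
      have hkey : ∀ z, Nat.Coprime z d → ST d A2 (7 * z) = 0 ∧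
          th d (z * (7 * c)) = th d (z * c) := by
        intro z hz
        have h1 := hrelT z hz
        obtain ⟨_, h3⟩ := ST_bound A2 (h7z z hz)
        rw [hA2nz] at h3
        have c1 := th_cases (d := d) (x := 7 * z * c) (by rwa [dvd_coprime_mul (h7z z hz)])
        have c2 := th_cases (d := d) (x := z * c) (by rwa [dvd_coprime_mul hz])
        rw [show z * (7 * c) = 7 * z * c by ring]
        constructor <;> omega
      have h7c : 7 * c ≡ c [MOD d] := th_inj hdo fun z hz => (hkey z hz).2
      have h3c : d ∣ 3 * c := dvd_odd_mul (k := 1) hdo (by norm_num : 2 = 2 ^ 1) (by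
        rw [← mul_assoc]; exact dvd_of_modEq (n := 6) h7c)
      refine ⟨three_dvd_of h3c hcd, ?_, ?_⟩
      · intro a ha
        by_cases had : d ∣ a
        · exact had.mul_left 3
        · exact (((hcc a ha had).mul_left 3).dvd_iff dvd_rfl).mpr h3c
      · have hc2 : Multiset.card A2 = 0 ∨ Multiset.card A2 = 2 := by omega
        rcases hc2 with h0 | h2
        · exact Or.inl (Multiset.card_eq_zero.mp h0)
        · right
          obtain ⟨b1, b2, hb⟩ := Multiset.card_eq_two.mp h2
          refine ⟨b1, b2, hb, ?_⟩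
          apply th_inj_neg hdo
          intro z hz
          obtain ⟨u, _, hu⟩ := Nat.exists_mul_mod_eq_of_coprime z hqc7 hd0
          have hu' : 7 * u ≡ z [MOD d] := hu
          have huc : Nat.Coprime u d := by
            have h3 : Nat.Coprime (7 * u) d := by
              have : Nat.gcd (7 * u) d = Nat.gcd z d := hu'.gcd_eq
              rw [Nat.Coprime, this]; exact hz
            exact Nat.Coprime.coprime_mul_left h3
          have h1 := (hkey u huc).1
          rw [ST_congr A2 hu', hb] at h1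
          unfold ST at h1
          simp only [Multiset.insert_eq_cons, Multiset.map_cons, Multiset.map_singleton,
            Multiset.sum_cons, Multiset.sum_singleton] at h1
          linarith
    · exfalso
      have hkey : ∀ z, Nat.Coprime z d → th d (z * (7 * c)) = - th d (z * c) := by
        intro z hz
        have h1 := hrelT z hz
        obtain ⟨_, h3⟩ := ST_bound A2 (h7z z hz)
        rw [hA2nz] at h3
        have c1 := th_cases (d := d) (x := 7 * z * c) (by rwa [dvd_coprime_mul (h7z z hz)])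
        have c2 := th_cases (d := d) (x := z * c) (by rwa [dvd_coprime_mul hz])
        rw [show z * (7 * c) = 7 * z * c by ring]
        omega
      have h8 : d ∣ 7 * c + c := th_inj_neg hdo hkey
      apply hcd
      apply dvd_odd_mul (k := 3) hdo (by norm_num : 8 = 2 ^ 3)
      have : 7 * c + c = 8 * c := by ring
      rwa [this] at h8
  · -- five or six entries
    have hβ : Multiset.card A2 = 0 ∨ (nz d A1 = 5 ∧ Multiset.card A2 = 1) := by
      rcases hn with hn | hn <;> omega
    rcases hβ with hβ | ⟨hn5, hβ⟩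
    · have hA20 : A2 = 0 := Multiset.card_eq_zero.mp hβ
      have hSW7 : ∀ u, Nat.Coprime u d → SW d A1 (7 * u) = SW d A1 u := by
        intro u hu
        have h1 := H.rel1 hnd hu
        rw [hA20, hq] at h1
        simp only [SW, Multiset.map_zero, Multiset.sum_zero, mul_zero, add_zero] at h1
        unfold SW
        linarith
      have hSW7i : ∀ i u, Nat.Coprime u d → SW d A1 (7 ^ i * u) = SW d A1 u := by
        intro i
        induction i with
        | zero => intro u _; simp
        | succ i ih =>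
          intro u hu
          rw [show 7 ^ (i + 1) * u = 7 ^ i * (7 * u) by ring,
            ih _ (Nat.Coprime.mul_left hqc7 hu), hSW7 u hu]
      obtain ⟨i, hi⟩ := hi
      have hdT : ∀ u, Nat.Coprime u d → SW d A1 u = d * T u := by
        intro u hu
        have h1 := hSW7i i u hu
        have h2 : SW d A1 (7 ^ i * u) = - SW d A1 (2 * u) := by
          apply SW_neg hd0
          have : 2 * u + 7 ^ i * u = (7 ^ i + 2) * u := by ring
          rw [this]
          exact hi.mul_right u
        have h3 := ST_SW hdo A1 u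
        rw [← hT u hu] at h3
        push_cast at h3
        linarith
      by_cases hτ : T 1 = 0
      · left
        intro z hz
        have h1 := hcong3 z hz
        have h2 := hpar z hz
        obtain ⟨h4, _⟩ := ST_bound A1 hz
        have h5 := hT z hz
        rw [hdT z hz, hdT 1 hz1, hτ, mul_zero, mul_zero, sub_zero] at h1
        have hdz : (d : ℤ) ≠ 0 := by exact_mod_cast hd0
        have h6 : (3 : ℤ) ∣ T z := by
          rw [mul_comm] at h1
          exact Int.dvd_of_mul_dvd_mul_left hdz h1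
        rw [abs_le] at h4
        have h7 : nz d A1 ≤ 6 := by omega
        push_cast at *
        have h8 : T z = 0 := by
          obtain ⟨k, hk⟩ := h6
          omega
        rw [← h5, h8, mul_zero]
      · right; right
        have hdz : (d : ℤ) ≠ 0 := by exact_mod_cast hd0
        have hdvd : ∀ z, Nat.Coprime z d → (3 : ℤ) ∣ T z - z * T 1 := by
          intro z hz
          have h1 := hcong3 z hz
          rw [hdT z hz, hdT 1 hz1] at h1
          have h2 : (d : ℤ) * T z - z * (d * T 1) = d * (T z - z * T 1) := by ring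
          rw [h2, mul_comm] at h1
          exact Int.dvd_of_mul_dvd_mul_left hdz h1
        have h7 : nz d A1 ≤ 6 := by omega
        have hbd : ∀ z, Nat.Coprime z d → -2 ≤ T z ∧ T z ≤ 2 := by
          intro z hz
          obtain ⟨h4, _⟩ := ST_bound A1 hz
          have h5 := hT z hz
          rw [abs_le] at h4
          push_cast at *
          constructor <;> omega
        have h3d : 3 ∣ d := by
          by_contra h3
          have hc3 : Nat.Coprime 3 d := (Nat.Prime.coprime_iff_not_dvd Nat.prime_three).mpr h3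
          -- an integer congruent to one modulo `d` and to two modulo three
          obtain ⟨z, hz⟩ := Nat.chineseRemainder hc3 2 1
          have hzd : Nat.Coprime z d := by
            have : Nat.gcd z d = Nat.gcd 1 d := hz.2.gcd_eq
            rw [Nat.Coprime, this]; exact hz1
          have h1 := hdvd z hzd
          have h2 : T z = T 1 := by
            have e1 := hT z hzd
            have e2 := hT 1 hz1
            rw [ST_congr A1 hz.2, ← e2] at e1
            have : (3 : ℤ) ≠ 0 := by norm_num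
            exact mul_left_cancel₀ this (by push_cast at e1; linarith)
          rw [h2] at h1
          have h4 : z % 3 = 2 := hz.1
          obtain ⟨k, hk⟩ := h1
          obtain ⟨w, hw⟩ : ∃ w, z = 3 * w + 2 := ⟨z / 3, by omega⟩
          have h5 := hbd 1 hz1
          have h6 : (3 : ℤ) ∣ T 1 := by
            refine ⟨- k - w * T 1, ?_⟩
            rw [hw] at hk
            push_cast at hk
            linear_combination -hk
          obtain ⟨k', hk'⟩ := h6
          omega
        refine ⟨h3d, hA20, T 1, ?_, ?_⟩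
        · have := hbd 1 hz1
          omega
        · intro z hz
          rw [hdT z hz]
          congr 1
          have h1 := hdvd z hz
          have h2 := hpar z hz
          have h4 := hbd z hz
          have h5 := hbd 1 hz1
          have hz3 : z % 3 = 1 ∨ z % 3 = 2 := by
            have : ¬ 3 ∣ z := by
              intro h
              have h6 : 3 ∣ Nat.gcd z d := Nat.dvd_gcd h h3d
              rw [hz] at h6
              omega
            omega
          unfold chi
          rcases hz3 with h6 | h6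
          · rw [if_pos h6, mul_one]
            obtain ⟨w, hw⟩ : ∃ w, z = 3 * w + 1 := ⟨z / 3, by omega⟩
            have h7 : (3 : ℤ) ∣ T z - T 1 := by
              obtain ⟨k, hk⟩ := h1
              refine ⟨k + w * T 1, ?_⟩
              rw [hw] at hk ⊢
              push_cast at hk
              linear_combination hk
            omega
          · rw [if_neg (by omega)]
            obtain ⟨w, hw⟩ : ∃ w, z = 3 * w + 2 := ⟨z / 3, by omega⟩
            have h7 : (3 : ℤ) ∣ T z + T 1 := by
              obtain ⟨k, hk⟩ := h1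
              refine ⟨k + w * T 1 + T 1, ?_⟩
              rw [hw] at hk ⊢
              push_cast at hk
              linear_combination hk
            omega
    · exfalso
      obtain ⟨b, hb⟩ := Multiset.card_eq_one.mp hβ
      have hbd : ¬ d ∣ b := hA2 b (by rw [hb]; exact Multiset.mem_singleton_self b)
      have key : ∀ z, Nat.Coprime z d → ST d A1 z = 3 * th d (7 * z * b) ∧
          ST d A1 (7 * z) = - (3 * th d (7 * z * b)) := by
        intro z hz
        have h7z : Nat.Coprime (7 * z) d := Nat.Coprime.mul_left hqc7 hz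
        have h1 := H.relT hnd hz
        have h2 : ST d A2 (q * z) = th d (q * z * b) := by rw [hb]; simp [ST]
        rw [h2, hq] at h1
        obtain ⟨e1, e2⟩ := ST_bound A1 hz
        obtain ⟨e3, e4⟩ := ST_bound A1 h7z
        have e5 := hT z hz
        have e6 := hT _ h7z
        rw [abs_le] at e1 e3
        rw [hn5] at e1 e2 e3 e4
        have c3 := th_cases (d := d) (x := 7 * z * b) (by rwa [dvd_coprime_mul h7z])
        push_cast at *
        constructor <;> omega
      have h8 : d ∣ b + 7 * b := by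
        apply th_inj_neg hdo
        intro z hz
        obtain ⟨u, _, hu⟩ := Nat.exists_mul_mod_eq_of_coprime z hqc7 hd0
        have hu' : 7 * u ≡ z [MOD d] := hu
        have huc : Nat.Coprime u d := by
          have h3 : Nat.Coprime (7 * u) d := by
            have : Nat.gcd (7 * u) d = Nat.gcd z d := hu'.gcd_eq
            rw [Nat.Coprime, this]; exact hz
          exact Nat.Coprime.coprime_mul_left h3
        have e1 := (key z hz).1
        have e2 := (key u huc).2
        rw [ST_congr A1 hu', th_per (hu'.mul_right b)] at e2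
        rw [show z * (7 * b) = 7 * z * b by ring]
        linarith
      apply hbd
      apply dvd_odd_mul (k := 3) hdo (by norm_num : 8 = 2 ^ 3)
      have : b + 7 * b = 8 * b := by ring
      rwa [this] at h8

end Setting

end Pool.Agent.Y2
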