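import Pool.Agent.Y2.Star

/-!
A system of small integers `V t ≡ t * R` modulo `d`, `t` prime to `d`, vanishes.
-/

namespace Pool.Agent.Y2

open Finset Pool.Agent.H916R2

lemma exists_middle {o : ℕ} (ho : 2 ≤ o) : ∃ j, Nat.Coprime j o ∧ o ≤ 6 * j ∧ 6 * j ≤ 5 * o := by
  have hodd : ∀ j, j % 2 = 1 → Nat.Coprime j 2 := by
    intro j hj
    rw [Nat.coprime_comm, Nat.coprime_two_left, Nat.odd_iff]
    exact hj
  rcases Nat.even_or_odd' o with ⟨k, hk | hk⟩
  · rcases Nat.even_or_odd' k with ⟨l, hl | hl⟩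
    · refine ⟨2 * l - 1, ?_, by omega, by omega⟩
      have h1 : o = 2 + 2 * (2 * l - 1) := by omega
      rw [h1, Nat.coprime_add_mul_right_right]
      exact hodd _ (by omega)
    · by_cases hl0 : l = 0
      · exact ⟨1, Nat.coprime_one_left o, by omega, by omega⟩
      · refine ⟨2 * l - 1, ?_, by omega, by omega⟩
        have h1 : o = 2 ^ 2 + 2 * (2 * l - 1) := by omega
        rw [h1, Nat.coprime_add_mul_right_right]
        exact Nat.Coprime.pow_right 2 (hodd _ (by omega))
  · refine ⟨k, ?_, by omega, by omega⟩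
    have h1 : o = 1 + 2 * k := by omega
    rw [h1, Nat.coprime_add_mul_right_right]
    exact Nat.coprime_one_right k

theorem small_zero {d : ℕ} (hd : d ≠ 0) (R : ZMod d) (V : ℕ → ℤ)
    (hV : ∀ t, Nat.Coprime t d → ((V t : ℤ) : ZMod d) = (t : ZMod d) * R)
    (hb : ∀ t, Nat.Coprime t d → 6 * |V t| < d) : ∀ t, Nat.Coprime t d → V t = 0 := by
  have : NeZero d := ⟨hd⟩
  by_cases hR : R = 0
  · intro t ht
    have h1 := hV t ht
    rw [hR, mul_zero, ZMod.intCast_zmod_eq_zero_iff_dvd] at h1
    have h2 := hb t ht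
    exact Int.eq_zero_of_abs_lt_dvd h1 (by have := abs_nonneg (V t); omega)
  · exfalso
    set r := R.val with hr
    have hr0 : r ≠ 0 := fun h => hR ((ZMod.val_eq_zero R).mp h)
    set g := Nat.gcd r d with hg
    have hg0 : 0 < g := Nat.gcd_pos_of_pos_right _ (Nat.pos_of_ne_zero hd)
    obtain ⟨r', hr'⟩ : g ∣ r := Nat.gcd_dvd_left r d
    obtain ⟨o, ho⟩ : g ∣ d := Nat.gcd_dvd_right r d
    have hcop : Nat.Coprime r' o := by
      have h1 : g = g * Nat.gcd r' o := by
        rw [← Nat.gcd_mul_left, ← hr', ← ho]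
      have h2 : g * 1 = g * Nat.gcd r' o := by rw [mul_one]; exact h1
      exact (Nat.eq_of_mul_eq_mul_left hg0 h2).symm
    have ho2 : 2 ≤ o := by
      by_contra hcon
      have ho1 : o = 0 ∨ o = 1 := by omega
      rcases ho1 with h | h
      · rw [h, mul_zero] at ho; exact hd ho
      · rw [h, mul_one] at ho
        have h1 : d ∣ r := by rw [ho]; exact Nat.gcd_dvd_left r d
        have h2 := Nat.le_of_dvd (Nat.pos_of_ne_zero hr0) h1
        have h3 : r < d := ZMod.val_lt R
        omega
    obtain ⟨j, hj, hj1, hj2⟩ := exists_middle ho2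
    obtain ⟨t0, _, ht0⟩ := Nat.exists_mul_mod_eq_of_coprime j hcop (by omega)
    have ht0' : r' * t0 ≡ j [MOD o] := ht0
    have ht0c : Nat.Coprime t0 o := by
      have h1 : Nat.Coprime (r' * t0) o := by
        have : Nat.gcd (r' * t0) o = Nat.gcd j o := ht0'.gcd_eq
        rw [Nat.Coprime, this]; exact hj
      exact Nat.Coprime.coprime_mul_left h1
    obtain ⟨t, ht, htt⟩ := lift_coprime (Dvd.intro_left g ho.symm : o ∣ d) hd ht0c
    have h1 := hV t ht
    have h2 := hb t ht
    have h3 : (t : ZMod d) * R = ((g * j : ℕ) : ZMod d) := by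
      have h4 : g * (r' * t) ≡ g * j [MOD d] := by
        have h4' := Nat.ModEq.mul_left' g ((htt.mul_left r').trans ht0')
        rwa [← ho] at h4'
      have h5 : (t : ZMod d) * R = ((g * (r' * t) : ℕ) : ZMod d) := by
        conv_lhs => rw [← ZMod.natCast_zmod_val R, ← hr, hr']
        push_cast; ring
      rw [h5]
      exact (ZMod.natCast_eq_natCast_iff _ _ _).mpr h4
    rw [h3] at h1
    have h6 : (d : ℤ) ∣ V t - ((g * j : ℕ) : ℤ) := by
      rw [← ZMod.intCast_zmod_eq_zero_iff_dvd]
      push_cast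
      rw [h1]
      push_cast; ring
    obtain ⟨z, hz⟩ := h6
    have h7 : V t = g * (j + o * z) := by
      have : (d : ℤ) = g * o := by exact_mod_cast ho
      rw [this] at hz
      push_cast at hz
      linear_combination hz
    have hgz : (0 : ℤ) < g := by exact_mod_cast hg0
    have h8 : 6 * |((j : ℤ) + o * z)| < o := by
      rw [h7, abs_mul, abs_of_pos hgz] at h2
      have : (d : ℤ) = g * o := by exact_mod_cast ho
      rw [this] at h2
      have h9 : (g : ℤ) * (6 * |((j : ℤ) + o * z)|) < g * o := by linarith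
      exact lt_of_mul_lt_mul_left h9 hgz.le
    have ho0 : (0 : ℤ) < o := by
      have : 0 < o := by omega
      exact_mod_cast this
    have hj1' : (o : ℤ) ≤ 6 * j := by exact_mod_cast hj1
    have hj2' : (6 * j : ℤ) ≤ 5 * o := by exact_mod_cast hj2
    have h11 := le_abs_self ((j : ℤ) + o * z)
    have h12 := neg_abs_le ((j : ℤ) + o * z)
    rcases lt_or_ge z 0 with hz0 | hz0
    · have : (o : ℤ) * z ≤ -o := by nlinarith
      linarith
    · have : (0 : ℤ) ≤ o * z := by positivity
      linarith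

end Pool.Agent.Y2
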