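import Pool.Agent.Y2.Small

/-!
Splitting a relation of the sawtooth at a large prime `q`: the entries prime to `q` and the
entries divisible by `q` form relations separately.
-/

namespace Pool.Agent.Y2

open Finset Pool.Agent.H916R2

lemma saw_cast {d : ℕ} [NeZero d] (b : ZMod d) : ((saw b : ℤ) : ZMod d) = 2 * b := by
  unfold saw
  by_cases h : b = 0
  · simp [h]
  · rw [if_neg h]
    push_cast
    rw [ZMod.natCast_zmod_val]
    simp

lemma saw_abs {d : ℕ} (hd : d ≠ 0) (b : ZMod d) : |saw b| ≤ (d : ℤ) - 1 := by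
  have : NeZero d := ⟨hd⟩
  have h1 : (1 : ℤ) ≤ d := by exact_mod_cast Nat.one_le_iff_ne_zero.mpr hd
  unfold saw
  by_cases h : b = 0
  · simp [h]; omega
  · rw [if_neg h]
    have h2 : (b.val : ℤ) < d := by exact_mod_cast ZMod.val_lt b
    have h3 : 0 < b.val := Nat.pos_of_ne_zero (fun h' => h ((ZMod.val_eq_zero b).mp h'))
    have h4 : (1 : ℤ) ≤ b.val := by exact_mod_cast h3
    rw [abs_le]
    constructor <;> omega

lemma abs_sum_le {α : Type*} (s : Multiset α) (f : α → ℤ) (B : ℤ) (h : ∀ a ∈ s, |f a| ≤ B) :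
    |(s.map f).sum| ≤ Multiset.card s * B := by
  induction s using Multiset.induction_on with
  | empty => simp
  | cons a s ih =>
    rw [Multiset.map_cons, Multiset.sum_cons, Multiset.card_cons]
    have h1 := ih (fun b hb => h b (Multiset.mem_cons_of_mem hb))
    have h2 := h a (Multiset.mem_cons_self a s)
    have h3 := abs_add_le (f a) (s.map f).sum
    push_cast
    nlinarith

/-- the sum of the sawtooth over a multiset -/
def SW (d : ℕ) (A : Multiset ℕ) (t : ℕ) : ℤ := (A.map fun a => saw ((t * a : ℕ) : ZMod d)).sum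

lemma SW_congr {d : ℕ} (A : Multiset ℕ) {t t' : ℕ} (h : t ≡ t' [MOD d]) : SW d A t = SW d A t' := by
  unfold SW
  congr 1
  apply Multiset.map_congr rfl
  intro a _
  have : ((t * a : ℕ) : ZMod d) = ((t' * a : ℕ) : ZMod d) :=
    (ZMod.natCast_eq_natCast_iff _ _ _).mpr (h.mul_right a)
  rw [this]

lemma SW_cast {d : ℕ} (hd : d ≠ 0) (A : Multiset ℕ) (t : ℕ) :
    ((SW d A t : ℤ) : ZMod d) = (t : ZMod d) * (2 * ((A.sum : ℕ) : ZMod d)) := by
  have : NeZero d := ⟨hd⟩
  unfold SW
  induction A using Multiset.induction_on with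
  | empty => simp
  | cons a A ih =>
    rw [Multiset.map_cons, Multiset.sum_cons, Multiset.sum_cons, Int.cast_add, ih, saw_cast]
    push_cast; ring

lemma SW_abs {d : ℕ} (hd : d ≠ 0) (A : Multiset ℕ) (t : ℕ) :
    |SW d A t| ≤ Multiset.card A * ((d : ℤ) - 1) :=
  abs_sum_le A _ _ fun _ _ => saw_abs hd _

lemma SW_level {m d q : ℕ} (hm : m ≠ 0) (hqd : q * d = m) (A : Multiset ℕ) (t : ℕ) :
    SW m A (q * t) = q * SW d A t := by
  unfold SW
  rw [← Multiset.sum_map_mul_left]
  congr 1
  apply Multiset.map_congr rfl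
  intro a _
  rw [mul_assoc, saw_mul_level hm hqd]

lemma saw_per {m : ℕ} (x y : ℕ) (h : x ≡ y [MOD m]) :
    saw (x : ZMod m) = saw (y : ZMod m) := by
  rw [(ZMod.natCast_eq_natCast_iff _ _ _).mpr h]

lemma saw_coset {q d m : ℕ} (hq : q.Prime) (hqd : q * d = m) (hm : m ≠ 0) {a : ℕ} (ha : ¬ q ∣ a)
    (x : ℕ) : ∑ i ∈ range q, saw ((x + a * i * d : ℕ) : ZMod m) = saw ((q * x : ℕ) : ZMod m) := by
  have : NeZero m := ⟨hm⟩
  have hcop : Nat.Coprime a q := (Nat.coprime_comm).mp ((Nat.Prime.coprime_iff_not_dvd hq).mpr ha)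
  have h1 := coset_mul hq.pos hqd (C := fun n : ℕ => saw (n : ZMod m)) saw_per hcop x
  rw [h1]
  have h2 := saw_dist hqd (x : ZMod m)
  push_cast
  exact h2

lemma SW_sum_shift {q d m : ℕ} (hq : q.Prime) (hqd : q * d = m) (hm : m ≠ 0) {A : Multiset ℕ}
    (hA : ∀ a ∈ A, ¬ q ∣ a) (t : ℕ) :
    ∑ i ∈ range q, SW m A (t + i * d) = q * SW d A t := by
  unfold SW
  rw [← Multiset.sum_map_sum, ← Multiset.sum_map_mul_left]
  congr 1
  apply Multiset.map_congr rfl
  intro a ha
  rw [← saw_mul_level hm hqd, ← saw_coset hq hqd hm (hA a ha)]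
  refine sum_congr rfl fun i _ => ?_
  congr 2
  ring

/-- **Splitting.** -/
theorem split {q d m : ℕ} (hq : q.Prime) (hqd : q * d = m) (hm : m ≠ 0) {A1 A2 : Multiset ℕ}
    (hA : ∀ a ∈ A1, ¬ q ∣ a) (hbig : 12 * Multiset.card A1 ≤ q - 1)
    (hrel : ∀ t, Nat.Coprime t m → SW m A1 t + q * SW d A2 t = 0) :
    (∀ t, Nat.Coprime t d → SW d A2 t = 0) ∧ ∀ t, Nat.Coprime t m → SW m A1 t = 0 := by
  have hd : d ≠ 0 := by rintro rfl; rw [mul_zero] at hqd; exact hm hqd.symm
  have hq2 := hq.two_le
  have hdz : (1 : ℤ) ≤ d := by exact_mod_cast Nat.one_le_iff_ne_zero.mpr hd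
  have key : ∀ t, Nat.Coprime t d → SW d A2 t = 0 := by
    apply small_zero hd _ (SW d A2) (fun t _ => SW_cast hd A2 t)
    intro t ht
    set U := (range q).filter (fun i => ¬ q ∣ t + i * d) with hU
    set W := SW d A2 t with hW
    set c : ℤ := (Multiset.card A1 : ℤ) with hc
    have hc0 : 0 ≤ c := by rw [hc]; positivity
    have hU1 : q - 1 ≤ U.card := by
      by_cases hqd' : q ∣ d
      · have : U = range q := by
          apply Finset.filter_true_of_mem
          intro i _ h
          have h1 : q ∣ t := (Nat.dvd_add_left (hqd'.mul_left i)).mp h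
          have h2 : q ∣ Nat.gcd t d := Nat.dvd_gcd h1 hqd'
          rw [ht] at h2
          exact hq.one_lt.ne' (Nat.dvd_one.mp h2)
        rw [this, card_range]; omega
      · rw [hU, card_not_dvd hq hqd' t]
    -- values on U
    have hval : ∀ i ∈ U, SW m A1 (t + i * d) = - (q * W) := by
      intro i hi
      rw [hU, mem_filter] at hi
      have hcop1 : Nat.Coprime (t + i * d) d := by
        rw [Nat.coprime_add_mul_right_left]; exact ht
      have hcop2 : Nat.Coprime (t + i * d) q :=
        (Nat.coprime_comm).mp ((Nat.Prime.coprime_iff_not_dvd hq).mpr hi.2)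
      have hcop : Nat.Coprime (t + i * d) m := by
        rw [← hqd]; exact Nat.Coprime.mul_right hcop2 hcop1
      have h1 := hrel _ hcop
      have h2 : SW d A2 (t + i * d) = W := by
        rw [hW]
        apply SW_congr
        have : t + i * d ≡ t + 0 [MOD d] :=
          Nat.ModEq.add_left t ((Nat.modEq_zero_iff_dvd).mpr (Dvd.intro_left i rfl))
        simpa using this
      rw [h2] at h1
      linarith
    have hsum := SW_sum_shift hq hqd hm hA t
    rw [← Finset.sum_filter_add_sum_filter_not (range q) (fun i => ¬ q ∣ t + i * d), ← hU,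
      sum_congr rfl hval, sum_const, nsmul_eq_mul] at hsum
    -- the remaining terms
    have hrem : |∑ i ∈ (range q).filter (fun i => ¬ ¬ q ∣ t + i * d), SW m A1 (t + i * d)| ≤
        ((q : ℤ) - U.card) * (q * (c * (d - 1))) := by
      refine le_trans (Finset.abs_sum_le_sum_abs _ _) ?_
      have h1 : ∀ i ∈ (range q).filter (fun i => ¬ ¬ q ∣ t + i * d),
          |SW m A1 (t + i * d)| ≤ q * (c * (d - 1)) := by
        intro i hi
        rw [mem_filter, not_not] at hi
        obtain ⟨ρ, hρ⟩ := hi.2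
        rw [hρ, SW_level hm hqd, abs_mul, Nat.abs_cast]
        exact mul_le_mul_of_nonneg_left (SW_abs hd A1 ρ) (by positivity)
      refine le_trans (Finset.sum_le_sum h1) ?_
      rw [sum_const, nsmul_eq_mul]
      have h2 := Finset.card_filter_add_card_filter_not (s := range q) (fun i => ¬ q ∣ t + i * d)
      rw [card_range, ← hU] at h2
      have h3 : (((range q).filter (fun i => ¬ ¬ q ∣ t + i * d)).card : ℤ) = (q : ℤ) - U.card := by
        have : ((U.card + ((range q).filter (fun i => ¬ ¬ q ∣ t + i * d)).card : ℕ) : ℤ) = q := by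
          exact_mod_cast h2
        push_cast at this
        linarith
      rw [h3]
    have hL := SW_abs hd A1 t
    have hu2 : (U.card : ℤ) ≤ q := by
      have : U.card ≤ q := by
        have := Finset.card_filter_le (range q) (fun i => ¬ q ∣ t + i * d)
        rw [card_range] at this
        exact this
      exact_mod_cast this
    have hu1 : (q : ℤ) - 1 ≤ U.card := by
      have : ((q - 1 : ℕ) : ℤ) ≤ U.card := by exact_mod_cast hU1
      rw [Nat.cast_sub hq.one_le] at this
      simpa using this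
    set u : ℤ := (U.card : ℤ) with hu
    have hbig' : 12 * c ≤ (q : ℤ) - 1 := by
      have : ((12 * Multiset.card A1 : ℕ) : ℤ) ≤ ((q - 1 : ℕ) : ℤ) := by exact_mod_cast hbig
      rw [Nat.cast_sub hq.one_le] at this
      push_cast at this
      linarith
    have hqz : (2 : ℤ) ≤ q := by exact_mod_cast hq2
    -- q * u * |W| ≤ 2 * q * c * (d - 1)
    have e1 : (q : ℤ) * (u * W) =
        (∑ i ∈ (range q).filter (fun i => ¬ ¬ q ∣ t + i * d), SW m A1 (t + i * d)) -
          q * SW d A1 t := by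
      linarith
    have e2 : (q : ℤ) * (u * |W|) ≤ q * (2 * (c * (d - 1))) := by
      have h1 : (q : ℤ) * (u * |W|) = |(q : ℤ) * (u * W)| := by
        rw [abs_mul, abs_mul, abs_of_nonneg (by linarith : (0 : ℤ) ≤ q),
          abs_of_nonneg (by linarith : (0 : ℤ) ≤ u)]
      rw [h1, e1]
      refine le_trans (abs_sub _ _) ?_
      have h2 : |(q : ℤ) * SW d A1 t| ≤ q * (c * (d - 1)) := by
        rw [abs_mul, Nat.abs_cast]
        exact mul_le_mul_of_nonneg_left hL (by positivity)
      have h3 : ((q : ℤ) - u) * (q * (c * (d - 1))) ≤ 1 * (q * (c * (d - 1))) := by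
        apply mul_le_mul_of_nonneg_right (by linarith)
        have : (0 : ℤ) ≤ d - 1 := by linarith
        positivity
      linarith
    have e3 : u * |W| ≤ 2 * (c * (d - 1)) :=
      le_of_mul_le_mul_left e2 (by linarith)
    have hW0 := abs_nonneg W
    have e4 : ((q : ℤ) - 1) * |W| ≤ 2 * (c * (d - 1)) := by
      have : ((q : ℤ) - 1) * |W| ≤ u * |W| := mul_le_mul_of_nonneg_right hu1 hW0
      linarith
    by_contra hcon
    push Not at hcon
    have e5 : ((q : ℤ) - 1) * d ≤ ((q : ℤ) - 1) * (6 * |W|) :=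
      mul_le_mul_of_nonneg_left hcon (by linarith)
    have e6 : 12 * c * ((d : ℤ) - 1) ≤ ((q : ℤ) - 1) * (d - 1) :=
      mul_le_mul_of_nonneg_right hbig' (by linarith)
    nlinarith
  refine ⟨key, fun t ht => ?_⟩
  have h1 := hrel t ht
  rw [key t (Nat.Coprime.coprime_dvd_right (Dvd.intro_left q hqd) ht)] at h1
  linarith

/-- Going up the tower. -/
theorem tower {q k m' m : ℕ} (hq : q.Prime) (hqm : q ^ k * m' = m) (hm : m ≠ 0) {A : Multiset ℕ}
    (hA : ∀ a ∈ A, ¬ q ∣ a) (h0 : ∀ t, Nat.Coprime t m → SW m A t = 0) :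
    ∀ j, j < k → ∀ t, Nat.Coprime t m → SW m A (q ^ j * t) = 0 := by
  intro j
  induction j with
  | zero => intro _ t ht; simpa using h0 t ht
  | succ j ih =>
    intro hj t ht
    obtain ⟨e, he⟩ : ∃ e, k = j + 1 + (e + 1) := ⟨k - j - 2, by omega⟩
    set f := q ^ (e + 1) * m' with hf
    have hfm : q ^ (j + 1) * f = m := by rw [hf, ← hqm, he]; ring
    have hqd : q * (q ^ j * f) = m := by rw [← hfm]; ring
    have hqf : q ∣ f := by rw [hf, pow_succ]; exact ⟨q ^ e * m', by ring⟩
    have htf : Nat.Coprime t f := Nat.Coprime.coprime_dvd_right (Dvd.intro_left _ hfm) ht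
    have h1 : ∀ i, SW m A (q ^ j * (t + i * f)) = 0 := by
      intro i
      apply ih (by omega)
      have h2 : Nat.Coprime (t + i * f) f := by
        rw [Nat.coprime_add_mul_right_left]; exact htf
      rw [← hfm]
      exact Nat.Coprime.mul_right (Nat.Coprime.pow_right _ (Nat.Coprime.coprime_dvd_right hqf h2)) h2
    have h2 := SW_sum_shift hq hqd hm hA (q ^ j * t)
    have h3 : ∑ i ∈ range q, SW m A (q ^ j * t + i * (q ^ j * f)) = 0 := by
      apply sum_eq_zero
      intro i _
      rw [← h1 i]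
      congr 1
      ring
    rw [h3] at h2
    rw [show q ^ (j + 1) * t = q * (q ^ j * t) by ring, SW_level hm hqd, ← h2]

end Pool.Agent.Y2
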