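import Pool.Agent.Y2.Cnt
import Pool.Agent.H916K.Level

/-!
Relations of the sawtooth at all the levels `m, m / q, m / q ^ 2, ...` kill all odd distributions
away from `q`.
-/

namespace Pool.Agent.Y2

open Finset Pool.Agent.H916R2

/-- Torsion freeness of the universal odd distribution away from `q`. -/
theorem univ_zero {q m : ℕ} (hq : q.Prime) (hqm : q ∣ m) (hq2 : 2 < q ^ (m.factorization q)) (hm : m ≠ 0)
    {ι : Type*} (I : Finset ι) (w : ι → ℤ) (a : ι → ℕ)
    (h : ∀ C : ℕ → ℤ, TD q m (PO q m) C → (∀ x y, m ∣ x + y → C y = - C x) →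
      ∑ i ∈ I, w i * C (a i) = 0)
    {Q : Type*} [AddCommGroup Q] {C : ℕ → Q} (hC : TD q m (PO q m) C)
    (hodd : ∀ x y, m ∣ x + y → C y = - C x) : ∑ i ∈ I, w i • C (a i) = 0 := by
  classical
  have hPp : ∀ r ∈ PO q m, r.Prime ∧ r ∣ m ∧ r ≠ q := fun r hr => PO_prime hr
  let T := {F : ℕ → ℤ // TD q m (PO q m) F ∧ ∀ x y, m ∣ x + y → F y = - F x}
  let c' : ℕ → Q × (T → ℤ) := fun n => (C n, fun F => F.1 n)
  have hc' : TD q m (PO q m) c' := by
    refine ⟨?_, ?_, ?_⟩
    · intro x y hxy
      refine Prod.ext (hC.per x y hxy) (funext fun F => F.2.1.per x y hxy)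
    · intro hqm n hn
      refine Prod.ext (hC.supp hqm n hn) (funext fun F => F.2.1.supp hqm n hn)
    · intro r hr n
      refine Prod.ext ?_ ?_
      · rw [Prod.fst_sum]; exact hC.dist r hr n
      · rw [Prod.snd_sum]
        funext F
        rw [Finset.sum_apply]
        exact F.2.1.dist r hr n
  have hodd' : ∀ x y, m ∣ x + y → c' y = - c' x := by
    intro x y hxy
    refine Prod.ext (hodd x y hxy) (funext fun F => F.2.2 x y hxy)
  let BN : Finset ℕ := (range m).filter (fun x => (¬ q ∣ x ∧ PS q m x) ∧ ∀ r ∈ PO q m, TT r m x)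
  let Φ : (ℕ → ℤ) →+ Q × (T → ℤ) :=
    { toFun := fun y => ∑ b ∈ BN, y b • c' b
      map_zero' := by simp
      map_add' := by
        intro y z
        simp only [Pi.add_apply, add_smul, sum_add_distrib] }
  have hall : ∀ x, c' x ∈ Φ.range := by
    intro x
    by_cases hx : q ∣ x
    · rw [hc'.supp hqm x hx]; exact AddSubgroup.zero_mem _
    · refine elim_sign hm hq hq2 hqm (PO q m) hPp c' hc'.dist Φ.range ?_ ?_ x hx
      · intro x y hxy hy
        rw [hodd' y x (by rw [add_comm]; exact hxy)]
        exact AddSubgroup.neg_mem _ hy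
      · intro x hx hPS hT
        have hxB : x % m ∈ BN := by
          simp only [BN, mem_filter, mem_range]
          refine ⟨Nat.mod_lt _ (Nat.pos_of_ne_zero hm), ⟨?_, ?_⟩, ?_⟩
          · intro h; exact hx ((Nat.dvd_mod_iff hqm).mp h)
          · rw [PS_mod]; exact hPS
          · intro r hr
            rw [TT_mod]; exact hT r hr
        refine ⟨Pi.single (x % m) 1, ?_⟩
        change ∑ b ∈ BN, (Pi.single (x % m) (1 : ℤ) : ℕ → ℤ) b • c' b = c' x
        rw [Finset.sum_eq_single (x % m)]
        · rw [Pi.single_eq_same, one_smul]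
          exact hc'.per _ _ (Nat.mod_modEq x m)
        · intro b _ hb; rw [Pi.single_eq_of_ne hb, zero_smul]
        · intro h; exact absurd hxB h
  have hsum : ∑ i ∈ I, w i • c' (a i) ∈ Φ.range :=
    AddSubgroup.sum_mem _ fun i _ => AddSubgroup.zsmul_mem _ (hall (a i)) _
  obtain ⟨y, hy⟩ := hsum
  have hy' : ∑ b ∈ BN, y b • c' b = ∑ i ∈ I, w i • c' (a i) := hy
  have hy0 : ∀ b ∈ BN, y b = 0 := by
    intro b0 hb0
    obtain ⟨F, hF1, hF2, hF3⟩ := exists_td_odd hq hqm hq2 hm (fun x => if x = b0 then 1 else 0)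
    have h1 := congrArg (fun z : Q × (T → ℤ) => z.2 ⟨F, hF1, hF2⟩) hy'
    simp only [Prod.snd_sum, Finset.sum_apply] at h1
    have h2 : ∑ b ∈ BN, y b * F b = ∑ i ∈ I, w i * F (a i) := h1
    rw [h F hF1 hF2] at h2
    have h3 : ∑ b ∈ BN, y b * F b = y b0 := by
      rw [Finset.sum_eq_single b0]
      · simp only [BN, mem_filter, mem_range] at hb0
        rw [hF3 b0 hb0.2.1.1 hb0.2.1.2 hb0.2.2, Nat.mod_eq_of_lt hb0.1]
        simp
      · intro b hb hne
        simp only [BN, mem_filter, mem_range] at hb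
        rw [hF3 b hb.2.1.1 hb.2.1.2 hb.2.2, Nat.mod_eq_of_lt hb.1]
        simp [hne]
      · intro h; exact absurd hb0 h
    rw [← h3, h2]
  have h4 := congrArg Prod.fst hy'
  simp only [Prod.fst_sum] at h4
  have h5 : ∑ b ∈ BN, y b • C b = ∑ i ∈ I, w i • C (a i) := h4
  rw [← h5]
  apply sum_eq_zero
  intro b hb
  rw [hy0 b hb, zero_smul]

/-- sums over fibres -/
lemma sum_fibre {m : ℕ} [NeZero m] {ι : Type*} (I : Finset ι) (w : ι → ℤ) (a : ι → ZMod m)
    (G : ZMod m → ℤ) :
    ∑ b, (∑ i ∈ I, if a i = b then w i else 0) * G b = ∑ i ∈ I, w i * G (a i) := by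
  simp only [sum_mul]
  rw [sum_comm]
  refine sum_congr rfl fun i _ => ?_
  rw [Finset.sum_eq_single (a i)]
  · rw [if_pos rfl]
  · intro b _ hb
    rw [if_neg (Ne.symm hb), zero_mul]
  · intro h; exact absurd (mem_univ _) h

/-- integral odd distributions kill the relations of the sawtooth -/
lemma rel_nat {m : ℕ} (hm : m ≠ 0) {ι : Type*} (I : Finset ι) (w : ι → ℤ) (a : ι → ℕ)
    (h : ∀ t, Nat.Coprime t m → ∑ i ∈ I, w i * saw ((t * a i : ℕ) : ZMod m) = 0)
    (g : ℕ → ℤ) (hper : ∀ x y, x ≡ y [MOD m] → g x = g y)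
    (hodd : ∀ x y, m ∣ x + y → g y = - g x)
    (hdist : ∀ p, p.Prime → p ∣ m → ∀ n, ∑ i ∈ range p, g (n + i * (m / p)) = g (p * n)) :
    ∑ i ∈ I, w i * g (a i) = 0 := by
  classical
  have : NeZero m := ⟨hm⟩
  let x : ZMod m → ℤ := fun b => ∑ i ∈ I, if (a i : ZMod m) = b then w i else 0
  have hx : Rel x := by
    intro t
    have h1 := sum_fibre I w (fun i => (a i : ZMod m)) (fun b => saw ((t : ZMod m) * b))
    rw [show ∑ b, x b * saw ((t : ZMod m) * b) =
      ∑ i ∈ I, w i * saw ((t : ZMod m) * (a i : ZMod m)) from h1]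
    rw [← h (t : ZMod m).val (ZMod.val_coe_unit_coprime t)]
    refine sum_congr rfl fun i _ => ?_
    congr 2
    push_cast
    rw [ZMod.natCast_zmod_val]
  have hval : ∀ (y : ℕ) , g ((y : ZMod m)).val = g y := by
    intro y
    apply hper
    rw [ZMod.val_natCast]
    exact Nat.mod_modEq y m
  have hg : OddDist (fun b : ZMod m => g b.val) := by
    refine ⟨?_, ?_, ?_⟩
    · intro b
      apply hodd
      rw [← ZMod.natCast_eq_zero_iff]
      push_cast
      rw [ZMod.natCast_zmod_val, ZMod.natCast_zmod_val, add_neg_cancel]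
    · intro b hb
      have h1 : g b.val = - g b.val := by
        apply hodd
        rw [← ZMod.natCast_eq_zero_iff]
        push_cast
        rw [ZMod.natCast_zmod_val]; exact hb
      change g b.val = 0
      omega
    · intro p d hp hpd b
      have hpm : p ∣ m := Dvd.intro d hpd
      have hd : m / p = d := by rw [← hpd, Nat.mul_div_cancel_left _ hp.pos]
      have h1 := hdist p hp hpm b.val
      rw [hd] at h1
      have h2 : ∀ i ∈ range p, g (b + (i : ZMod m) * (d : ZMod m)).val = g (b.val + i * d) := by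
        intro i _
        rw [← hval (b.val + i * d)]
        congr 2
        push_cast
        rw [ZMod.natCast_zmod_val]
      rw [sum_congr rfl h2, h1, ← hval (p * b.val)]
      congr 2
      push_cast
      rw [ZMod.natCast_zmod_val]
  have h2 := H916K.rel_int hx hg
  have h3 := sum_fibre I w (fun i => (a i : ZMod m)) (fun b => g b.val)
  rw [show ∑ b, x b * g b.val = ∑ i ∈ I, w i * g (a i : ZMod m).val from h3] at h2
  rw [← h2]
  refine sum_congr rfl fun i _ => ?_
  rw [hval]

lemma lift_coprime {d m t : ℕ} (hdm : d ∣ m) (hm : m ≠ 0) (ht : Nat.Coprime t d) :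
    ∃ t', Nat.Coprime t' m ∧ t' ≡ t [MOD d] := by
  have : NeZero m := ⟨hm⟩
  obtain ⟨u, hu⟩ := ZMod.unitsMap_surjective hdm (ZMod.unitOfCoprime t ht)
  refine ⟨(u : ZMod m).val, ZMod.val_coe_unit_coprime u, ?_⟩
  have h1 := congrArg (fun z : (ZMod d)ˣ => (z : ZMod d)) hu
  simp only [ZMod.unitsMap_val, ZMod.coe_unitOfCoprime] at h1
  rw [← ZMod.natCast_eq_natCast_iff, ← h1, ZMod.natCast_val]

lemma saw_mul_level {m d q : ℕ} (hm : m ≠ 0) (hqd : q * d = m) (n : ℕ) :
    saw ((q * n : ℕ) : ZMod m) = q * saw (n : ZMod d) := by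
  have : NeZero m := ⟨hm⟩
  have : NeZero d := ⟨by rintro rfl; rw [mul_zero] at hqd; exact hm hqd.symm⟩
  rw [← saw_iota hqd, iota_natCast hqd]

lemma PO_level {q d m r : ℕ} (hq : q.Prime) (hm : m ≠ 0) (hqd : q * d = m) :
    r ∈ PO q m ↔ r ∈ PO q d := by
  have hd : d ≠ 0 := by rintro rfl; rw [mul_zero] at hqd; exact hm hqd.symm
  rw [PO, PO, Finset.mem_erase, Finset.mem_erase, Nat.mem_primeFactors, Nat.mem_primeFactors]
  constructor
  · rintro ⟨h1, h2, h3, _⟩
    refine ⟨h1, h2, ?_, hd⟩
    rw [← hqd] at h3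
    rcases (Nat.Prime.dvd_mul h2).mp h3 with h | h
    · exact absurd ((Nat.prime_dvd_prime_iff_eq h2 hq).mp h) h1
    · exact h
  · rintro ⟨h1, h2, h3, _⟩
    exact ⟨h1, h2, hqd ▸ h3.mul_left q, hm⟩

lemma card_not_dvd {q d : ℕ} (hq : q.Prime) (hqd : ¬ q ∣ d) (n : ℕ) :
    ((range q).filter (fun i => ¬ q ∣ n + i * d)).card = q - 1 := by
  have h1 : ∑ i ∈ range q, (if ¬ q ∣ n + i * d then 1 else 0) =
      ∑ i ∈ range q, (if ¬ q ∣ n + i then 1 else 0) := by
    have hG : ∀ i, (if ¬ q ∣ n + i % q then 1 else 0) = (if ¬ q ∣ n + i then 1 else 0) := by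
      intro i
      have : q ∣ n + i % q ↔ q ∣ n + i := by
        rw [← ZMod.natCast_eq_zero_iff, ← ZMod.natCast_eq_zero_iff]
        push_cast
        simp
      simp only [this]
    have := sum_range_mul hq.pos (fun i => if ¬ q ∣ n + i then 1 else 0) hG (n := d)
      ((Nat.coprime_comm).mp ((Nat.Prime.coprime_iff_not_dvd hq).mpr hqd))
    rw [← this]
    refine sum_congr rfl fun i _ => ?_
    rw [mul_comm i d]
  have h2 : ∀ n, ∑ i ∈ range q, (if ¬ q ∣ n + i then 1 else 0) =
      ∑ i ∈ range q, (if ¬ q ∣ i then 1 else 0) := by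
    intro n
    induction n with
    | zero => simp
    | succ n ih =>
      rw [← ih]
      have hG : ∀ i, (if ¬ q ∣ n + i % q then 1 else 0) = (if ¬ q ∣ n + i then 1 else 0) := by
        intro i
        have : q ∣ n + i % q ↔ q ∣ n + i := by
          rw [← ZMod.natCast_eq_zero_iff, ← ZMod.natCast_eq_zero_iff]
          push_cast
          simp
        simp only [this]
      rw [← sum_range_shift hq.pos (fun i => if ¬ q ∣ n + i then 1 else 0) hG]
      refine sum_congr rfl fun i _ => ?_
      rw [show n + 1 + i = n + (i + 1) by ring]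
  rw [Finset.card_filter, h1, h2]
  obtain ⟨k, rfl⟩ : ∃ k, q = k + 1 := ⟨q - 1, by have := hq.pos; omega⟩
  rw [sum_range_succ', Nat.add_sub_cancel]
  simp only [dvd_zero, not_true_eq_false, if_false, add_zero]
  have h3 : ∀ i ∈ range k, (if ¬ (k + 1) ∣ i + 1 then 1 else 0) = 1 := by
    intro i hi
    rw [if_pos]
    intro h
    have := Nat.le_of_dvd (Nat.succ_pos i) h
    have := mem_range.mp hi
    omega
  rw [sum_congr rfl h3]
  simp

section level

variable {Q : Type*} [AddCommGroup Q] {q m d : ℕ} (hq : q.Prime) (hqd : q * d = m) (hm : m ≠ 0)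
  {C : ℕ → Q} (hC : TD q m (PO q m) C)

include hq hqd hm hC

/-- push forward to level `m / q` -/
lemma push_td : TD q d (PO q d) (fun n => ∑ i ∈ range q, C (n + i * d)) := by
  have hd : d ≠ 0 := by rintro rfl; rw [mul_zero] at hqd; exact hm hqd.symm
  have hshift : ∀ n j, ∑ i ∈ range q, C (n + j * d + i * d) = ∑ i ∈ range q, C (n + i * d) :=
    fun n j => coset_shift_mul hq.pos hqd hC.per n j
  have hper : ∀ x y, x ≡ y [MOD d] →
      ∑ i ∈ range q, C (x + i * d) = ∑ i ∈ range q, C (y + i * d) := by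
    intro x y hxy
    have h1 : ∀ z, ∑ i ∈ range q, C (z + i * d) = ∑ i ∈ range q, C (z % d + i * d) := by
      intro z
      conv_lhs => rw [← Nat.mod_add_div z d, mul_comm d (z / d)]
      exact hshift _ _
    rw [h1 x, h1 y, hxy]
  refine ⟨hper, ?_, ?_⟩
  · intro hqd' n hn
    apply sum_eq_zero
    intro i _
    exact hC.supp (Dvd.intro d hqd) _ (dvd_add hn (hqd'.mul_left i))
  · intro r hr n
    obtain ⟨hr1, hr2, hr3⟩ := PO_prime hr
    have hrm : r ∈ PO q m := (PO_level hq hm hqd).mpr hr
    have hcop : Nat.Coprime r q := (Nat.coprime_primes hr1 hq).mpr hr3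
    have hmr : m / r = q * (d / r) := by
      rw [← hqd, Nat.mul_div_assoc _ hr2]
    have e1 : ∑ i ∈ range q, C (r * n + i * d) =
        ∑ i ∈ range q, ∑ j ∈ range r, C (n + i * d + j * (m / r)) := by
      rw [← coset_mul hq.pos hqd hC.per hcop (r * n)]
      refine sum_congr rfl fun i _ => ?_
      rw [hC.dist r hrm (n + i * d)]
      congr 1; ring
    rw [e1.trans sum_comm]
    have hG : ∀ j, (∑ i ∈ range q, C (n + (j % r) * (d / r) + i * d)) =
        ∑ i ∈ range q, C (n + j * (d / r) + i * d) := by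
      intro j
      apply hper
      apply Nat.ModEq.add_left
      have h3 := Nat.ModEq.mul_right' (d / r) (Nat.mod_modEq j r)
      rwa [Nat.mul_div_cancel' hr2] at h3
    have h2 := sum_range_mul hr1.pos (fun j => ∑ i ∈ range q, C (n + j * (d / r) + i * d)) hG
      hcop.symm
    rw [← h2]
    refine sum_congr rfl fun j _ => sum_congr rfl fun i _ => ?_
    congr 1
    rw [hmr]; ring

lemma push_odd (hodd : ∀ x y, m ∣ x + y → C y = - C x) (x y : ℕ) (hxy : d ∣ x + y) :
    ∑ i ∈ range q, C (y + i * d) = - ∑ i ∈ range q, C (x + i * d) := by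
  have hd : d ≠ 0 := by rintro rfl; rw [mul_zero] at hqd; exact hm hqd.symm
  have hper := (push_td hq hqd hm hC).per
  -- replace `y` by `(m - 1) * x`
  have hm1 : 1 ≤ m := Nat.one_le_iff_ne_zero.mpr hm
  have hsum : x + (m - 1) * x = m * x := by
    obtain ⟨k, rfl⟩ : ∃ k, m = k + 1 := ⟨m - 1, by omega⟩
    simp; ring
  have hy : y ≡ (m - 1) * x [MOD d] := by
    have h1 : x + y ≡ x + (m - 1) * x [MOD d] := by
      rw [hsum]
      exact ((Nat.modEq_zero_iff_dvd).mpr hxy).trans
        ((Nat.modEq_zero_iff_dvd).mpr (dvd_mul_of_dvd_left (Dvd.intro_left q hqd) x)).symm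
    exact Nat.ModEq.add_left_cancel' x h1
  rw [hper _ _ hy, ← sum_neg_distrib]
  have hcop : Nat.Coprime (q - 1) q := by
    have h1 := Nat.coprime_self_sub_right (m := 1) (n := q) hq.one_le
    rw [Nat.coprime_comm]
    exact h1.mpr (Nat.coprime_one_right q)
  rw [← coset_mul hq.pos hqd hC.per hcop ((m - 1) * x)]
  refine sum_congr rfl fun i _ => ?_
  apply hodd
  have h3 : x + i * d + ((m - 1) * x + (q - 1) * i * d) = m * x + i * m := by
    have h4 : i * d + (q - 1) * i * d = i * m := by
      rw [← hqd]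
      obtain ⟨k, hk⟩ : ∃ k, q = k + 1 := ⟨q - 1, by have := hq.pos; omega⟩
      rw [hk, Nat.add_sub_cancel]; ring
    calc x + i * d + ((m - 1) * x + (q - 1) * i * d)
        = (x + (m - 1) * x) + (i * d + (q - 1) * i * d) := by ring
      _ = _ := by rw [hsum, h4]
  rw [h3]
  exact dvd_add (Dvd.intro _ rfl) (Dvd.intro_left _ rfl)

end level

/-- **Main step**: relations at all levels `m / q ^ j` kill the integral odd distributions away
from `q`. -/
theorem star {q : ℕ} (hq : q.Prime) {ι : Type*} (I : Finset ι) (w : ι → ℤ) (a : ι → ℕ) :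
    ∀ m, m ≠ 0 → (q ∣ m → ∀ i ∈ I, ¬ q ∣ a i) →
    (∀ j t, Nat.Coprime t m → ∑ i ∈ I, w i * saw ((t * (q ^ j * a i) : ℕ) : ZMod m) = 0) →
    ∀ C : ℕ → ℤ, TD q m (PO q m) C → (∀ x y, m ∣ x + y → C y = - C x) →
      ∑ i ∈ I, w i * C (a i) = 0 := by
  classical
  intro m
  induction m using Nat.strong_induction_on with
  | _ m ih =>
  intro hm ha hrel C hC hodd
  have h0 : ∀ t, Nat.Coprime t m → ∑ i ∈ I, w i * saw ((t * a i : ℕ) : ZMod m) = 0 := by
    intro t ht
    have := hrel 0 t ht
    simp only [pow_zero, one_mul] at this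
    exact this
  by_cases hqm : q ∣ m
  · obtain ⟨d, hd⟩ := hqm
    have hqd : q * d = m := hd.symm
    have hqm : q ∣ m := Dvd.intro d hqd
    have hd0 : d ≠ 0 := by rintro rfl; rw [mul_zero] at hqd; exact hm hqd.symm
    have hmq : m / q = d := by rw [← hqd, Nat.mul_div_cancel_left _ hq.pos]
    have hdm : d < m := by
      have := hq.two_le
      have : 0 < d := Nat.pos_of_ne_zero hd0
      nlinarith
    have hF := push_td hq hqd hm hC
    have hFo := push_odd hq hqd hm hC hodd
    set F : ℕ → ℤ := fun n => ∑ i ∈ range q, C (n + i * d) with hFdef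
    set n0 : ℤ := if q ∣ d then (q : ℤ) else (q : ℤ) - 1 with hn0
    have hn00 : n0 ≠ 0 := by
      have := hq.two_le
      rw [hn0]
      split_ifs
      · have : (2 : ℤ) ≤ q := by exact_mod_cast hq.two_le
        omega
      · have : (2 : ℤ) ≤ q := by exact_mod_cast hq.two_le
        omega
    -- the corrected distribution
    let D : ℕ → ℤ := fun n => n0 * C n - if q ∣ n then 0 else F n
    have hdvd : ∀ x y, x ≡ y [MOD m] → (q ∣ x ↔ q ∣ y) := by
      intro x y hxy
      exact (hxy.of_dvd hqm).dvd_iff dvd_rfl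
    have hDsum : ∑ i ∈ I, w i * D (a i) = 0 := by
      apply rel_nat hm I w a h0 D
      · intro x y hxy
        have h1 := hC.per x y hxy
        have h2 := hF.per x y (hxy.of_dvd (Dvd.intro_left q hqd))
        simp only [D, h1, h2, hdvd x y hxy]
      · intro x y hxy
        have h1 := hodd x y hxy
        have h2 := hFo x y (dvd_trans (Dvd.intro_left q hqd) hxy)
        have h3 : q ∣ x ↔ q ∣ y := by
          constructor
          · intro h; exact (Nat.dvd_add_right h).mp (dvd_trans hqm hxy)
          · intro h; exact (Nat.dvd_add_left h).mp (dvd_trans hqm hxy)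
        have h2' : F y = - F x := h2
        simp only [D, h1, h2', h3]
        split_ifs <;> ring
      · intro p hp hpm n
        by_cases hpq : p = q
        · -- the relation at `q`
          subst hpq
          rw [hmq]
          have hC0 : C (p * n) = 0 := hC.supp hqm _ (Dvd.intro n rfl)
          have h1 : D (p * n) = 0 := by
            simp only [D, hC0, mul_zero, if_pos (Dvd.intro n rfl : p ∣ p * n), sub_zero]
          rw [h1]
          have h2 : ∀ i ∈ range p, D (n + i * d) =
              n0 * C (n + i * d) - if ¬ p ∣ n + i * d then F n else 0 := by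
            intro i _
            have h3 : F (n + i * d) = F n := hF.per _ _ (by
              have : n + i * d ≡ n + 0 [MOD d] :=
                Nat.ModEq.add_left n ((Nat.modEq_zero_iff_dvd).mpr (Dvd.intro_left i rfl))
              simpa using this)
            simp only [D, h3]
            split_ifs <;> rfl
          rw [sum_congr rfl h2, sum_sub_distrib, ← mul_sum, ← Finset.sum_filter, sum_const,
            nsmul_eq_mul]
          change n0 * F n - _ = 0
          by_cases hpd : p ∣ d
          · by_cases hpn : p ∣ n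
            · have hF0 : F n = 0 := hF.supp hpd n hpn
              rw [hF0]; ring
            · have : (range p).filter (fun i => ¬ p ∣ n + i * d) = range p := by
                apply Finset.filter_true_of_mem
                intro i _ h
                exact hpn ((Nat.dvd_add_left (hpd.mul_left i)).mp h)
              rw [this, card_range, hn0, if_pos hpd]; ring
          · rw [card_not_dvd hq hpd n, hn0, if_neg hpd, Nat.cast_sub hq.one_le]
            push_cast; ring
        · -- the relation at another prime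
          have hpP : p ∈ PO q m := by
            rw [PO, Finset.mem_erase]
            exact ⟨hpq, Nat.mem_primeFactors.mpr ⟨hp, hpm, hm⟩⟩
          have hpPd : p ∈ PO q d := (PO_level hq hm hqd).mp hpP
          obtain ⟨_, hpd, _⟩ := PO_prime hpPd
          have hcop : Nat.Coprime q p := (Nat.coprime_primes hq hp).mpr (Ne.symm hpq)
          have hmp : m / p = q * (d / p) := by
            rw [← hqd, Nat.mul_div_assoc _ hpd]
          have hqmp : q ∣ m / p := by rw [hmp]; exact Dvd.intro _ rfl
          have h1 : ∀ i, (q ∣ n + i * (m / p) ↔ q ∣ n) := by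
            intro i
            exact Nat.dvd_add_left (hqmp.mul_left i)
          have h2 : q ∣ p * n ↔ q ∣ n := by
            constructor
            · intro h
              rcases (Nat.Prime.dvd_mul hq).mp h with h | h
              · exact absurd ((Nat.prime_dvd_prime_iff_eq hq hp).mp h) (Ne.symm hpq)
              · exact h
            · intro h; exact h.mul_left p
          simp only [D, h1, h2, sum_sub_distrib, ← mul_sum]
          rw [hC.dist p hpP n]
          congr 1
          by_cases hqn : q ∣ n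
          · simp [hqn]
          · simp only [hqn, if_false]
            rw [← hF.dist p hpPd n, ← coset_mul hp.pos (Nat.mul_div_cancel' hpd) hF.per hcop n]
            refine sum_congr rfl fun i _ => ?_
            congr 1
            rw [hmp]; ring
    have h3 : n0 * ∑ i ∈ I, w i * C (a i) = ∑ i ∈ I, w i * F (a i) := by
      have h4 : ∑ i ∈ I, w i * D (a i) =
          n0 * ∑ i ∈ I, w i * C (a i) - ∑ i ∈ I, w i * F (a i) := by
        rw [mul_sum, ← sum_sub_distrib]
        refine sum_congr rfl fun i hi => ?_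
        simp only [D, if_neg (ha hqm i hi)]
        ring
      rw [hDsum] at h4
      linarith
    have h5 : ∑ i ∈ I, w i * F (a i) = 0 := by
      apply ih d hdm hd0 (fun _ => ha hqm) ?_ F hF hFo
      intro j t ht
      obtain ⟨t', ht', htt⟩ := lift_coprime (Dvd.intro_left q hqd) hm ht
      have h6 := hrel (j + 1) t' ht'
      have h7 : ∀ i ∈ I, w i * saw ((t' * (q ^ (j + 1) * a i) : ℕ) : ZMod m) =
          (q : ℤ) * (w i * saw ((t * (q ^ j * a i) : ℕ) : ZMod d)) := by
        intro i _
        have h8 : ((t' * (q ^ (j + 1) * a i) : ℕ) : ZMod m) =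
            ((q * (t * (q ^ j * a i)) : ℕ) : ZMod m) := by
          rw [ZMod.natCast_eq_natCast_iff]
          have h9 : q * t' ≡ q * t [MOD m] := by
            rw [← hqd]; exact Nat.ModEq.mul_left' q htt
          have h10 := h9.mul_right (q ^ j * a i)
          have e1 : t' * (q ^ (j + 1) * a i) = q * t' * (q ^ j * a i) := by ring
          have e2 : q * (t * (q ^ j * a i)) = q * t * (q ^ j * a i) := by ring
          rw [e1, e2]; exact h10
        rw [h8, saw_mul_level hm hqd]
        ring
      rw [sum_congr rfl h7, ← mul_sum] at h6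
      have hq0 : (q : ℤ) ≠ 0 := by exact_mod_cast hq.ne_zero
      exact (mul_eq_zero.mp h6).resolve_left hq0
    rw [h5] at h3
    exact (mul_eq_zero.mp h3).resolve_left hn00
  · -- no `q` in the level
    apply rel_nat hm I w a h0 C hC.per hodd
    intro p hp hpm n
    apply hC.dist
    rw [PO, Finset.mem_erase]
    refine ⟨?_, Nat.mem_primeFactors.mpr ⟨hp, hpm, hm⟩⟩
    rintro rfl
    exact hqm hpm

end Pool.Agent.Y2
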