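import Pool.Agent.Y2.Theta

/-!
The invariance of the part of a relation which is prime to `q`, the divisibility of its sums of
signs, and the removal of this part when these sums vanish.
-/

namespace Pool.Agent.Y2

open Finset Pool.Agent.H916R2

/-- the setting: a relation of odd level `q * d` -/
structure Setting (q d m : ℕ) (A1 A2 : Multiset ℕ) : Prop where
  hq : q.Prime
  hqd : q * d = m
  hodd : m % 2 = 1
  hA : ∀ a ∈ A1, ¬ q ∣ a
  hrel : ∀ t, Nat.Coprime t m → SW m A1 t + q * SW d A2 t = 0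

namespace Setting

variable {q d m : ℕ} {A1 A2 : Multiset ℕ} (H : Setting q d m A1 A2)

include H

lemma hm : m ≠ 0 := by have := H.hodd; rintro rfl; simp at this

lemma hd : d ≠ 0 := by
  have h1 := H.hqd
  have h2 := H.hm
  rintro rfl
  rw [mul_zero] at h1
  exact h2 h1.symm

lemma dodd : d % 2 = 1 := by
  have h1 := H.hqd
  have h2 := H.hodd
  rw [← h1, ← Nat.odd_iff, Nat.odd_mul] at h2
  exact Nat.odd_iff.mp h2.2

lemma qodd : q % 2 = 1 := by
  have h1 := H.hqd
  have h2 := H.hodd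
  rw [← h1, ← Nat.odd_iff, Nat.odd_mul] at h2
  exact Nat.odd_iff.mp h2.1

lemma hinv : ∀ i t κ, Nat.Coprime t m → Nat.Coprime κ m → κ ≡ 1 [MOD d] →
    SW m A1 (q ^ i * (t * κ)) = SW m A1 (q ^ i * t) := by
  intro i t κ ht hκ hκd
  rcases Nat.eq_zero_or_pos i with rfl | hi
  · simp only [pow_zero, one_mul]
    have h1 := H.hrel t ht
    have h2 := H.hrel (t * κ) (Nat.Coprime.mul_left ht hκ)
    have h3 : SW d A2 (t * κ) = SW d A2 t := by
      apply SW_congr
      have := hκd.mul_left t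
      rwa [mul_one] at this
    rw [h3] at h2
    linarith
  · apply SW_congr
    obtain ⟨j, rfl⟩ : ∃ j, i = j + 1 := ⟨i - 1, by omega⟩
    have h1 := hκd.mul_left t
    have h2 := Nat.ModEq.mul_left' q h1
    rw [H.hqd] at h2
    have h3 := h2.mul_left (q ^ j)
    have e1 : q ^ (j + 1) * (t * κ) = q ^ j * (q * (t * κ)) := by ring
    have e2 : q ^ (j + 1) * t = q ^ j * (q * (t * 1)) := by ring
    rw [e1, e2]
    exact h3

lemma PO_dvd : ∀ r ∈ PO q m, r.Prime ∧ r ∣ d := by
  intro r hr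
  obtain ⟨h1, h2, h3⟩ := PO_prime ((PO_level H.hq H.hm H.hqd).mp hr)
  exact ⟨h1, h2⟩

/-- The order of the subgroup, up to the factor two. -/
lemma div_general : ∃ h : ℕ, (h = q ∧ q ∣ d ∨ 2 * h = q - 1 ∧ ¬ q ∣ d) ∧
    ∀ Ψ : ℕ → ℤ, LD (PO q m) d Ψ → ∃ V : ℤ, (h : ℤ) * V = (A1.map Ψ).sum := by
  obtain ⟨e, m', he, hmu, hqm', _⟩ := decomp H.hm H.hq (Dvd.intro d H.hqd)
  have hqm : q ^ (e + 1) * m' = m := hmu.symm
  have hqd' : q ^ e * m' = d := by
    have h1 : q * (q ^ e * m') = q * d := by rw [H.hqd, ← hqm]; ring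
    exact Nat.eq_of_mul_eq_mul_left H.hq.pos h1
  have hmain := fun Ψ hΨ => div_lemma H.hq (Nat.lt_succ_self e) hqm hqd' H.hm hqm' H.hA H.hinv
    (Ψ := Ψ) hΨ
  rcases Nat.eq_zero_or_pos e with h0 | h0
  · subst h0
    obtain ⟨h, hh⟩ : ∃ h, 2 * h = q - 1 := ⟨(q - 1) / 2, by have := H.qodd; omega⟩
    have hnd : ¬ q ∣ d := by rw [← hqd', pow_zero, one_mul]; exact hqm'
    refine ⟨h, Or.inr ⟨hh, hnd⟩, fun Ψ hΨ => ?_⟩
    obtain ⟨V, hV⟩ := hmain Ψ hΨ
    refine ⟨V, ?_⟩
    rw [card_KS_zero H.hq Nat.one_pos, pow_one, Nat.totient_prime H.hq, ← hh] at hV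
    push_cast at hV
    linarith
  · have hd' : q ∣ d := by rw [← hqd']; exact (dvd_pow_self q h0.ne').mul_right m'
    refine ⟨q, Or.inl ⟨rfl, hd'⟩, fun Ψ hΨ => ?_⟩
    obtain ⟨V, hV⟩ := hmain Ψ hΨ
    rw [card_KS_succ H.hq h0] at hV
    have hq2 := H.qodd
    have h2 : (2 : ℤ) ∣ V := by
      have h3 : (2 : ℤ) ∣ q * V := ⟨_, hV⟩
      rcases Int.Prime.dvd_mul' Nat.prime_two h3 with h | h
      · exfalso
        have : 2 ∣ q := by exact_mod_cast h
        omega
      · exact_mod_cast h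
    obtain ⟨W, rfl⟩ := h2
    exact ⟨W, by linarith⟩

/-- Divisibility of the sums of signs. -/
theorem theta_div : ∃ h : ℕ, (h = q ∧ q ∣ d ∨ 2 * h = q - 1 ∧ ¬ q ∣ d) ∧
    ∃ T : ℕ → ℤ, (∀ z, Nat.Coprime z d → (h : ℤ) * T z = ST d A1 z) ∧
      (∀ z, Nat.Coprime z d → (T z - T 1) % 2 = 0) ∧
      ∀ z, Nat.Coprime z d → (h : ℤ) * d ∣ SW d A1 z - z * SW d A1 1 := by
  obtain ⟨h, hh, hdiv⟩ := H.div_general
  refine ⟨h, hh, ?_⟩
  have hh0 : (h : ℤ) ≠ 0 := by
    have := H.hq.two_le
    have : h ≠ 0 := by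
      rcases hh with ⟨h1, _⟩ | ⟨h1, _⟩ <;> omega
    exact_mod_cast this
  have hdodd := H.dodd
  have hP := H.PO_dvd
  have h1 : ∀ z, ∃ T : ℤ, Nat.Coprime z d → (h : ℤ) * T = ST d A1 z := by
    intro z
    by_cases hz : Nat.Coprime z d
    · obtain ⟨V, hV⟩ := hdiv _ (ld_th hdodd hP hz)
      exact ⟨V, fun _ => hV⟩
    · exact ⟨0, fun h => absurd h hz⟩
  choose T hT using h1
  refine ⟨T, fun z hz => hT z hz, ?_, ?_⟩
  · intro z hz
    have hz1 := Nat.coprime_one_left d
    have h2 := (ld_th hdodd hP hz).add (ld_th hdodd hP hz1)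
    have h3 : ∀ x, ∃ y : ℤ, 2 * y = th d (z * x) + th d (1 * x) := by
      intro x
      by_cases hx : d ∣ x
      · exact ⟨0, by rw [th_zero (hx.mul_left z), th_zero (hx.mul_left 1)]; ring⟩
      · have e1 := th_cases (d := d) (x := z * x) (by rwa [dvd_coprime_mul hz])
        have e2 := th_cases (d := d) (x := 1 * x) (by rwa [dvd_coprime_mul hz1])
        rcases e1 with e1 | e1 <;> rcases e2 with e2 | e2 <;> rw [e1, e2]
        · exact ⟨-1, by norm_num⟩
        · exact ⟨0, by norm_num⟩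
        · exact ⟨0, by norm_num⟩
        · exact ⟨1, by norm_num⟩
    choose Y hY using h3
    have h4 : LD (PO q m) d Y := by
      apply LD.of_smul (c := 2) (by norm_num)
      have : (fun x => 2 * Y x) = fun x => th d (z * x) + th d (1 * x) := funext hY
      rw [this]; exact h2
    obtain ⟨V, hV⟩ := hdiv _ h4
    have h5 : 2 * (A1.map Y).sum = ST d A1 z + ST d A1 1 := by
      unfold ST
      rw [← Multiset.sum_map_mul_left, ← Multiset.sum_map_add]
      congr 1
      exact Multiset.map_congr rfl fun x _ => hY x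
    rw [← hT z hz, ← hT 1 hz1, ← hV] at h5
    have h6 : 2 * V = T z + T 1 := mul_left_cancel₀ hh0 (by linarith)
    omega
  · intro z hz
    have hd0 := H.hd
    have : NeZero d := ⟨hd0⟩
    have hdz : (d : ℤ) ≠ 0 := by exact_mod_cast hd0
    have hz1 := Nat.coprime_one_left d
    have h2 := (ld_saw hd0 hP hz).add ((ld_saw hd0 hP hz1).smul (-(z : ℤ)))
    have h3 : ∀ x : ℕ, ∃ y : ℤ, (d : ℤ) * y =
        saw ((z * x : ℕ) : ZMod d) + -(z : ℤ) * saw ((1 * x : ℕ) : ZMod d) := by
      intro x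
      have e1 : (((saw ((z * x : ℕ) : ZMod d) +
          -(z : ℤ) * saw ((1 * x : ℕ) : ZMod d) : ℤ)) : ZMod d) = 0 := by
        push_cast
        rw [saw_cast, one_mul, saw_cast]
        ring
      rw [ZMod.intCast_zmod_eq_zero_iff_dvd] at e1
      obtain ⟨y, hy⟩ := e1
      exact ⟨y, hy.symm⟩
    choose Y hY using h3
    have h4 : LD (PO q m) d Y := by
      apply LD.of_smul hdz
      have : (fun x => (d : ℤ) * Y x) = fun x => saw ((z * x : ℕ) : ZMod d) +
        -(z : ℤ) * saw ((1 * x : ℕ) : ZMod d) := funext hY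
      rw [this]; exact h2
    obtain ⟨V, hV⟩ := hdiv _ h4
    refine ⟨V, ?_⟩
    have h5 : (d : ℤ) * (A1.map Y).sum = SW d A1 z - z * SW d A1 1 := by
      unfold SW
      rw [← Multiset.sum_map_mul_left, ← Multiset.sum_map_mul_left, ← Multiset.sum_map_sub]
      congr 1
      apply Multiset.map_congr rfl
      intro x _
      rw [hY x]; ring
    rw [← h5, ← hV]; ring

/-- the relation when `q` does not divide `d` -/
lemma rel1 (hnd : ¬ q ∣ d) {u : ℕ} (hu : Nat.Coprime u d) :
    SW d A1 (q * u) - SW d A1 u + (q - 1) * SW d A2 (q * u) = 0 := by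
  have hq := H.hq
  have hqc : Nat.Coprime q d := (Nat.Prime.coprime_iff_not_dvd hq).mpr hnd
  have h1 := SW_sum_shift hq H.hqd H.hm H.hA (q * u)
  obtain ⟨k, hk⟩ : ∃ k, q = k + 1 := ⟨q - 1, by have := hq.pos; omega⟩
  have h2 : ∑ i ∈ range q, SW m A1 (q * u + i * d) =
      ∑ i ∈ range k, SW m A1 (q * u + (i + 1) * d) + SW m A1 (q * u) := by
    conv_lhs => rw [hk]
    rw [sum_range_succ']
    rw [← hk]
    simp
  have h3 : ∀ i ∈ range k, SW m A1 (q * u + (i + 1) * d) = - (q * SW d A2 (q * u)) := by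
    intro i hi
    have hi' : i + 1 < q := by have := mem_range.mp hi; omega
    have hc1 : Nat.Coprime (q * u + (i + 1) * d) d := by
      rw [Nat.coprime_add_mul_right_left]
      exact Nat.Coprime.mul_left hqc hu
    have hc2 : Nat.Coprime (q * u + (i + 1) * d) q := by
      rw [Nat.coprime_comm, Nat.Prime.coprime_iff_not_dvd hq]
      intro h
      have h4 : q ∣ (i + 1) * d := (Nat.dvd_add_right (Dvd.intro _ rfl)).mp h
      rcases (Nat.Prime.dvd_mul hq).mp h4 with h5 | h5
      · have := Nat.le_of_dvd (Nat.succ_pos i) h5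
        omega
      · exact hnd h5
    have h4 := H.hrel _ (by rw [← H.hqd]; exact Nat.Coprime.mul_right hc2 hc1)
    have h5 : SW d A2 (q * u + (i + 1) * d) = SW d A2 (q * u) := by
      apply SW_congr
      exact Nat.ModEq.add_left (q * u) ((Nat.modEq_zero_iff_dvd).mpr (Dvd.intro_left _ rfl))
    rw [h5] at h4
    linarith
  rw [h2, sum_congr rfl h3, sum_const, card_range, SW_level H.hm H.hqd, nsmul_eq_mul] at h1
  have hq0 : (q : ℤ) ≠ 0 := by exact_mod_cast hq.ne_zero
  have hk' : (k : ℤ) = q - 1 := by rw [hk]; push_cast; ring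
  rw [hk'] at h1
  apply mul_left_cancel₀ hq0
  linear_combination (-1) * h1

/-- the relation when `q` divides `d` -/
lemma rel2 (hd : q ∣ d) {t : ℕ} (ht : Nat.Coprime t d) : SW d A1 t + q * SW d A2 t = 0 := by
  have hq := H.hq
  have h1 := SW_sum_shift hq H.hqd H.hm H.hA t
  have h3 : ∀ i ∈ range q, SW m A1 (t + i * d) = - (q * SW d A2 t) := by
    intro i _
    have hc1 : Nat.Coprime (t + i * d) d := by
      rw [Nat.coprime_add_mul_right_left]; exact ht
    have h4 := H.hrel _ (by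
      rw [← H.hqd]; exact Nat.Coprime.mul_right (Nat.Coprime.coprime_dvd_right hd hc1) hc1)
    have h5 : SW d A2 (t + i * d) = SW d A2 t := by
      apply SW_congr
      exact Nat.ModEq.add_left t ((Nat.modEq_zero_iff_dvd).mpr (Dvd.intro_left _ rfl))
    rw [h5] at h4
    linarith
  rw [sum_congr rfl h3, sum_const, card_range, nsmul_eq_mul] at h1
  have hq0 : (q : ℤ) ≠ 0 := by exact_mod_cast hq.ne_zero
  apply mul_left_cancel₀ hq0
  linear_combination (-1) * h1

/-- **Removal of the part prime to `q`.** -/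
theorem peel0 (h0 : ∀ z, Nat.Coprime z d → ST d A1 z = 0)
    (hsm : ¬ q ∣ d ∨ 2 * Multiset.card A1 < q * (q - 1)) :
    (∀ t, Nat.Coprime t d → SW d A2 t = 0) ∧
    ∀ (Q : Type) [AddCommGroup Q] (c : ZMod m → Q), OddDist c →
      (A1.map fun a : ℕ => c (a : ZMod m)).sum = 0 := by
  have hq := H.hq
  have hm := H.hm
  have hd0 := H.hd
  have hqo := H.qodd
  have hq2 := hq.two_le
  have hS := ST_zero H.dodd A1 h0
  have hqz : (2 : ℤ) ≤ q := by exact_mod_cast hq2
  have h2 : ∀ t, Nat.Coprime t d → SW d A2 t = 0 := by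
    intro t ht
    by_cases hqd : q ∣ d
    · have h1 := H.rel2 hqd ht
      rw [hS t ht, zero_add] at h1
      exact (mul_eq_zero.mp h1).resolve_left (by omega)
    · have hqc : Nat.Coprime q d := (Nat.Prime.coprime_iff_not_dvd hq).mpr hqd
      obtain ⟨u, _, hu⟩ := Nat.exists_mul_mod_eq_of_coprime t hqc hd0
      have hu' : q * u ≡ t [MOD d] := hu
      have huc : Nat.Coprime u d := by
        have h3 : Nat.Coprime (q * u) d := by
          have : Nat.gcd (q * u) d = Nat.gcd t d := hu'.gcd_eq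
          rw [Nat.Coprime, this]; exact ht
        exact Nat.Coprime.coprime_mul_left h3
      have h1 := H.rel1 hqd huc
      rw [hS _ (Nat.Coprime.mul_left hqc huc), hS u huc, SW_congr A2 hu'] at h1
      have h4 : ((q : ℤ) - 1) * SW d A2 t = 0 := by linarith
      exact (mul_eq_zero.mp h4).resolve_left (by omega)
  refine ⟨h2, ?_⟩
  have hrel0 : ∀ t, Nat.Coprime t m → SW m A1 t = 0 := by
    intro t ht
    have h3 := H.hrel t ht
    rw [h2 t (Nat.Coprime.coprime_dvd_right (Dvd.intro_left q H.hqd) ht)] at h3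
    linarith
  obtain ⟨e, m', he, hmu, hqm', _⟩ := decomp hm hq (Dvd.intro d H.hqd)
  have hqm : q ^ (e + 1) * m' = m := hmu.symm
  have hqd' : q ^ e * m' = d := by
    have h1 : q * (q ^ e * m') = q * d := by rw [H.hqd, ← hqm]; ring
    exact Nat.eq_of_mul_eq_mul_left hq.pos h1
  have hm'0 : m' ≠ 0 := by rintro rfl; rw [mul_zero] at hqm; exact hm hqm.symm
  have hm'm : m' ∣ m := Dvd.intro_left _ hqm
  have htow := tower hq hqm hm H.hA hrel0
  have hhi : ∀ i t κ, κ ≡ 1 [MOD m'] → e + 1 ≤ i →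
      q ^ i * (t * κ) ≡ q ^ i * t [MOD m] := by
    intro i t κ hκ hi
    obtain ⟨l, rfl⟩ := Nat.exists_eq_add_of_le hi
    have h5 := Nat.ModEq.mul_left' (q ^ (e + 1)) (hκ.mul_left (q ^ l * t))
    rw [hqm] at h5
    have e2 : q ^ (e + 1 + l) * (t * κ) = q ^ (e + 1) * (q ^ l * t * κ) := by rw [pow_add]; ring
    have e3 : q ^ (e + 1 + l) * t = q ^ (e + 1) * (q ^ l * t * 1) := by rw [pow_add]; ring
    rw [e2, e3]
    exact h5
  have hun : ∀ z, Nat.Coprime z m' → SW m' A1 z = 0 := by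
    by_cases hqd : q ∣ d
    · have hsm' := hsm.resolve_left (fun h => h hqd)
      have hm'odd : m' % 2 = 1 := by
        have h1 := H.hodd
        rw [← hqm, ← Nat.odd_iff, Nat.odd_mul] at h1
        exact Nat.odd_iff.mp h1.2
      have he0 : 0 < e := by
        rcases Nat.eq_zero_or_pos e with h | h
        · exfalso
          rw [h, pow_zero, one_mul] at hqd'
          rw [hqd'] at hqm'
          exact hqm' hqd
        · exact h
      have hP : ∀ r ∈ PO q m, r.Prime ∧ r ∣ m' := by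
        intro r hr
        obtain ⟨hr1, hr2, hr3⟩ := PO_prime hr
        refine ⟨hr1, ?_⟩
        rw [← hqm] at hr2
        rcases (Nat.Prime.dvd_mul hr1).mp hr2 with h | h
        · exact absurd ((Nat.prime_dvd_prime_iff_eq hr1 hq).mp (hr1.dvd_of_dvd_pow h)) hr3
        · exact h
      apply ST_zero hm'odd
      intro z hz
      obtain ⟨V, hV⟩ := div_lemma hq (Nat.succ_pos e) hqm (by simp : q ^ 0 * m' = m') hm hqm' H.hA
        (by
          intro i t κ ht hκ hκ1
          rcases lt_or_ge i (e + 1) with hi | hi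
          · rw [htow i hi t ht, htow i hi _ (Nat.Coprime.mul_left ht hκ)]
          · exact SW_congr _ (hhi i t κ hκ1 hi)) (ld_th hm'odd hP hz)
      rw [card_KS_zero hq (Nat.succ_pos e)] at hV
      have h6 := abs_sum_le A1 (fun x => th m' (z * x)) 1 (fun a _ => th_abs _ _)
      have h7 : q * (q - 1) ≤ Nat.totient (q ^ (e + 1)) := by
        rw [Nat.totient_prime_pow_succ hq]
        apply Nat.mul_le_mul_right
        calc q = q ^ 1 := (pow_one q).symm
          _ ≤ q ^ e := Nat.pow_le_pow_right hq.pos he0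
      have h8 : (2 * Multiset.card A1 : ℤ) < Nat.totient (q ^ (e + 1)) := by
        exact_mod_cast lt_of_lt_of_le hsm' h7
      have h9 : V = 0 := by
        by_contra hne
        have h10 : (1 : ℤ) ≤ |V| := Int.one_le_abs hne
        have h11 : (Nat.totient (q ^ (e + 1)) : ℤ) * |V| =
            2 * |(A1.map fun x => th m' (z * x)).sum| := by
          have := congrArg abs hV
          rw [abs_mul, abs_mul, Nat.abs_cast] at this
          simpa using this
        have h12 : (0 : ℤ) ≤ Nat.totient (q ^ (e + 1)) := by positivity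
        nlinarith
      rw [h9, mul_zero] at hV
      unfold ST
      linarith
    · have he0 : e = 0 := by
        by_contra hne
        exact hqd (by rw [← hqd']; exact (dvd_pow_self q hne).mul_right m')
      rw [he0, pow_zero, one_mul] at hqd'
      rw [hqd']
      exact hS
  have hall : ∀ j t, Nat.Coprime t m → SW m A1 (q ^ j * t) = 0 := by
    intro j t ht
    rcases lt_or_ge j (e + 1) with hj | hj
    · exact htow j hj t ht
    · obtain ⟨l, rfl⟩ := Nat.exists_eq_add_of_le hj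
      have h1 : q ^ (e + 1 + l) * t = q ^ (e + 1) * (q ^ l * t) := by rw [pow_add]; ring
      rw [h1, SW_level hm hqm, hun, mul_zero]
      apply Nat.Coprime.mul_left
      · exact Nat.Coprime.pow_left _ ((Nat.Prime.coprime_iff_not_dvd hq).mpr hqm')
      · exact Nat.Coprime.coprime_dvd_right hm'm ht
  intro Q _ c hc
  refine kill hq (Dvd.intro d H.hqd) hm ?_ H.hA hall Q c hc
  rw [he]
  calc 2 < q := by omega
    _ = q ^ 1 := (pow_one q).symm
    _ ≤ q ^ (e + 1) := Nat.pow_le_pow_right hq.pos (by omega)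

end Setting

end Pool.Agent.Y2
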