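import Pool.Agent.Y2.Elim

/-!
Distributions away from a prime `q`.
-/

namespace Pool.Agent.Y2

open Finset Pool.Agent.H916R2

/-- sums over a full period are invariant under multiplication by a number prime to the period -/
lemma sum_range_mul {Q : Type*} [AddCommMonoid Q] {r : ℕ} (hr : 0 < r) (G : ℕ → Q)
    (hG : ∀ i, G (i % r) = G i) {n : ℕ} (hn : Nat.Coprime n r) :
    ∑ i ∈ range r, G (n * i) = ∑ i ∈ range r, G i := by
  have hinj : Set.InjOn (fun i => (n * i) % r) (range r : Set ℕ) := by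
    intro i hi j hj h
    have hi' : i < r := by simpa using hi
    have hj' : j < r := by simpa using hj
    have h1 : n * i ≡ n * j [MOD r] := h
    have h2 : i ≡ j [MOD r] := Nat.ModEq.cancel_left_of_coprime (by rwa [Nat.coprime_comm] at hn) h1
    exact Nat.ModEq.eq_of_lt_of_lt h2 hi' hj'
  have hmaps : Set.MapsTo (fun i => (n * i) % r) (range r : Set ℕ) (range r : Set ℕ) := by
    intro i _
    simpa using Nat.mod_lt _ hr
  have hsurj : Set.SurjOn (fun i => (n * i) % r) (range r : Set ℕ) (range r : Set ℕ) :=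
    Finset.surjOn_of_injOn_of_card_le _ hmaps hinj le_rfl
  exact Finset.sum_nbij (fun i => (n * i) % r) hmaps hinj hsurj (fun i _ => (hG _).symm)

lemma sum_range_shift {Q : Type*} [AddCommMonoid Q] {r : ℕ} (hr : 0 < r) (G : ℕ → Q)
    (hG : ∀ i, G (i % r) = G i) :
    ∑ i ∈ range r, G (i + 1) = ∑ i ∈ range r, G i := by
  obtain ⟨k, rfl⟩ : ∃ k, r = k + 1 := ⟨r - 1, by omega⟩
  rw [sum_range_succ, sum_range_succ' G]
  congr 1
  rw [← hG (k + 1), Nat.mod_self]

section coset

variable {Q : Type*} [AddCommMonoid Q] {m r d : ℕ} {C : ℕ → Q}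

lemma per_coset (hrd : r * d = m) (hper : ∀ x y, x ≡ y [MOD m] → C x = C y) (x i : ℕ) :
    C (x + (i % r) * d) = C (x + i * d) := by
  apply hper
  apply Nat.ModEq.add_left
  rw [← hrd]
  exact Nat.ModEq.mul_right' d (Nat.mod_modEq i r)

lemma coset_mul (hr : 0 < r) (hrd : r * d = m) (hper : ∀ x y, x ≡ y [MOD m] → C x = C y)
    {n : ℕ} (hn : Nat.Coprime n r) (x : ℕ) :
    ∑ i ∈ range r, C (x + n * i * d) = ∑ i ∈ range r, C (x + i * d) :=
  sum_range_mul hr (fun i => C (x + i * d)) (per_coset hrd hper x) hn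

lemma coset_shift (hr : 0 < r) (hrd : r * d = m) (hper : ∀ x y, x ≡ y [MOD m] → C x = C y)
    (x : ℕ) : ∑ i ∈ range r, C (x + d + i * d) = ∑ i ∈ range r, C (x + i * d) := by
  have h := sum_range_shift hr (fun i => C (x + i * d)) (per_coset hrd hper x)
  rw [← h]
  refine sum_congr rfl fun i _ => ?_
  congr 1; ring

lemma coset_shift_mul (hr : 0 < r) (hrd : r * d = m) (hper : ∀ x y, x ≡ y [MOD m] → C x = C y)
    (x j : ℕ) : ∑ i ∈ range r, C (x + j * d + i * d) = ∑ i ∈ range r, C (x + i * d) := by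
  induction j with
  | zero => simp
  | succ j ih =>
    rw [← ih, ← coset_shift hr hrd hper (x + j * d)]
    refine sum_congr rfl fun i _ => ?_
    congr 1; ring

end coset

/-- Distributions of level `m` at the primes in `P`, supported away from `q` if `q ∣ m`. -/
structure TD {Q : Type*} [AddCommGroup Q] (q m : ℕ) (P : Finset ℕ) (C : ℕ → Q) : Prop where
  per : ∀ x y, x ≡ y [MOD m] → C x = C y
  supp : q ∣ m → ∀ n, q ∣ n → C n = 0
  dist : ∀ r ∈ P, ∀ n, ∑ i ∈ range r, C (n + i * (m / r)) = C (r * n)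

namespace TD

variable {Q R : Type*} [AddCommGroup Q] [AddCommGroup R] {q m : ℕ} {P : Finset ℕ} {C C' : ℕ → Q}

lemma zero : TD q m P (fun _ => (0 : Q)) :=
  ⟨fun _ _ _ => rfl, fun _ _ _ => rfl, fun _ _ _ => by simp⟩

lemma add (h : TD q m P C) (h' : TD q m P C') : TD q m P (fun n => C n + C' n) :=
  ⟨fun x y hxy => by simp only [h.per x y hxy, h'.per x y hxy],
    fun hq n hn => by simp only [h.supp hq n hn, h'.supp hq n hn, add_zero],
    fun r hr n => by rw [sum_add_distrib, h.dist r hr, h'.dist r hr]⟩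

lemma sub (h : TD q m P C) (h' : TD q m P C') : TD q m P (fun n => C n - C' n) :=
  ⟨fun x y hxy => by simp only [h.per x y hxy, h'.per x y hxy],
    fun hq n hn => by simp only [h.supp hq n hn, h'.supp hq n hn, sub_zero],
    fun r hr n => by rw [sum_sub_distrib, h.dist r hr, h'.dist r hr]⟩

lemma map (φ : Q →+ R) (h : TD q m P C) : TD q m P (fun n => φ (C n)) :=
  ⟨fun x y hxy => by simp only [h.per x y hxy],
    fun hq n hn => by simp only [h.supp hq n hn, map_zero],
    fun r hr n => by rw [← map_sum, h.dist r hr]⟩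

lemma sum {ι : Type*} (s : Finset ι) (F : ι → ℕ → Q) (h : ∀ i ∈ s, TD q m P (F i)) :
    TD q m P (fun n => ∑ i ∈ s, F i n) :=
  ⟨fun x y hxy => sum_congr rfl fun i hi => (h i hi).per x y hxy,
    fun hq n hn => sum_eq_zero fun i hi => (h i hi).supp hq n hn,
    fun r hr n => by
      rw [sum_comm]
      exact sum_congr rfl fun i hi => (h i hi).dist r hr n⟩

lemma mul (hP : ∀ r ∈ P, r.Prime ∧ r ∣ m) (h : TD q m P C) {k : ℕ} (hk : Nat.Coprime k m) :
    TD q m P (fun n => C (k * n)) := by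
  refine ⟨fun x y hxy => h.per _ _ (hxy.mul_left k), fun hq n hn => h.supp hq _ (hn.mul_left k), ?_⟩
  intro r hr n
  obtain ⟨hr1, hr2⟩ := hP r hr
  have h1 := coset_mul hr1.pos (Nat.mul_div_cancel' hr2) h.per (n := k)
    (Nat.Coprime.coprime_dvd_right hr2 hk) (k * n)
  have h2 := h.dist r hr (k * n)
  rw [← h1] at h2
  rw [show k * (r * n) = r * (k * n) by ring, ← h2]
  refine sum_congr rfl fun i _ => ?_
  congr 1; ring

/-- agreement on the generating set implies agreement everywhere -/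
lemma ext_of_B (hm : m ≠ 0) (hq : q.Prime) (hqm : q ∣ m)
    (hP : ∀ r ∈ P, r.Prime ∧ r ∣ m ∧ r ≠ q) (h : TD q m P C) (h' : TD q m P C')
    (hB : ∀ x, ¬ q ∣ x → (∀ r ∈ P, TT r m x) → C x = C' x) (x : ℕ) : C x = C' x := by
  by_cases hx : q ∣ x
  · rw [h.supp hqm x hx, h'.supp hqm x hx]
  · have := elim_all hm hq hqm P hP (fun n => C n - C' n) (h.sub h').dist ⊥ (fun x hx hT => by
      rw [AddSubgroup.mem_bot, hB x hx hT, sub_self]) x hx
    rw [AddSubgroup.mem_bot] at this
    exact sub_eq_zero.mp this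

end TD

end Pool.Agent.Y2
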