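import Pool.Agent.Y2.Div

/-!
The sign functional `th`: for odd `d`, the combination `(2 * saw x - saw (2 * x)) / d`, an odd
distribution with values `-1, 0, 1`.
-/

namespace Pool.Agent.Y2

open Finset Pool.Agent.H916R2

/-- the sign of the sawtooth -/
def th (d x : ℕ) : ℤ := if d ∣ x then 0 else if 2 * (x % d) < d then -1 else 1

lemma th_zero {d x : ℕ} (h : d ∣ x) : th d x = 0 := by rw [th, if_pos h]

lemma th_cases {d x : ℕ} (h : ¬ d ∣ x) : th d x = -1 ∨ th d x = 1 := by
  rw [th, if_neg h]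
  split_ifs
  · exact Or.inl rfl
  · exact Or.inr rfl

lemma th_abs (d x : ℕ) : |th d x| ≤ 1 := by
  unfold th
  split_ifs <;> simp

lemma saw_val {d : ℕ} [NeZero d] (x : ℕ) (h : ¬ d ∣ x) :
    saw (x : ZMod d) = 2 * ((x % d : ℕ) : ℤ) - d := by
  unfold saw
  rw [if_neg (by rw [ZMod.natCast_eq_zero_iff]; exact h), ZMod.val_natCast]

lemma th_saw {d : ℕ} (hd : d % 2 = 1) (x : ℕ) :
    (d : ℤ) * th d x = 2 * saw (x : ZMod d) - saw ((2 * x : ℕ) : ZMod d) := by
  have hd0 : d ≠ 0 := by rintro rfl; simp at hd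
  have : NeZero d := ⟨hd0⟩
  by_cases h : d ∣ x
  · have h1 : (x : ZMod d) = 0 := (ZMod.natCast_eq_zero_iff _ _).mpr h
    have h2 : ((2 * x : ℕ) : ZMod d) = 0 := (ZMod.natCast_eq_zero_iff _ _).mpr (h.mul_left 2)
    rw [th_zero h, h1, h2, saw_zero]; ring
  · have h2 : ¬ d ∣ 2 * x := by
      intro h'
      apply h
      have hc : Nat.Coprime d 2 := by
        rw [Nat.coprime_comm, Nat.coprime_two_left, Nat.odd_iff]; exact hd
      exact hc.dvd_of_dvd_mul_left h'
    rw [saw_val x h, saw_val (2 * x) h2, th, if_neg h]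
    have hr : x % d < d := Nat.mod_lt _ (Nat.pos_of_ne_zero hd0)
    have h3 : (2 * x) % d = (2 * (x % d)) % d := by rw [Nat.mul_mod, Nat.mul_mod 2 (x % d)]; simp
    rw [h3]
    by_cases h4 : 2 * (x % d) < d
    · rw [if_pos h4, Nat.mod_eq_of_lt h4]
      push_cast; ring
    · rw [if_neg h4]
      have h5 : (2 * (x % d)) % d = 2 * (x % d) - d := by
        rw [Nat.mod_eq_sub_mod (by omega), Nat.mod_eq_of_lt (by omega)]
      rw [h5, Nat.cast_sub (by omega)]
      push_cast; ring

lemma two_coprime {d : ℕ} (hd : d % 2 = 1) : Nat.Coprime 2 d := by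
  rw [Nat.coprime_two_left, Nat.odd_iff]; exact hd

/-- the sum of the signs over a multiset -/
def ST (d : ℕ) (A : Multiset ℕ) (t : ℕ) : ℤ := (A.map fun a => th d (t * a)).sum

lemma ST_SW {d : ℕ} (hd : d % 2 = 1) (A : Multiset ℕ) (t : ℕ) :
    (d : ℤ) * ST d A t = 2 * SW d A t - SW d A (2 * t) := by
  unfold ST SW
  induction A using Multiset.induction_on with
  | empty => simp
  | cons a A ih =>
    simp only [Multiset.map_cons, Multiset.sum_cons]
    rw [mul_add, ih, th_saw hd (t * a), show 2 * (t * a) = 2 * t * a by ring]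
    ring

lemma ST_zero {d : ℕ} (hd : d % 2 = 1) (A : Multiset ℕ)
    (h : ∀ z, Nat.Coprime z d → ST d A z = 0) : ∀ z, Nat.Coprime z d → SW d A z = 0 := by
  have hd0 : d ≠ 0 := by rintro rfl; simp at hd
  have h1 : ∀ n z, Nat.Coprime z d → SW d A (2 ^ n * z) = 2 ^ n * SW d A z := by
    intro n
    induction n with
    | zero => intro z _; simp
    | succ n ih =>
      intro z hz
      have h2 : Nat.Coprime (2 ^ n * z) d := Nat.Coprime.mul_left ((two_coprime hd).pow_left n) hz
      have h3 := ST_SW hd A (2 ^ n * z)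
      rw [h _ h2, mul_zero] at h3
      rw [show 2 ^ (n + 1) * z = 2 * (2 ^ n * z) by ring, pow_succ, ← sub_eq_zero]
      have h4 := ih z hz
      linear_combination h3 + 2 * h4
  intro z hz
  by_contra hne
  have h5 : ∀ n : ℕ, (2 : ℤ) ^ n ≤ Multiset.card A * ((d : ℤ) - 1) := by
    intro n
    have h6 := SW_abs hd0 A (2 ^ n * z)
    rw [h1 n z hz, abs_mul, abs_pow] at h6
    have h7 : (1 : ℤ) ≤ |SW d A z| := Int.one_le_abs hne
    have h8 : (0 : ℤ) ≤ 2 ^ n := by positivity
    have h9 : |(2 : ℤ)| = 2 := by norm_num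
    rw [h9] at h6
    nlinarith
  obtain ⟨n, hn⟩ : ∃ n : ℕ, (Multiset.card A * ((d : ℤ) - 1)) < 2 ^ n := by
    have h10 : (0 : ℤ) ≤ Multiset.card A * ((d : ℤ) - 1) := le_trans (by positivity) (h5 0)
    refine ⟨(Multiset.card A * ((d : ℤ) - 1)).toNat, ?_⟩
    have h11 := @Nat.lt_two_pow_self (Multiset.card A * ((d : ℤ) - 1)).toNat
    have h12 : ((Multiset.card A * ((d : ℤ) - 1)).toNat : ℤ) = Multiset.card A * ((d : ℤ) - 1) :=
      Int.toNat_of_nonneg h10
    calc (Multiset.card A * ((d : ℤ) - 1)) = ((Multiset.card A * ((d : ℤ) - 1)).toNat : ℤ) := h12.symm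
      _ < 2 ^ (Multiset.card A * ((d : ℤ) - 1)).toNat := by exact_mod_cast h11
  exact absurd (h5 n) (not_le.mpr hn)

/-- equality of signs gives congruence -/
lemma th_inj {d : ℕ} (hd : d % 2 = 1) {a b : ℕ}
    (h : ∀ z, Nat.Coprime z d → th d (z * a) = th d (z * b)) : a ≡ b [MOD d] := by
  have hd0 : d ≠ 0 := by rintro rfl; simp at hd
  have hN : NeZero d := ⟨hd0⟩
  have hm1 : 1 ≤ d := Nat.one_le_iff_ne_zero.mpr hd0
  have hsum : ∀ x, x + (d - 1) * x = d * x := by
    intro x
    obtain ⟨k, hk⟩ : ∃ k, d = k + 1 := ⟨d - 1, by omega⟩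
    rw [hk]; simp; ring
  have hneg : ∀ x : ℕ, (((d - 1) * x : ℕ) : ZMod d) = - (x : ZMod d) := by
    intro x
    have h4 : ((x + (d - 1) * x : ℕ) : ZMod d) = 0 := by
      rw [hsum, ZMod.natCast_eq_zero_iff]; exact Dvd.intro _ rfl
    push_cast at h4 ⊢
    linear_combination h4
  have hthneg : ∀ x : ℕ, (d : ℤ) * th d ((d - 1) * x) = - (d * th d x) := by
    intro x
    rw [th_saw hd, th_saw hd, hneg, saw_neg]
    have : ((2 * ((d - 1) * x) : ℕ) : ZMod d) = - ((2 * x : ℕ) : ZMod d) := by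
      rw [← hneg]; congr 1; ring
    rw [this, saw_neg]; ring
  have h1 : ∀ z, Nat.Coprime z d → ST d {a, (d - 1) * b} z = 0 := by
    intro z hz
    unfold ST
    simp only [Multiset.insert_eq_cons, Multiset.map_cons, Multiset.map_singleton,
      Multiset.sum_cons, Multiset.sum_singleton]
    have h2 := hthneg (z * b)
    have hdz : (d : ℤ) ≠ 0 := by exact_mod_cast hd0
    have h3 : th d ((d - 1) * (z * b)) = - th d (z * b) :=
      mul_left_cancel₀ hdz (by rw [h2]; ring)
    rw [show z * ((d - 1) * b) = (d - 1) * (z * b) by ring, h3, h z hz]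
    ring
  have h4 := ST_zero hd _ h1 1 (Nat.coprime_one_left d)
  unfold SW at h4
  simp only [Multiset.insert_eq_cons, Multiset.map_cons, Multiset.map_singleton,
    Multiset.sum_cons, Multiset.sum_singleton, one_mul] at h4
  rw [hneg, saw_neg] at h4
  have h5 : saw (a : ZMod d) = saw (b : ZMod d) := by linarith
  by_cases ha : d ∣ a
  · by_cases hb : d ∣ b
    · exact ((Nat.modEq_zero_iff_dvd).mpr ha).trans ((Nat.modEq_zero_iff_dvd).mpr hb).symm
    · exfalso
      rw [(ZMod.natCast_eq_zero_iff _ _).mpr ha, saw_zero, saw_val b hb] at h5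
      omega
  · by_cases hb : d ∣ b
    · exfalso
      rw [(ZMod.natCast_eq_zero_iff _ _).mpr hb, saw_zero, saw_val a ha] at h5
      omega
    · rw [saw_val a ha, saw_val b hb] at h5
      have h6 : a % d = b % d := by omega
      exact h6

lemma th_odd {d : ℕ} (hd : d % 2 = 1) {x y : ℕ} (h : d ∣ x + y) : th d y = - th d x := by
  have hd0 : d ≠ 0 := by rintro rfl; simp at hd
  have hN : NeZero d := ⟨hd0⟩
  have hdz : (d : ℤ) ≠ 0 := by exact_mod_cast hd0
  apply mul_left_cancel₀ hdz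
  have h1 : (y : ZMod d) = - (x : ZMod d) := by
    have := (ZMod.natCast_eq_zero_iff (x + y) d).mpr h
    push_cast at this
    linear_combination this
  have h2 : ((2 * y : ℕ) : ZMod d) = - ((2 * x : ℕ) : ZMod d) := by
    push_cast; rw [h1]; ring
  have h3 := th_saw hd x
  rw [th_saw hd, h1, h2, saw_neg, saw_neg]
  linear_combination h3

lemma th_per {d : ℕ} {x y : ℕ} (h : x ≡ y [MOD d]) : th d x = th d y := by
  have h1 : d ∣ x ↔ d ∣ y := h.dvd_iff dvd_rfl
  have h2 : x % d = y % d := h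
  unfold th
  simp only [h1, h2]

lemma ST_congr {d : ℕ} (A : Multiset ℕ) {t t' : ℕ} (h : t ≡ t' [MOD d]) : ST d A t = ST d A t' := by
  unfold ST
  congr 1
  apply Multiset.map_congr rfl
  intro a _
  exact th_per (h.mul_right a)

lemma ld_th {P : Finset ℕ} {d : ℕ} (hd : d % 2 = 1) (hP : ∀ r ∈ P, r.Prime ∧ r ∣ d) {z : ℕ}
    (hz : Nat.Coprime z d) : LD P d (fun x => th d (z * x)) := by
  have hd0 : d ≠ 0 := by rintro rfl; simp at hd
  have hdz : (d : ℤ) ≠ 0 := by exact_mod_cast hd0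
  apply LD.of_smul hdz
  have h1 := (ld_saw hd0 hP hz).smul 2
  have h2 := (ld_saw hd0 hP (Nat.Coprime.mul_left (two_coprime hd) hz)).smul (-1)
  have h3 := h1.add h2
  have h4 : (fun x => (d : ℤ) * th d (z * x)) =
      fun x => 2 * saw ((z * x : ℕ) : ZMod d) + -1 * saw ((2 * z * x : ℕ) : ZMod d) := by
    funext x
    rw [th_saw hd, show 2 * (z * x) = 2 * z * x by ring]
    ring
  rw [h4]
  exact h3

/-- the number of entries not divisible by `d` -/
def nz (d : ℕ) (A : Multiset ℕ) : ℕ := Multiset.card (A.filter fun a => ¬ d ∣ a)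

lemma ST_filter (d : ℕ) (A : Multiset ℕ) {z : ℕ} :
    ST d A z = ST d (A.filter fun a => ¬ d ∣ a) z := by
  unfold ST
  induction A using Multiset.induction_on with
  | empty => simp
  | cons a A ih =>
    by_cases h : d ∣ a
    · rw [Multiset.filter_cons_of_neg (p := fun a => ¬ d ∣ a) _ (by simpa using h),
        Multiset.map_cons, Multiset.sum_cons, ih, th_zero (h.mul_left z), zero_add]
    · rw [Multiset.filter_cons_of_pos (p := fun a => ¬ d ∣ a) _ h, Multiset.map_cons,
        Multiset.sum_cons, Multiset.map_cons, Multiset.sum_cons, ih]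

lemma dvd_coprime_mul {d z a : ℕ} (hz : Nat.Coprime z d) : d ∣ z * a ↔ d ∣ a := by
  constructor
  · intro h
    exact (Nat.coprime_comm.mp hz).dvd_of_dvd_mul_left h
  · intro h; exact h.mul_left z

lemma sum_signs {α : Type*} (B : Multiset α) (f : α → ℤ) (h : ∀ a ∈ B, f a = -1 ∨ f a = 1) :
    |(B.map f).sum| ≤ Multiset.card B ∧ ((B.map f).sum - Multiset.card B) % 2 = 0 := by
  induction B using Multiset.induction_on with
  | empty => simp
  | cons a B ih =>
    obtain ⟨h1, h2⟩ := ih (fun b hb => h b (Multiset.mem_cons_of_mem hb))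
    rw [Multiset.map_cons, Multiset.sum_cons, Multiset.card_cons]
    rw [abs_le] at h1 ⊢
    push_cast
    rcases h a (Multiset.mem_cons_self a B) with h3 | h3 <;> rw [h3] <;>
      exact ⟨⟨by omega, by omega⟩, by omega⟩

lemma ST_bound {d : ℕ} (A : Multiset ℕ) {z : ℕ} (hz : Nat.Coprime z d) :
    |ST d A z| ≤ nz d A ∧ (ST d A z - nz d A) % 2 = 0 := by
  rw [ST_filter]
  unfold ST nz
  apply sum_signs
  intro a ha
  have h1 := (Multiset.mem_filter.mp ha).2
  exact th_cases (by rwa [dvd_coprime_mul hz])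

lemma all_eq_of_sum {α : Type*} (B : Multiset α) (f : α → ℤ) (e : ℤ) (he : e = 1 ∨ e = -1)
    (h : ∀ a ∈ B, f a = -1 ∨ f a = 1) (hs : (B.map f).sum = e * Multiset.card B) :
    ∀ a ∈ B, f a = e := by
  induction B using Multiset.induction_on with
  | empty => simp
  | cons a B ih =>
    have h1 : ∀ b ∈ B, f b = -1 ∨ f b = 1 := fun b hb => h b (Multiset.mem_cons_of_mem hb)
    obtain ⟨h2, _⟩ := sum_signs B f h1
    rw [Multiset.map_cons, Multiset.sum_cons, Multiset.card_cons] at hs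
    push_cast at hs
    rw [abs_le] at h2
    have h3 := h a (Multiset.mem_cons_self a B)
    have h4 : f a = e ∧ (B.map f).sum = e * Multiset.card B := by
      rcases he with rfl | rfl <;> rcases h3 with h3 | h3 <;> rw [h3] at hs ⊢ <;>
        constructor <;> linarith
    intro b hb
    rcases Multiset.mem_cons.mp hb with rfl | hb
    · exact h4.1
    · exact ih h1 h4.2 b hb

/-- If the sum of the signs is extremal for all units then all entries are congruent. -/
lemma all_congr {d : ℕ} (hd : d % 2 = 1) (A : Multiset ℕ)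
    (h : ∀ z, Nat.Coprime z d → |ST d A z| = nz d A) :
    ∀ a ∈ A, ∀ b ∈ A, ¬ d ∣ a → ¬ d ∣ b → a ≡ b [MOD d] := by
  intro a ha b hb had hbd
  apply th_inj hd
  intro z hz
  have h1 := h z hz
  rw [ST_filter] at h1
  have h2 : ∀ x ∈ A.filter (fun a => ¬ d ∣ a), th d (z * x) = -1 ∨ th d (z * x) = 1 := by
    intro x hx
    exact th_cases (by rw [dvd_coprime_mul hz]; exact (Multiset.mem_filter.mp hx).2)
  have ha' : a ∈ A.filter (fun a => ¬ d ∣ a) := Multiset.mem_filter.mpr ⟨ha, had⟩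
  have hb' : b ∈ A.filter (fun a => ¬ d ∣ a) := Multiset.mem_filter.mpr ⟨hb, hbd⟩
  unfold ST nz at h1
  rcases abs_cases ((A.filter fun a => ¬ d ∣ a).map fun a => th d (z * a)).sum with h3 | h3
  · have h4 := all_eq_of_sum _ (fun a => th d (z * a)) 1 (Or.inl rfl) h2 (by rw [← h3.1, h1]; ring)
    exact (h4 a ha').trans (h4 b hb').symm
  · have h4 := all_eq_of_sum _ (fun a => th d (z * a)) (-1) (Or.inr rfl) h2 (by linarith)
    exact (h4 a ha').trans (h4 b hb').symm

end Pool.Agent.Y2
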