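import Pool.Agent.Y2.Split

/-!
The unramified part: for a short relation with entries prime to `q`, the reduction to the
prime-to-`q` level is also a relation.
-/

namespace Pool.Agent.Y2

open Finset Pool.Agent.H916R2

lemma sum_count_nat (A : Multiset ℕ) (g : ℕ → ℤ) :
    ∑ b ∈ A.toFinset, (A.count b : ℤ) * g b = (A.map g).sum := by
  rw [Finset.sum_multiset_map_count]
  refine sum_congr rfl fun b _ => ?_
  rw [nsmul_eq_mul]

/-- comparison of two multisets -/
theorem star2 {q m : ℕ} (hq : q.Prime) (hm : m ≠ 0) (A1 A2 : Multiset ℕ)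
    (h1 : q ∣ m → ∀ a ∈ A1, ¬ q ∣ a) (h2 : q ∣ m → ∀ a ∈ A2, ¬ q ∣ a)
    (hrel : ∀ j t, Nat.Coprime t m → SW m A1 (q ^ j * t) = SW m A2 (q ^ j * t))
    {C : ℕ → ℤ} (hC : TD q m (PO q m) C) (hodd : ∀ x y, m ∣ x + y → C y = - C x) :
    (A1.map C).sum = (A2.map C).sum := by
  let I : Finset (ℕ ⊕ ℕ) := A1.toFinset.disjSum A2.toFinset
  let w : ℕ ⊕ ℕ → ℤ := fun x => Sum.elim (fun b => (A1.count b : ℤ)) (fun b => -(A2.count b : ℤ)) x
  let a : ℕ ⊕ ℕ → ℕ := fun x => Sum.elim (fun b => b) (fun b => b) x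
  have hsum : ∀ g : ℕ → ℤ, ∑ i ∈ I, w i * g (a i) = (A1.map g).sum - (A2.map g).sum := by
    intro g
    rw [Finset.sum_disjSum]
    simp only [w, a, Sum.elim_inl, Sum.elim_inr, neg_mul, sum_neg_distrib]
    rw [sum_count_nat, sum_count_nat]
    ring
  have h := star hq I w a m hm ?_ ?_ C hC hodd
  · rw [hsum] at h
    linarith
  · intro hqm i hi
    rw [Finset.mem_disjSum] at hi
    rcases hi with ⟨b, hb, rfl⟩ | ⟨b, hb, rfl⟩
    · exact h1 hqm b (Multiset.mem_toFinset.mp hb)
    · exact h2 hqm b (Multiset.mem_toFinset.mp hb)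
  · intro j t ht
    have h3 := hsum (fun b => saw ((t * (q ^ j * b) : ℕ) : ZMod m))
    rw [show ∑ i ∈ I, w i * saw ((t * (q ^ j * a i) : ℕ) : ZMod m) = _ from h3]
    have h4 := hrel j t ht
    unfold SW at h4
    have h5 : ∀ b : ℕ, q ^ j * t * b = t * (q ^ j * b) := fun b => by ring
    simp only [h5] at h4
    rw [h4, sub_self]

section

variable {q k m' m : ℕ} (hq : q.Prime) (hk : 0 < k) (hqm : q ^ k * m' = m) (hm : m ≠ 0)
  (hqm' : ¬ q ∣ m')

include hq hk hqm hm hqm'

lemma Lambda_td {z : ℕ} (hz : Nat.Coprime z m') :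
    TD q m (PO q m) (fun x => if q ∣ x then (0 : ℤ) else saw ((z * x : ℕ) : ZMod m')) := by
  have hm'0 : m' ≠ 0 := by rintro rfl; rw [mul_zero] at hqm; exact hm hqm.symm
  have : NeZero m' := ⟨hm'0⟩
  have hqdm : q ∣ m := by rw [← hqm]; exact (dvd_pow_self q hk.ne').mul_right m'
  have hm'm : m' ∣ m := Dvd.intro_left _ hqm
  refine ⟨?_, ?_, ?_⟩
  · intro x y hxy
    have h1 : q ∣ x ↔ q ∣ y := (hxy.of_dvd hqdm).dvd_iff dvd_rfl
    have h2 : saw ((z * x : ℕ) : ZMod m') = saw ((z * y : ℕ) : ZMod m') :=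
      saw_per _ _ ((hxy.of_dvd hm'm).mul_left z)
    simp only [h1, h2]
  · intro _ n hn
    simp only [if_pos hn]
  · intro r hr n
    obtain ⟨hr1, hr2, hr3⟩ := PO_prime hr
    have hrm' : r ∣ m' := by
      rw [← hqm] at hr2
      rcases (Nat.Prime.dvd_mul hr1).mp hr2 with h | h
      · exact absurd ((Nat.prime_dvd_prime_iff_eq hr1 hq).mp (hr1.dvd_of_dvd_pow h)) hr3
      · exact h
    have hmr : m / r = q ^ k * (m' / r) := by rw [← hqm, Nat.mul_div_assoc _ hrm']
    have hqmr : q ∣ m / r := by rw [hmr]; exact (dvd_pow_self q hk.ne').mul_right _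
    have h1 : ∀ i, (q ∣ n + i * (m / r) ↔ q ∣ n) := fun i => Nat.dvd_add_left (hqmr.mul_left i)
    have h2 : q ∣ r * n ↔ q ∣ n := by
      constructor
      · intro h
        rcases (Nat.Prime.dvd_mul hq).mp h with h | h
        · exact absurd ((Nat.prime_dvd_prime_iff_eq hq hr1).mp h) (Ne.symm hr3)
        · exact h
      · intro h; exact h.mul_left r
    simp only [h1, h2]
    by_cases hqn : q ∣ n
    · simp [hqn]
    · simp only [hqn, if_false]
      have hcop : Nat.Coprime (z * q ^ k) r := by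
        apply Nat.Coprime.mul_left (Nat.Coprime.coprime_dvd_right hrm' hz)
        exact Nat.Coprime.pow_left _ ((Nat.coprime_primes hq hr1).mpr (Ne.symm hr3))
      have h3 := coset_mul hr1.pos (Nat.mul_div_cancel' hrm')
        (C := fun n : ℕ => saw (n : ZMod m')) saw_per hcop (z * n)
      have h4 := saw_dist (Nat.mul_div_cancel' hrm') ((z * n : ℕ) : ZMod m')
      have h5 : ∑ i ∈ range r, saw ((z * n + i * (m' / r) : ℕ) : ZMod m') =
          saw ((r * (z * n) : ℕ) : ZMod m') := by
        push_cast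
        push_cast at h4
        exact h4
      rw [show z * (r * n) = r * (z * n) by ring, ← h5, ← h3]
      refine sum_congr rfl fun i _ => ?_
      congr 2
      rw [hmr]; ring

/-- The reduction of a short relation to the prime-to-`q` level. -/
theorem unram {A : Multiset ℕ} (hA : ∀ a ∈ A, ¬ q ∣ a)
    (hL : ∀ z, Nat.Coprime z m' → 12 * |SW m' A z| < (Nat.totient (q ^ k) : ℤ) * m')
    (ht : ∀ j, j < k → ∀ t, Nat.Coprime t m → SW m A (q ^ j * t) = 0) :
    ∀ z, Nat.Coprime z m' → SW m' A z = 0 := by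
  classical
  have hm'0 : m' ≠ 0 := by rintro rfl; rw [mul_zero] at hqm; exact hm hqm.symm
  have hNm' : NeZero m' := ⟨hm'0⟩
  have hqdm : q ∣ m := by rw [← hqm]; exact (dvd_pow_self q hk.ne').mul_right m'
  have hm'm : m' ∣ m := Dvd.intro_left _ hqm
  set K := q ^ k with hK
  have hKm : K ∣ m := Dvd.intro _ hqm
  have hqK : q ∣ K := dvd_pow_self q hk.ne'
  have hK0 : 0 < K := pow_pos hq.pos k
  have hKm' : Nat.Coprime K m' :=
    Nat.Coprime.pow_left _ ((Nat.Prime.coprime_iff_not_dvd hq).mpr hqm')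
  have hqleK : q ≤ K := Nat.le_of_dvd hK0 hqK
  have hPp : ∀ r ∈ PO q m, r.Prime ∧ r ∣ m ∧ r ≠ q := fun r hr => PO_prime hr
  have hPp' : ∀ r ∈ PO q m, r.Prime ∧ r ∣ m := fun r hr => ⟨(hPp r hr).1, (hPp r hr).2.1⟩
  have hm1 : 1 ≤ m := Nat.one_le_iff_ne_zero.mpr hm
  have hm1c : Nat.Coprime (m - 1) m := by
    have h1 := Nat.coprime_self_sub_right (m := 1) (n := m) hm1
    rw [Nat.coprime_comm]
    exact h1.mpr (Nat.coprime_one_right m)
  have hm1s : ∀ x, x + (m - 1) * x = m * x := by
    intro x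
    obtain ⟨k, hk⟩ : ∃ k, m = k + 1 := ⟨m - 1, by omega⟩
    rw [hk]
    simp; ring
  -- the distributions
  let v : ℕ → ℕ → ℤ := fun z x => if x % K = 1 % K then saw ((z * x : ℕ) : ZMod m') else 0
  have hvmod : ∀ z x, v z (x % m) = v z x := by
    intro z x
    have h1 : x % m % K = x % K := Nat.mod_mod_of_dvd x hKm
    have h2 : saw ((z * (x % m) : ℕ) : ZMod m') = saw ((z * x : ℕ) : ZMod m') :=
      saw_per _ _ (((Nat.mod_modEq x m).of_dvd hm'm).mul_left z)
    simp only [v, h1, h2]
  have hex : ∀ z, ∃ C : ℕ → ℤ, TD q m (PO q m) C ∧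
      ∀ x, ¬ q ∣ x → (∀ r ∈ PO q m, TT r m x) → C x = v z x := by
    intro z
    obtain ⟨C, hC1, hC2⟩ := exists_td hq hqdm hm (v z)
    exact ⟨C, hC1, fun x hx hT => by rw [hC2 x hx hT, hvmod]⟩
  choose C hC hCv using hex
  -- representatives of `K`
  let Ks : Finset ℕ := (range K).filter (fun c => ¬ q ∣ c)
  let κ : ℕ → ℕ := fun c => (Nat.chineseRemainder hKm' c 1 : ℕ)
  have hκK : ∀ c, κ c ≡ c [MOD K] := fun c => (Nat.chineseRemainder hKm' c 1).2.1
  have hκm' : ∀ c, κ c ≡ 1 [MOD m'] := fun c => (Nat.chineseRemainder hKm' c 1).2.2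
  have hκq : ∀ c, (q ∣ κ c ↔ q ∣ c) := fun c => ((hκK c).of_dvd hqK).dvd_iff dvd_rfl
  have hκc : ∀ c ∈ Ks, Nat.Coprime (κ c) m := by
    intro c hc
    have hc' : ¬ q ∣ c := (mem_filter.mp hc).2
    rw [← hqm]
    apply Nat.Coprime.mul_right
    · apply Nat.Coprime.pow_right
      exact (Nat.coprime_comm).mp ((Nat.Prime.coprime_iff_not_dvd hq).mpr
        (fun h => hc' ((hκq c).mp h)))
    · have : Nat.gcd (κ c) m' = Nat.gcd 1 m' := (hκm' c).gcd_eq
      rw [Nat.Coprime, this, Nat.gcd_one_left]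
  have hrfac : ∀ r ∈ PO q m, r ^ (m.factorization r) ∣ m' := by
    intro r hr
    obtain ⟨hr1, hr2, hr3⟩ := hPp r hr
    have h1 : r ^ (m.factorization r) ∣ K * m' := by rw [hqm]; exact Nat.ordProj_dvd m r
    apply Nat.Coprime.dvd_of_dvd_mul_left _ h1
    exact Nat.Coprime.pow _ _ ((Nat.coprime_primes hr1 hq).mpr hr3)
  -- the sum over `K`
  have hsumK : ∀ z, Nat.Coprime z m' → ∀ x, ∑ c ∈ Ks, C z (κ c * x) =
      if q ∣ x then (0 : ℤ) else saw ((z * x : ℕ) : ZMod m') := by
    intro z hz x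
    refine TD.ext_of_B hm hq hqdm hPp
      (TD.sum Ks (fun c x => C z (κ c * x)) fun c hc => (hC z).mul hPp' (hκc c hc))
      (Lambda_td hq hk hqm hm hqm' hz) ?_ x
    intro x hx hT
    simp only [if_neg hx]
    have hval : ∀ c ∈ Ks, C z (κ c * x) =
        if (c * x) % K = 1 % K then saw ((z * x : ℕ) : ZMod m') else 0 := by
      intro c hc
      have hc' : ¬ q ∣ c := (mem_filter.mp hc).2
      rw [hCv z (κ c * x)]
      · have h1 : (κ c * x) % K = (c * x) % K := (hκK c).mul_right x
        have h2 : saw ((z * (κ c * x) : ℕ) : ZMod m') = saw ((z * x : ℕ) : ZMod m') := by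
          apply saw_per
          apply Nat.ModEq.mul_left
          have := (hκm' c).mul_right x
          rwa [one_mul] at this
        simp only [v, h1, h2]
      · intro h
        rcases (Nat.Prime.dvd_mul hq).mp h with h | h
        · exact hc' ((hκq c).mp h)
        · exact hx h
      · intro r hr
        have h1 := hT r hr
        unfold TT at h1 ⊢
        have h2 : (κ c * x) % r ^ (m.factorization r) = x % r ^ (m.factorization r) := by
          have h3 := ((hκm' c).mul_right x).of_dvd (hrfac r hr)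
          rw [one_mul] at h3
          exact h3
        rw [h2]; exact h1
    rw [sum_congr rfl hval]
    have hxK : Nat.Coprime x K :=
      Nat.Coprime.pow_right _ ((Nat.coprime_comm).mp ((Nat.Prime.coprime_iff_not_dvd hq).mpr hx))
    obtain ⟨c0, hc0, hc0'⟩ := Nat.exists_mul_mod_eq_of_coprime 1 hxK hK0.ne'
    have hc0m : c0 ∈ Ks := by
      simp only [Ks, mem_filter, mem_range]
      refine ⟨hc0, ?_⟩
      intro h
      have h1 : x * c0 ≡ 1 [MOD q] := Nat.ModEq.of_dvd hqK hc0'
      have h2 : q ∣ 1 := (h1.dvd_iff dvd_rfl).mp (h.mul_left x)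
      exact hq.one_lt.ne' (Nat.dvd_one.mp h2)
    rw [Finset.sum_eq_single c0]
    · rw [if_pos (by rw [mul_comm]; exact hc0')]
    · intro c hc hne
      rw [if_neg]
      intro h
      apply hne
      have h1 : x * c ≡ x * c0 [MOD K] := by
        have h2 : x * c ≡ 1 [MOD K] := by rw [mul_comm]; exact h
        exact h2.trans (Nat.ModEq.symm hc0')
      have h3 : c ≡ c0 [MOD K] :=
        Nat.ModEq.cancel_left_of_coprime (by rwa [Nat.coprime_comm] at hxK) h1
      exact Nat.ModEq.eq_of_lt_of_lt h3 (mem_range.mp (mem_filter.mp hc).1) hc0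
    · intro h; exact absurd hc0m h
  -- odd parts
  let Cm : ℕ → ℕ → ℤ := fun z x => C z x - C z ((m - 1) * x)
  have hCm : ∀ z, TD q m (PO q m) (Cm z) := fun z => (hC z).sub ((hC z).mul hPp' hm1c)
  have hCmo : ∀ z x y, m ∣ x + y → Cm z y = - Cm z x := by
    intro z x y hxy
    have h1 : y ≡ (m - 1) * x [MOD m] := by
      apply Nat.ModEq.add_left_cancel' x
      rw [hm1s]
      exact ((Nat.modEq_zero_iff_dvd).mpr hxy).trans
        ((Nat.modEq_zero_iff_dvd).mpr (Dvd.intro _ rfl)).symm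
    have h2 : (m - 1) * y ≡ x [MOD m] := by
      apply Nat.ModEq.add_left_cancel' y
      rw [hm1s, add_comm y x]
      exact ((Nat.modEq_zero_iff_dvd).mpr (Dvd.intro _ rfl)).trans
        ((Nat.modEq_zero_iff_dvd).mpr hxy).symm
    simp only [Cm]
    rw [(hC z).per _ _ h1, (hC z).per _ _ h2]
    ring
  let V : ℕ → ℤ := fun z => (A.map (Cm z)).sum
  -- invariance
  have hinv : ∀ z, ∀ c ∈ Ks, (A.map fun a => Cm z (κ c * a)).sum = V z := by
    intro z c hc
    have hc' : ¬ q ∣ c := (mem_filter.mp hc).2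
    have h1 := star2 hq hm (A.map fun a => κ c * a) A (fun _ a ha => by
      obtain ⟨b, hb, rfl⟩ := Multiset.mem_map.mp ha
      intro h
      rcases (Nat.Prime.dvd_mul hq).mp h with h | h
      · exact hc' ((hκq c).mp h)
      · exact hA b hb h) (fun _ => hA) (fun j t htc => by
      have e1 : SW m (A.map fun a => κ c * a) (q ^ j * t) = SW m A (q ^ j * (t * κ c)) := by
        unfold SW
        rw [Multiset.map_map]
        congr 1
        apply Multiset.map_congr rfl
        intro a _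
        simp only [Function.comp_apply]
        congr 2
        ring
      rw [e1]
      rcases lt_or_ge j k with hj | hj
      · rw [ht j hj t htc, ht j hj _ (Nat.Coprime.mul_left htc (hκc c hc))]
      · apply SW_congr
        obtain ⟨l, rfl⟩ := Nat.exists_eq_add_of_le hj
        have e2 : q ^ (k + l) * (t * κ c) = K * (q ^ l * t * κ c) := by rw [pow_add]; ring
        have e3 : q ^ (k + l) * t = K * (q ^ l * t * 1) := by rw [pow_add]; ring
        rw [e2, e3, ← hqm]
        exact Nat.ModEq.mul_left' K ((hκm' c).mul_left _)) (hCm z) (hCmo z)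
    rw [Multiset.map_map] at h1
    exact h1
  -- the total
  have htot : ∀ z, Nat.Coprime z m' → (Ks.card : ℤ) * V z = 2 * SW m' A z := by
    intro z hz
    have h1 : (Ks.card : ℤ) * V z = ∑ c ∈ Ks, (A.map fun a => Cm z (κ c * a)).sum := by
      rw [sum_congr rfl (hinv z), sum_const, nsmul_eq_mul]
    rw [h1, ← Multiset.sum_map_sum]
    unfold SW
    rw [← Multiset.sum_map_mul_left]
    congr 1
    apply Multiset.map_congr rfl
    intro a ha
    have h2 : ∀ c, Cm z (κ c * a) = C z (κ c * a) - C z (κ c * ((m - 1) * a)) := by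
      intro c
      simp only [Cm]
      congr 2
      ring
    simp only [h2, sum_sub_distrib]
    rw [hsumK z hz, hsumK z hz, if_neg (hA a ha), if_neg]
    · have h3 : ((z * ((m - 1) * a) : ℕ) : ZMod m') = - ((z * a : ℕ) : ZMod m') := by
        have h4 : ((z * (a + (m - 1) * a) : ℕ) : ZMod m') = 0 := by
          rw [hm1s, ZMod.natCast_eq_zero_iff]
          exact (hm'm.mul_right a).mul_left z
        push_cast at h4 ⊢
        linear_combination h4
      rw [h3, saw_neg]; ring
    · intro h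
      rcases (Nat.Prime.dvd_mul hq).mp h with h | h
      · have h4 : q ∣ Nat.gcd (m - 1) m := Nat.dvd_gcd h hqdm
        rw [hm1c] at h4
        exact hq.one_lt.ne' (Nat.dvd_one.mp h4)
      · exact hA a ha h
  -- congruence
  have hcong : ∀ z x, ((C z x : ℤ) : ZMod m') = (z : ZMod m') * ((C 1 x : ℤ) : ZMod m') := by
    intro z x
    refine TD.ext_of_B hm hq hqdm hPp ((hC z).map (Int.castAddHom (ZMod m')))
      ((hC 1).map ((AddMonoidHom.mulLeft (z : ZMod m')).comp (Int.castAddHom (ZMod m')))) ?_ x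
    intro x hx hT
    change ((C z x : ℤ) : ZMod m') = (z : ZMod m') * ((C 1 x : ℤ) : ZMod m')
    rw [hCv z x hx hT, hCv 1 x hx hT]
    simp only [v]
    by_cases h : x % K = 1 % K
    · rw [if_pos h, if_pos h, saw_cast, saw_cast]
      push_cast; ring
    · rw [if_neg h, if_neg h]; simp
  have hVc : ∀ z, ((V z : ℤ) : ZMod m') = (z : ZMod m') * ((V 1 : ℤ) : ZMod m') := by
    intro z
    simp only [V]
    have : ∀ B : Multiset ℕ, (((B.map (Cm z)).sum : ℤ) : ZMod m') =
        (z : ZMod m') * (((B.map (Cm 1)).sum : ℤ) : ZMod m') := by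
      intro B
      induction B using Multiset.induction_on with
      | empty => simp
      | cons a B ih =>
        rw [Multiset.map_cons, Multiset.sum_cons, Multiset.map_cons, Multiset.sum_cons,
          Int.cast_add, Int.cast_add, ih]
        simp only [Cm, Int.cast_sub]
        rw [hcong z a, hcong z ((m - 1) * a)]
        ring
    exact this A
  -- smallness
  have hKs : Ks.card = Nat.totient (q ^ k) := by
    unfold Nat.totient
    simp only [Ks, hK]
    congr 1
    apply Finset.filter_congr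
    intro c _
    rw [Nat.coprime_pow_left_iff hk, Nat.Prime.coprime_iff_not_dvd hq]
  have hKs0 : (0 : ℤ) < Ks.card := by
    rw [hKs]
    exact_mod_cast Nat.totient_pos.mpr (pow_pos hq.pos k)
  have hsmall : ∀ z, Nat.Coprime z m' → 6 * |V z| < m' := by
    intro z hz
    have h1 := htot z hz
    have h2 := hL z hz
    rw [← hKs] at h2
    have e3 : (Ks.card : ℤ) * |V z| = 2 * |SW m' A z| := by
      have : (Ks.card : ℤ) * |V z| = |(Ks.card : ℤ) * V z| := by rw [abs_mul, Nat.abs_cast]
      rw [this, h1, abs_mul]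
      rfl
    have e4 : (Ks.card : ℤ) * (6 * |V z|) < Ks.card * m' := by linarith
    exact lt_of_mul_lt_mul_left e4 hKs0.le
  have hV0 := small_zero hm'0 _ V (fun z _ => hVc z) hsmall
  intro z hz
  have h1 := htot z hz
  rw [hV0 z hz, mul_zero] at h1
  linarith

end

end Pool.Agent.Y2
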